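import Mathlib

/-! Counting the orbits which mostly follow a given periodic orbit. -/

set_option autoImplicit false

namespace Pool.Agent.Run7.h792.GM

open Finset Classical

/-- the neighbourhood of the orbit of `z` -/
def G (m : ℕ) (z : ℝ) (ℓ : ℕ) : Set ℝ :=
  {x | ∃ t < m, ∃ p : ℤ, |x - 2 ^ t * z - p| < 1 / 2 ^ (ℓ + 2)}

lemma G_int {m : ℕ} {z : ℝ} {ℓ : ℕ} {x : ℝ} (q : ℤ) (h : x ∈ G m z ℓ) : x + q ∈ G m z ℓ := by
  obtain ⟨t, ht, p, hp⟩ := h
  refine ⟨t, ht, p + q, ?_⟩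
  have : x + q - 2 ^ t * z - ((p + q : ℤ) : ℝ) = x - 2 ^ t * z - p := by push_cast; ring
  rw [this]
  exact hp

lemma G_int_iff {m : ℕ} {z : ℝ} {ℓ : ℕ} {x : ℝ} (q : ℤ) : x + q ∈ G m z ℓ ↔ x ∈ G m z ℓ := by
  constructor
  · intro h
    have := G_int (-q) h
    simpa using this
  · exact G_int q

/-- descent: closeness at all block times gives closeness at time `0` -/
lemma descent (ℓ H : ℕ) : ∀ y : ℝ, (∀ r < H, ∃ p : ℤ, |2 ^ (r * ℓ) * y - p| < 1 / 2 ^ (ℓ + 1)) →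
    ∃ p : ℤ, |y - p| ≤ 1 / 2 ^ (ℓ * H + 1) := by
  induction H with
  | zero =>
    intro y _
    refine ⟨round y, ?_⟩
    have := abs_sub_round y
    simpa using this
  | succ H ih =>
    intro y hy
    obtain ⟨p', hp'⟩ := ih (2 ^ ℓ * y) (fun r hr => by
      obtain ⟨p, hp⟩ := hy (r + 1) (by omega)
      refine ⟨p, ?_⟩
      rw [← mul_assoc, ← pow_add, show r * ℓ + ℓ = (r + 1) * ℓ by ring]
      exact hp)
    obtain ⟨p, hp⟩ := hy 0 (by omega)
    rw [zero_mul, pow_zero, one_mul] at hp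
    have h2 : (0 : ℝ) < 2 ^ ℓ := by positivity
    have h3 : |2 ^ ℓ * y - 2 ^ ℓ * p| < 1 / 2 := by
      rw [← mul_sub, abs_mul, abs_of_pos h2]
      have := mul_lt_mul_of_pos_left hp h2
      refine this.trans_le (le_of_eq ?_)
      rw [pow_succ]
      field_simp
    have h4 : |2 ^ ℓ * y - p'| ≤ 1 / 2 := by
      refine hp'.trans ?_
      apply one_div_le_one_div_of_le (by norm_num)
      rw [pow_succ]
      have : (1 : ℝ) ≤ 2 ^ (ℓ * H) := one_le_pow₀ (by norm_num)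
      linarith
    have h5 : |((p' - 2 ^ ℓ * p : ℤ) : ℝ)| < 1 := by
      have e : ((p' - 2 ^ ℓ * p : ℤ) : ℝ) = (2 ^ ℓ * y - 2 ^ ℓ * p) - (2 ^ ℓ * y - p') := by
        push_cast; ring
      rw [e]
      refine (abs_sub _ _).trans_lt ?_
      linarith
    have h6 : p' = 2 ^ ℓ * p := by
      rw [← Int.cast_abs] at h5
      have : |p' - 2 ^ ℓ * p| < 1 := by exact_mod_cast h5
      have := Int.abs_lt_one_iff.1 this
      linarith
    refine ⟨p, ?_⟩
    have h7 : |y - p| = |2 ^ ℓ * y - p'| / 2 ^ ℓ := by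
      rw [h6]
      push_cast
      rw [← mul_sub, abs_mul, abs_of_pos h2]
      field_simp
    rw [h7, div_le_iff₀ h2]
    refine hp'.trans (le_of_eq ?_)
    rw [show ℓ * (H + 1) + 1 = (ℓ * H + 1) + ℓ by ring, pow_add]
    field_simp
    try ring

lemma count_codes (H m M ρ : ℕ) (hM : 1 ≤ M) :
    ((univ.filter fun F : Fin H → Fin m ⊕ Fin M =>
      (univ.filter fun r => (F r).isRight).card ≤ ρ).card : ℝ) ≤ (m + 1) ^ H * M ^ ρ := by
  have hM' : (0 : ℝ) < M := by exact_mod_cast hM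
  set w : Fin m ⊕ Fin M → ℝ := fun s => if s.isRight then 1 / M else 1 with hw
  have hwpos : ∀ s, 0 < w s := by
    intro s
    simp only [hw]
    split_ifs <;> positivity
  have hprod : ∀ F : Fin H → Fin m ⊕ Fin M,
      ∏ r, w (F r) = (1 / M) ^ (univ.filter fun r => (F r).isRight).card := by
    intro F
    simp only [hw]
    rw [prod_ite, prod_const, prod_const_one, mul_one]
  have hsum : ∑ s, w s = m + 1 := by
    rw [Fintype.sum_sum_type]
    simp only [hw, Sum.isRight_inl, Sum.isRight_inr, if_true]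
    simp
    field_simp
  calc ((univ.filter fun F : Fin H → Fin m ⊕ Fin M =>
        (univ.filter fun r => (F r).isRight).card ≤ ρ).card : ℝ)
      = ∑ F ∈ univ.filter (fun F : Fin H → Fin m ⊕ Fin M =>
        (univ.filter fun r => (F r).isRight).card ≤ ρ), (1 : ℝ) := by simp
    _ ≤ ∑ F ∈ univ.filter (fun F : Fin H → Fin m ⊕ Fin M =>
        (univ.filter fun r => (F r).isRight).card ≤ ρ), (M : ℝ) ^ ρ * ∏ r, w (F r) := by
        refine sum_le_sum fun F hF => ?_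
        rw [mem_filter] at hF
        rw [hprod, one_div, inv_pow, ← div_eq_mul_inv, le_div_iff₀ (by positivity), one_mul]
        exact pow_le_pow_right₀ (by exact_mod_cast hM) hF.2
    _ ≤ ∑ F : Fin H → Fin m ⊕ Fin M, (M : ℝ) ^ ρ * ∏ r, w (F r) :=
        sum_le_sum_of_subset_of_nonneg (filter_subset _ _) fun F _ _ => by
          have : 0 ≤ ∏ r, w (F r) := prod_nonneg fun r _ => (hwpos _).le
          positivity
    _ = (M : ℝ) ^ ρ * (∑ s, w s) ^ H := by
        rw [← mul_sum, Fintype.sum_pow]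
    _ = (m + 1) ^ H * M ^ ρ := by rw [hsum]; ring

/-- the code of a point at one time -/
noncomputable def code1 (m : ℕ) (z : ℝ) (ℓ : ℕ) (y : ℝ) : Fin m ⊕ Fin (2 ^ (ℓ + 2)) :=
  if h : y ∈ G m z ℓ then Sum.inl ⟨h.choose, h.choose_spec.1⟩
  else Sum.inr ⟨⌊Int.fract y * 2 ^ (ℓ + 2)⌋₊, by
    rw [Nat.floor_lt (mul_nonneg (Int.fract_nonneg _) (by positivity))]
    push_cast
    have := Int.fract_lt_one y
    have h2 : (0 : ℝ) < 2 ^ (ℓ + 2) := by positivity
    nlinarith⟩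

lemma code1_isRight {m : ℕ} {z : ℝ} {ℓ : ℕ} {y : ℝ} :
    (code1 m z ℓ y).isRight = true ↔ y ∉ G m z ℓ := by
  unfold code1
  split_ifs with h <;> simp [h]

lemma code1_close {m : ℕ} {z : ℝ} {ℓ : ℕ} {y y' : ℝ} (h : code1 m z ℓ y = code1 m z ℓ y') :
    ∃ p : ℤ, |y - y' - p| < 1 / 2 ^ (ℓ + 1) := by
  have hpow : (1 : ℝ) / 2 ^ (ℓ + 1) = 1 / 2 ^ (ℓ + 2) + 1 / 2 ^ (ℓ + 2) := by
    rw [pow_succ _ (ℓ + 1)]
    field_simp
    norm_num
  unfold code1 at h
  by_cases h1 : y ∈ G m z ℓ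
  · by_cases h2 : y' ∈ G m z ℓ
    · rw [dif_pos h1, dif_pos h2] at h
      have h3 := Sum.inl_injective h
      have h4 : h1.choose = h2.choose := by simpa using h3
      obtain ⟨p1, hp1⟩ := h1.choose_spec.2
      obtain ⟨p2, hp2⟩ := h2.choose_spec.2
      rw [h4] at hp1
      refine ⟨p1 - p2, ?_⟩
      rw [hpow]
      have e : y - y' - ((p1 - p2 : ℤ) : ℝ)
          = (y - 2 ^ h2.choose * z - p1) - (y' - 2 ^ h2.choose * z - p2) := by push_cast; ring
      rw [e]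
      exact (abs_sub _ _).trans_lt (add_lt_add hp1 hp2)
    · rw [dif_pos h1, dif_neg h2] at h
      exact absurd h (by simp)
  · by_cases h2 : y' ∈ G m z ℓ
    · rw [dif_neg h1, dif_pos h2] at h
      exact absurd h (by simp)
    · rw [dif_neg h1, dif_neg h2] at h
      have h3 := Sum.inr_injective h
      have h4 : ⌊Int.fract y * 2 ^ (ℓ + 2)⌋₊ = ⌊Int.fract y' * 2 ^ (ℓ + 2)⌋₊ := by simpa using h3
      have hp : (0 : ℝ) < 2 ^ (ℓ + 2) := by positivity
      have a1 := Nat.floor_le (mul_nonneg (Int.fract_nonneg y) hp.le)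
      have a2 := Nat.lt_floor_add_one (Int.fract y * 2 ^ (ℓ + 2))
      have b1 := Nat.floor_le (mul_nonneg (Int.fract_nonneg y') hp.le)
      have b2 := Nat.lt_floor_add_one (Int.fract y' * 2 ^ (ℓ + 2))
      rw [h4] at a1 a2
      refine ⟨⌊y⌋ - ⌊y'⌋, ?_⟩
      have e : y - y' - ((⌊y⌋ - ⌊y'⌋ : ℤ) : ℝ) = Int.fract y - Int.fract y' := by
        rw [Int.fract, Int.fract]; push_cast; ring
      rw [e]
      have h5 : |Int.fract y - Int.fract y'| < 1 / 2 ^ (ℓ + 2) := by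
        have e2 : |Int.fract y - Int.fract y'| * 2 ^ (ℓ + 2)
            = |Int.fract y * 2 ^ (ℓ + 2) - Int.fract y' * 2 ^ (ℓ + 2)| := by
          rw [← sub_mul, abs_mul, abs_of_pos hp]
        rw [lt_div_iff₀ hp, e2, abs_lt]
        constructor <;> linarith
      rw [hpow]
      have : (0 : ℝ) < 1 / 2 ^ (ℓ + 2) := by positivity
      linarith

/-- number of block times at which the orbit is outside `G` -/
noncomputable def nb (m : ℕ) (z : ℝ) (ℓ H : ℕ) (x : ℝ) : ℕ :=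
  ((range H).filter fun r => 2 ^ (r * ℓ) * x ∉ G m z ℓ).card

/-- a net for the points which mostly follow the periodic orbit -/
theorem net {m : ℕ} {z : ℝ} {ℓ H ρ : ℕ} (𝒳 : Set ℝ) (h𝒳 : ∀ x ∈ 𝒳, nb m z ℓ H x ≤ ρ) :
    ∃ S : Finset ℝ, (∀ x ∈ S, x ∈ 𝒳) ∧
      (S.card : ℝ) ≤ (m + 1) ^ H * (2 ^ (ℓ + 2)) ^ ρ ∧
      ∀ x ∈ 𝒳, ∃ x' ∈ S, ∃ p : ℤ, |x - x' - p| ≤ 1 / 2 ^ (ℓ * H + 1) := by
  set code : ℝ → (Fin H → Fin m ⊕ Fin (2 ^ (ℓ + 2))) :=
    fun x r => code1 m z ℓ (2 ^ ((r : ℕ) * ℓ) * x) with hcode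
  set T : Finset (Fin H → Fin m ⊕ Fin (2 ^ (ℓ + 2))) :=
    univ.filter (fun F => ∃ x ∈ 𝒳, code x = F) with hT
  set rep : (Fin H → Fin m ⊕ Fin (2 ^ (ℓ + 2))) → ℝ :=
    fun F => if h : ∃ x ∈ 𝒳, code x = F then h.choose else 0 with hrep
  have hrep1 : ∀ F ∈ T, rep F ∈ 𝒳 ∧ code (rep F) = F := by
    intro F hF
    rw [hT, mem_filter] at hF
    simp only [hrep]
    rw [dif_pos hF.2]
    exact hF.2.choose_spec
  refine ⟨T.image rep, ?_, ?_, ?_⟩
  · intro x hx
    rw [mem_image] at hx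
    obtain ⟨F, hF, rfl⟩ := hx
    exact (hrep1 F hF).1
  · have h1 : (T.image rep).card ≤ T.card := card_image_le
    have h2 : T ⊆ univ.filter fun F : Fin H → Fin m ⊕ Fin (2 ^ (ℓ + 2)) =>
        (univ.filter fun r => (F r).isRight).card ≤ ρ := by
      intro F hF
      obtain ⟨h3, h4⟩ := hrep1 F hF
      rw [mem_filter]
      refine ⟨mem_univ _, ?_⟩
      have h5 := h𝒳 _ h3
      have h6' : ∀ x0 : ℝ, (univ.filter fun r : Fin H => (code x0 r).isRight).card
          = nb m z ℓ H x0 := by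
        intro x0
        unfold nb
        simp only [hcode]
        apply card_bij (fun (r : Fin H) _ => (r : ℕ))
        · intro r hr
          rw [mem_filter] at hr ⊢
          exact ⟨mem_range.2 r.2, code1_isRight.1 hr.2⟩
        · intro a _ b _ h
          exact Fin.ext h
        · intro r hr
          rw [mem_filter] at hr
          exact ⟨⟨r, mem_range.1 hr.1⟩, by
            rw [mem_filter]
            exact ⟨mem_univ _, code1_isRight.2 hr.2⟩, rfl⟩
      have h6 := h6' (rep F)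
      rw [h4] at h6
      rw [h6]
      exact h5
    have h3 := count_codes H m (2 ^ (ℓ + 2)) ρ (Nat.one_le_two_pow)
    have h4 : (T.card : ℝ) ≤ _ := (Nat.cast_le.2 (card_le_card h2)).trans h3
    push_cast at h4
    refine le_trans ?_ h4
    exact_mod_cast h1
  · intro x hx
    have hF : code x ∈ T := by
      rw [hT, mem_filter]
      exact ⟨mem_univ _, x, hx, rfl⟩
    obtain ⟨h1, h2⟩ := hrep1 _ hF
    refine ⟨rep (code x), mem_image_of_mem _ hF, ?_⟩
    apply descent ℓ H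
    intro r hr
    have h3 : code1 m z ℓ (2 ^ (r * ℓ) * x) = code1 m z ℓ (2 ^ (r * ℓ) * rep (code x)) := by
      have := congrFun h2 ⟨r, hr⟩
      simp only [hcode] at this
      exact this.symm
    obtain ⟨p, hp⟩ := code1_close h3
    refine ⟨p, ?_⟩
    rw [mul_sub]
    exact hp

end Pool.Agent.Run7.h792.GM
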