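import Mathlib
import Pool.Agent.H520R3.Weyl

/-! Large deviations for `∑ e(k 2^j c x)` over `c < C`, by Riesz products. -/

set_option autoImplicit false

namespace Pool.Agent.Run7.h792.GM

open Finset
open Pool.Agent.H520R3 (e norm_e e_add e_zero e_neg e_int e_add_int e_sub_int norm_e_sub_e_le
  four_mul_le geom_bound e_mul_nat)

/-- the Riesz product -/
noncomputable def P (τ : ℝ) (w : ℂ) (k : ℕ) (x : ℝ) (J c : ℕ) : ℂ :=
  ∏ j ∈ range J, (1 + ((τ * (w * e (k * 2 ^ j * c * x)).re : ℝ) : ℂ))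

lemma P_succ (τ : ℝ) (w : ℂ) (k : ℕ) (x : ℝ) (J c : ℕ) :
    P τ w k x (J + 1) c = P τ w k x J c
      + (τ / 2) * w * (e (k * 2 ^ J * c * x) * P τ w k x J c)
      + (τ / 2) * (starRingEnd ℂ) w * (e (-(k * 2 ^ J * c * x)) * P τ w k x J c) := by
  have h1 : ((τ * (w * e (k * 2 ^ J * c * x)).re : ℝ) : ℂ)
      = (τ / 2) * w * e (k * 2 ^ J * c * x)
        + (τ / 2) * (starRingEnd ℂ) w * e (-(k * 2 ^ J * c * x)) := by
    rw [e_neg]
    have := Complex.add_conj (w * e (k * 2 ^ J * c * x))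
    rw [map_mul] at this
    push_cast
    push_cast at this
    linear_combination (-(τ : ℂ) / 2) * this
  unfold P at *
  rw [prod_range_succ, h1]
  ring

lemma riesz_A {τ : ℝ} (hτ : 0 ≤ τ) {w : ℂ} (hw : ‖w‖ = 1) {k : ℕ} {x : ℝ} {C : ℕ} {B : ℝ}
    {G : ℤ} (hB : ∀ g : ℤ, g ≠ 0 → |g| ≤ G → ‖∑ c ∈ range C, e (g * c * x)‖ ≤ B) (J : ℕ) :
    ∀ g : ℤ, (k : ℤ) * 2 ^ J < |g| + k → |g| + k * 2 ^ J ≤ G + k →
      ‖∑ c ∈ range C, e (g * c * x) * P τ w k x J c‖ ≤ (1 + τ) ^ J * B := by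
  induction J with
  | zero =>
    intro g h1 h2
    simp only [P, range_zero, prod_empty, mul_one, pow_zero, one_mul]
    apply hB g
    · intro h
      rw [h] at h1
      simp at h1
    · simpa using h2
  | succ J ih =>
    intro g h1 h2
    have hk : (0 : ℤ) ≤ k := Int.natCast_nonneg k
    have hK : (0 : ℤ) ≤ (k : ℤ) * 2 ^ J := by positivity
    have hpow : (k : ℤ) * 2 ^ (J + 1) = 2 * (k * 2 ^ J) := by ring
    rw [hpow] at h1 h2
    have e1 : ∑ c ∈ range C, e (g * c * x) * P τ w k x (J + 1) c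
        = ∑ c ∈ range C, e (g * c * x) * P τ w k x J c
          + (τ / 2) * w * ∑ c ∈ range C, e (((g + k * 2 ^ J : ℤ) : ℝ) * c * x) * P τ w k x J c
          + (τ / 2) * (starRingEnd ℂ) w *
            ∑ c ∈ range C, e (((g - k * 2 ^ J : ℤ) : ℝ) * c * x) * P τ w k x J c := by
      rw [mul_sum, mul_sum, ← sum_add_distrib, ← sum_add_distrib]
      refine sum_congr rfl fun c _ => ?_
      rw [P_succ]
      rw [show ((g + k * 2 ^ J : ℤ) : ℝ) * c * x = g * c * x + k * 2 ^ J * c * x by push_cast; ring,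
        show ((g - k * 2 ^ J : ℤ) : ℝ) * c * x = g * c * x + -(k * 2 ^ J * c * x) by
          push_cast; ring, e_add, e_add]
      ring
    have a1 : |g| - k * 2 ^ J ≤ |g + k * 2 ^ J| := by
      have := abs_sub_abs_le_abs_sub g (-(k * 2 ^ J))
      rw [abs_neg, abs_of_nonneg hK, sub_neg_eq_add] at this
      exact this
    have a2 : |g| - k * 2 ^ J ≤ |g - k * 2 ^ J| := by
      have := abs_sub_abs_le_abs_sub g (k * 2 ^ J)
      rw [abs_of_nonneg hK] at this
      exact this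
    have a3 : |g + k * 2 ^ J| ≤ |g| + k * 2 ^ J := by
      have := abs_add_le g (k * 2 ^ J)
      rwa [abs_of_nonneg hK] at this
    have a4 : |g - k * 2 ^ J| ≤ |g| + k * 2 ^ J := by
      have := abs_sub g (k * 2 ^ J)
      rwa [abs_of_nonneg hK] at this
    have i1 := ih g (by linarith) (by linarith)
    have i2 := ih (g + k * 2 ^ J) (by linarith) (by linarith)
    have i3 := ih (g - k * 2 ^ J) (by linarith) (by linarith)
    rw [e1]
    have n1 : ‖((τ : ℂ) / 2) * w‖ = τ / 2 := by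
      rw [norm_mul, hw, mul_one, norm_div, Complex.norm_real, Real.norm_of_nonneg hτ]
      norm_num
    have n2 : ‖((τ : ℂ) / 2) * (starRingEnd ℂ) w‖ = τ / 2 := by
      rw [norm_mul, RCLike.norm_conj, hw, mul_one, norm_div, Complex.norm_real,
        Real.norm_of_nonneg hτ]
      norm_num
    refine (norm_add_le _ _).trans ?_
    refine (add_le_add (norm_add_le _ _) le_rfl).trans ?_
    rw [norm_mul, norm_mul ((τ / 2 : ℂ) * (starRingEnd ℂ) w), n1, n2, pow_succ]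
    have hh := add_le_add (add_le_add i1 (mul_le_mul_of_nonneg_left i2 (by linarith : 0 ≤ τ / 2)))
      (mul_le_mul_of_nonneg_left i3 (by linarith : 0 ≤ τ / 2))
    refine hh.trans (le_of_eq ?_)
    ring

lemma riesz_B {τ : ℝ} (hτ : 0 ≤ τ) {w : ℂ} (hw : ‖w‖ = 1) {k : ℕ} (hk : 1 ≤ k) {x : ℝ} {C : ℕ}
    {B : ℝ} {G : ℤ} (hB : ∀ g : ℤ, g ≠ 0 → |g| ≤ G → ‖∑ c ∈ range C, e (g * c * x)‖ ≤ B)
    (hB0 : 0 ≤ B) (J : ℕ) (hG : (k : ℤ) * 2 ^ J ≤ G) :
      ‖∑ c ∈ range C, P τ w k x J c‖ ≤ C + (1 + τ) ^ J * B := by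
  induction J with
  | zero =>
    simp only [P, range_zero, prod_empty, pow_zero, one_mul]
    simp
    exact hB0
  | succ J ih =>
    have hk' : (1 : ℤ) ≤ k := by exact_mod_cast hk
    have hK : (k : ℤ) ≤ (k : ℤ) * 2 ^ J := by
      have : (1 : ℤ) ≤ 2 ^ J := one_le_pow₀ (by norm_num)
      nlinarith
    have hpow : (k : ℤ) * 2 ^ (J + 1) = 2 * (k * 2 ^ J) := by ring
    rw [hpow] at hG
    have e1 : ∑ c ∈ range C, P τ w k x (J + 1) c
        = ∑ c ∈ range C, P τ w k x J c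
          + (τ / 2) * w * ∑ c ∈ range C, e (((k * 2 ^ J : ℤ) : ℝ) * c * x) * P τ w k x J c
          + (τ / 2) * (starRingEnd ℂ) w *
            ∑ c ∈ range C, e (((-(k * 2 ^ J) : ℤ) : ℝ) * c * x) * P τ w k x J c := by
      rw [mul_sum, mul_sum, ← sum_add_distrib, ← sum_add_distrib]
      refine sum_congr rfl fun c _ => ?_
      rw [P_succ]
      rw [show ((k * 2 ^ J : ℤ) : ℝ) * c * x = k * 2 ^ J * c * x by push_cast; ring,
        show ((-(k * 2 ^ J) : ℤ) : ℝ) * c * x = -(k * 2 ^ J * c * x) by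
          push_cast; ring]
    have i1 := ih (by linarith)
    have habs : |(k * 2 ^ J : ℤ)| = k * 2 ^ J := abs_of_nonneg (by linarith)
    have i2 := riesz_A hτ hw (k := k) hB J (k * 2 ^ J) (by rw [habs]; linarith)
      (by rw [habs]; linarith)
    have i3 := riesz_A hτ hw (k := k) hB J (-(k * 2 ^ J)) (by rw [abs_neg, habs]; linarith)
      (by rw [abs_neg, habs]; linarith)
    rw [e1]
    have n1 : ‖((τ : ℂ) / 2) * w‖ = τ / 2 := by
      rw [norm_mul, hw, mul_one, norm_div, Complex.norm_real, Real.norm_of_nonneg hτ]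
      norm_num
    have n2 : ‖((τ : ℂ) / 2) * (starRingEnd ℂ) w‖ = τ / 2 := by
      rw [norm_mul, RCLike.norm_conj, hw, mul_one, norm_div, Complex.norm_real,
        Real.norm_of_nonneg hτ]
      norm_num
    refine (norm_add_le _ _).trans ?_
    refine (add_le_add (norm_add_le _ _) le_rfl).trans ?_
    rw [norm_mul, norm_mul ((τ / 2 : ℂ) * (starRingEnd ℂ) w), n1, n2, pow_succ]
    have hh := add_le_add (add_le_add i1 (mul_le_mul_of_nonneg_left i2 (by linarith : 0 ≤ τ / 2)))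
      (mul_le_mul_of_nonneg_left i3 (by linarith : 0 ≤ τ / 2))
    refine hh.trans (le_of_eq ?_)
    ring

lemma exp_le_one_add {u : ℝ} (hu : -(1 / 2) ≤ u) : Real.exp (u - 2 * u ^ 2) ≤ 1 + u := by
  have h1 : 1 + (2 * u ^ 2 - u) ≤ Real.exp (2 * u ^ 2 - u) := by
    have := Real.add_one_le_exp (2 * u ^ 2 - u)
    linarith
  have h2 : Real.exp (u - 2 * u ^ 2) * Real.exp (2 * u ^ 2 - u) = 1 := by
    rw [← Real.exp_add]
    simp
  have h3 : 1 ≤ (1 + u) * Real.exp (2 * u ^ 2 - u) := by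
    have h4 : (1 + u) * (1 + (2 * u ^ 2 - u)) ≤ (1 + u) * Real.exp (2 * u ^ 2 - u) :=
      mul_le_mul_of_nonneg_left h1 (by linarith)
    have h5 : 1 ≤ (1 + u) * (1 + (2 * u ^ 2 - u)) := by
      nlinarith [mul_nonneg (sq_nonneg u) (by linarith : 0 ≤ 1 + 2 * u)]
    linarith
  have h6 := Real.exp_pos (2 * u ^ 2 - u)
  by_contra h
  push Not at h
  nlinarith

/-- one-sided large deviation -/
lemma one_side {w : ℂ} (hw : ‖w‖ = 1) {k : ℕ} (hk : 1 ≤ k) {x : ℝ} {C J : ℕ} {δ : ℝ}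
    (hδ : 0 ≤ δ) (hδ1 : δ ≤ 1)
    (hB : ∀ g : ℤ, g ≠ 0 → |g| ≤ k * 2 ^ J → ‖∑ c ∈ range C, e (g * c * x)‖ ≤ C / 2 ^ J) :
    (((range C).filter fun c : ℕ => δ * J < ∑ j ∈ range J, (w * e (k * 2 ^ j * c * x)).re).card : ℝ)
      ≤ 2 * Real.exp (-(δ ^ 2 * J / 8)) * C := by
  set S := (range C).filter fun c : ℕ => δ * J < ∑ j ∈ range J, (w * e (k * 2 ^ j * c * x)).re with hS
  set τ : ℝ := δ / 4 with hτ
  have hτ0 : 0 ≤ τ := by positivity
  have hτ1 : τ ≤ 1 / 4 := by rw [hτ]; linarith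
  -- real product
  set Q : ℕ → ℝ := fun c => ∏ j ∈ range J, (1 + τ * (w * e (k * 2 ^ j * c * x)).re) with hQ
  have hPQ : ∀ c, P τ w k x J c = ((Q c : ℝ) : ℂ) := by
    intro c
    simp only [P, hQ]
    push_cast
    rfl
  have hX : ∀ (j c : ℕ), |(w * e (k * 2 ^ j * c * x)).re| ≤ 1 := by
    intro j c
    have := Complex.abs_re_le_norm (w * e (k * 2 ^ j * c * x))
    rw [norm_mul, hw, norm_e, mul_one] at this
    exact this
  have hQlow : ∀ c : ℕ, Real.exp (τ * (∑ j ∈ range J, (w * e (k * 2 ^ j * c * x)).re) - 2 * τ ^ 2 * J)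
      ≤ Q c := by
    intro c
    have e1 : τ * (∑ j ∈ range J, (w * e (k * 2 ^ j * c * x)).re) - 2 * τ ^ 2 * J
        = ∑ j ∈ range J, (τ * (w * e (k * 2 ^ j * c * x)).re - 2 * τ ^ 2) := by
      rw [sum_sub_distrib, ← mul_sum, sum_const, card_range, nsmul_eq_mul]
      ring
    rw [e1, Real.exp_sum]
    refine prod_le_prod (fun j _ => (Real.exp_pos _).le) fun j _ => ?_
    set X := (w * e (k * 2 ^ j * c * x)).re with hXd
    have hx := hX j c
    rw [← hXd] at hx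
    rw [abs_le] at hx
    refine le_trans ?_ (exp_le_one_add (u := τ * X) (by nlinarith))
    apply Real.exp_le_exp.2
    have : (τ * X) ^ 2 ≤ τ ^ 2 := by
      rw [mul_pow]
      have : X ^ 2 ≤ 1 := by nlinarith
      nlinarith [sq_nonneg τ]
    linarith
  have hQpos : ∀ c, 0 ≤ Q c := fun c => (Real.exp_pos _).le.trans (hQlow c)
  have hsum : ∑ c ∈ range C, Q c ≤ 2 * C := by
    have h1 := riesz_B hτ0 hw hk (x := x) (C := C) (B := C / 2 ^ J) (G := k * 2 ^ J) hB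
      (by positivity) J le_rfl
    simp_rw [hPQ] at h1
    rw [← Complex.ofReal_sum, Complex.norm_real, Real.norm_of_nonneg
      (sum_nonneg fun c _ => hQpos c)] at h1
    have h2 : (1 + τ) ^ J * (C / 2 ^ J : ℝ) ≤ C := by
      have h3 : (1 + τ) ^ J ≤ 2 ^ J := pow_le_pow_left₀ (by linarith) (by linarith) J
      rw [← mul_div_assoc, div_le_iff₀ (by positivity)]
      rw [mul_comm (C : ℝ)]
      exact mul_le_mul_of_nonneg_right h3 (by positivity)
    linarith
  have hlow : (S.card : ℝ) * Real.exp (τ * (δ * J) - 2 * τ ^ 2 * J) ≤ ∑ c ∈ range C, Q c := by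
    calc (S.card : ℝ) * Real.exp (τ * (δ * J) - 2 * τ ^ 2 * J)
        = ∑ c ∈ S, Real.exp (τ * (δ * J) - 2 * τ ^ 2 * J) := by
          rw [sum_const, nsmul_eq_mul]
      _ ≤ ∑ c ∈ S, Q c := by
          refine sum_le_sum fun c hc => ?_
          rw [hS, mem_filter] at hc
          refine le_trans ?_ (hQlow c)
          apply Real.exp_le_exp.2
          have := mul_le_mul_of_nonneg_left hc.2.le hτ0
          linarith
      _ ≤ ∑ c ∈ range C, Q c :=
          sum_le_sum_of_subset_of_nonneg (filter_subset _ _) fun c _ _ => hQpos c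
  have e2 : τ * (δ * J) - 2 * τ ^ 2 * J = δ ^ 2 * J / 8 := by
    rw [hτ]; ring
  rw [e2] at hlow
  have h5 : Real.exp (-(δ ^ 2 * J / 8)) * Real.exp (δ ^ 2 * J / 8) = 1 := by
    rw [← Real.exp_add]; simp
  have h6 : (S.card : ℝ) = (S.card : ℝ) * Real.exp (δ ^ 2 * J / 8) * Real.exp (-(δ ^ 2 * J / 8)) := by
    rw [mul_assoc, mul_comm (Real.exp (δ ^ 2 * J / 8)), h5, mul_one]
  rw [h6]
  have h7 := mul_le_mul_of_nonneg_right (hlow.trans hsum) (Real.exp_pos (-(δ ^ 2 * J / 8))).le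
  linarith

/-- two-sided large deviation -/
theorem large_dev {k : ℕ} (hk : 1 ≤ k) {x : ℝ} {C J : ℕ} {ε : ℝ}
    (hε : 0 ≤ ε) (hε1 : ε ≤ 1)
    (hB : ∀ g : ℤ, g ≠ 0 → |g| ≤ k * 2 ^ J → ‖∑ c ∈ range C, e (g * c * x)‖ ≤ C / 2 ^ J) :
    (((range C).filter fun c : ℕ => ε * J < ‖∑ j ∈ range J, e (k * 2 ^ j * c * x)‖).card : ℝ)
      ≤ 8 * Real.exp (-(ε ^ 2 * J / 32)) * C := by
  have hw1 : ‖(1 : ℂ)‖ = 1 := by simp
  have hw2 : ‖(-1 : ℂ)‖ = 1 := by simp
  have hw3 : ‖(Complex.I : ℂ)‖ = 1 := by simp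
  have hw4 : ‖(-Complex.I : ℂ)‖ = 1 := by simp
  have H := fun (w : ℂ) (hw : ‖w‖ = 1) =>
    one_side hw hk (x := x) (C := C) (J := J) (δ := ε / 2) (by linarith) (by linarith) hB
  have hsub : ((range C).filter fun c : ℕ => ε * J < ‖∑ j ∈ range J, e (k * 2 ^ j * c * x)‖) ⊆
      ((((range C).filter fun c : ℕ => ε / 2 * J < ∑ j ∈ range J, ((1 : ℂ) * e (k * 2 ^ j * c * x)).re)
      ∪ ((range C).filter fun c : ℕ => ε / 2 * J < ∑ j ∈ range J, ((-1 : ℂ) * e (k * 2 ^ j * c * x)).re))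
      ∪ (((range C).filter fun c : ℕ => ε / 2 * J < ∑ j ∈ range J, ((Complex.I : ℂ) * e (k * 2 ^ j * c * x)).re)
      ∪ ((range C).filter fun c : ℕ => ε / 2 * J < ∑ j ∈ range J, ((-Complex.I : ℂ) * e (k * 2 ^ j * c * x)).re))) := by
    intro c hc
    rw [mem_filter] at hc
    simp only [mem_union, mem_filter]
    have h1 := Complex.norm_le_abs_re_add_abs_im (∑ j ∈ range J, e (k * 2 ^ j * c * x))
    have h2 : ∀ w : ℂ, ∑ j ∈ range J, (w * e (k * 2 ^ j * c * x)).re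
        = (w * ∑ j ∈ range J, e (k * 2 ^ j * c * x)).re := by
      intro w
      rw [mul_sum, Complex.re_sum]
    rw [h2, h2, h2, h2]
    set Z := ∑ j ∈ range J, e (k * 2 ^ j * c * x) with hZ
    have r1 : ((1 : ℂ) * Z).re = Z.re := by simp
    have r2 : ((-1 : ℂ) * Z).re = -Z.re := by simp
    have r3 : (Complex.I * Z).re = -Z.im := by simp
    have r4 : (-Complex.I * Z).re = Z.im := by simp
    rw [r1, r2, r3, r4]
    by_contra hcon
    push Not at hcon
    obtain ⟨⟨c1, c2⟩, c3, c4⟩ := hcon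
    have b1 := c1 hc.1
    have b2 := c2 hc.1
    have b3 := c3 hc.1
    have b4 := c4 hc.1
    have a1 : |Z.re| ≤ ε / 2 * J := abs_le.2 ⟨by linarith, b1⟩
    have a2 : |Z.im| ≤ ε / 2 * J := abs_le.2 ⟨by linarith, b4⟩
    have := hc.2
    linarith
  have hcard := card_le_card hsub
  have hcard2 := hcard.trans ((card_union_le _ _).trans (add_le_add (card_union_le _ _) (card_union_le _ _)))
  refine (Nat.cast_le (α := ℝ).2 hcard2).trans ?_
  push_cast
  have e1 : -((ε / 2) ^ 2 * (J : ℝ) / 8) = -(ε ^ 2 * J / 32) := by ring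
  have b1 := H 1 hw1
  have b2 := H (-1) hw2
  have b3 := H Complex.I hw3
  have b4 := H (-Complex.I) hw4
  rw [e1] at b1 b2 b3 b4
  linarith

/-- the geometric sum bound in the form used for the hypothesis of `large_dev` -/
lemma geom_dist {C : ℕ} {x κ : ℝ} (hκ : 0 < κ) {g : ℤ} (h : ∀ n : ℤ, κ ≤ |g * x - n|) :
    ‖∑ c ∈ range C, e (g * c * x)‖ ≤ 1 / κ := by
  have h1 := geom_bound (x := g * x) (κ := κ / 2) (by linarith) (fun n => by
    have := h n
    linarith) C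
  have h2 : ∑ c ∈ range C, e (g * c * x) = ∑ j ∈ range C, e (g * x * j) := by
    refine sum_congr rfl fun j _ => ?_
    congr 1
    ring
  rw [h2]
  refine h1.trans (le_of_eq ?_)
  congr 1
  ring

end Pool.Agent.Run7.h792.GM
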