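import Mathlib

/-! Diophantine types of a point, and the two rare types. -/

set_option autoImplicit false

namespace Pool.Agent.Run7.h792.GM

open Finset Classical

/-- no good rational approximation with denominator at most `2^(2N)` -/
def TI (N I : ℕ) : Set ℝ :=
  {x | ∀ f : ℕ, 1 ≤ f → f ≤ 2 ^ (2 * N) → ∀ a : ℤ, 1 / 2 ^ (5 * I * N) ≤ |f * x - a|}

def E3 (N I : ℕ) : Set ℝ :=
  {x | ∃ f : ℕ, ∃ a : ℤ, 1 ≤ f ∧ f ≤ 2 ^ (2 * N) ∧ 1 / 2 ^ (5 * (I + 1) * N) ≤ |x - a / f| ∧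
    |x - a / f| < 1 / 2 ^ (5 * I * N)}

def E4 (N I : ℕ) : Set ℝ :=
  {x | ∃ f : ℕ, ∃ a : ℤ, 1 ≤ f ∧ f ≤ 2 ^ (2 * N) ∧ IsCoprime a (f : ℤ) ∧ Even f ∧
    |x - a / f| < 1 / 2 ^ (5 * I * N)}

def T2 (N I : ℕ) : Set ℝ :=
  {x | ∃ f : ℕ, ∃ a : ℤ, 1 ≤ f ∧ f ≤ 2 ^ (2 * N) ∧ IsCoprime a (f : ℤ) ∧ Odd f ∧
    |x - a / f| < 1 / 2 ^ (5 * (I + 1) * N)}

lemma types {N I : ℕ} (x : ℝ) : x ∈ TI N I ∨ x ∈ E3 N I ∨ x ∈ E4 N I ∨ x ∈ T2 N I := by
  by_cases h : x ∈ TI N I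
  · exact Or.inl h
  right
  have h' : ∃ f : ℕ, 1 ≤ f ∧ f ≤ 2 ^ (2 * N) ∧ ∃ a : ℤ, |f * x - a| < 1 / 2 ^ (5 * I * N) := by
    by_contra hcon
    push Not at hcon
    exact h hcon
  clear h
  rename _ => h
  obtain ⟨f, hf1, hf2, a, ha⟩ := h
  set q : ℚ := (a : ℚ) / f with hq
  have hf0 : (f : ℚ) ≠ 0 := by
    have : f ≠ 0 := by omega
    exact_mod_cast this
  have hf0' : (0 : ℝ) < f := by exact_mod_cast hf1
  have hden : q.den ∣ f := by
    have h1 : (q.den : ℤ) ∣ f := by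
      have h2 := Rat.den_dvd a (f : ℤ)
      rw [Rat.divInt_eq_div] at h2
      rw [hq]
      exact_mod_cast h2
    exact_mod_cast h1
  have hden1 : 1 ≤ q.den := q.pos
  have hden2 : q.den ≤ 2 ^ (2 * N) := (Nat.le_of_dvd (by omega) hden).trans hf2
  have hqr : ((q.num : ℤ) : ℝ) / q.den = (a : ℝ) / f := by
    have h1 : ((q : ℚ) : ℝ) = (q.num : ℝ) / q.den := by
      exact_mod_cast (Rat.num_div_den q).symm
    rw [← h1, hq]
    push_cast
    rfl
  have hcop : IsCoprime q.num (q.den : ℤ) := by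
    rw [Int.isCoprime_iff_gcd_eq_one]
    exact q.reduced
  have hlt : |x - (q.num : ℝ) / q.den| < 1 / 2 ^ (5 * I * N) := by
    rw [hqr]
    have h1 : |x - (a : ℝ) / f| = |f * x - a| / f := by
      have hh : |x - (a : ℝ) / f| * f = |(x - (a : ℝ) / f) * f| := by
        rw [abs_mul, abs_of_pos hf0']
      rw [eq_div_iff hf0'.ne', hh]
      congr 1
      field_simp
    rw [h1, div_lt_iff₀ hf0']
    refine ha.trans_le ?_
    have h2 : (1 : ℝ) ≤ f := by exact_mod_cast hf1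
    have h3 : (0 : ℝ) < 1 / 2 ^ (5 * I * N) := by positivity
    nlinarith
  by_cases h2 : 1 / 2 ^ (5 * (I + 1) * N) ≤ |x - (q.num : ℝ) / q.den|
  · exact Or.inl ⟨q.den, q.num, hden1, hden2, h2, hlt⟩
  · push Not at h2
    right
    rcases Nat.even_or_odd q.den with h3 | h3
    · exact Or.inl ⟨q.den, q.num, hden1, hden2, hcop, h3, hlt⟩
    · exact Or.inr ⟨q.den, q.num, hden1, hden2, hcop, h3, h2⟩

lemma rat_eq {A A' : ℤ} {f f' : ℕ} (hf : 1 ≤ f) (hf' : 1 ≤ f')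
    (h : |(A : ℝ) / f - (A' : ℝ) / f'| * (f * f') < 1) : A * f' = A' * f := by
  have h0 : (0 : ℝ) < f := by exact_mod_cast hf
  have h0' : (0 : ℝ) < f' := by exact_mod_cast hf'
  have e : |(A : ℝ) / f - (A' : ℝ) / f'| * (f * f') = |((A * f' - A' * f : ℤ) : ℝ)| := by
    have hh : |(A : ℝ) / f - (A' : ℝ) / f'| * (f * f') = |((A : ℝ) / f - (A' : ℝ) / f') * (f * f')| := by
      rw [abs_mul, abs_of_pos (mul_pos h0 h0')]
    rw [hh]
    congr 1
    push_cast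
    field_simp
  rw [e, ← Int.cast_abs] at h
  have h1 : |A * f' - A' * f| < 1 := by exact_mod_cast h
  have := Int.abs_lt_one_iff.1 h1
  linarith

/-- common part of the two separation lemmas -/
lemma sep_aux {N I i : ℕ} (hN : 1 ≤ N) (hi1 : 1 ≤ i) (hi : i < I) {x : ℝ} {f f' : ℕ} {a a' : ℤ}
    (hf1 : 1 ≤ f) (hf2 : f ≤ 2 ^ (2 * N)) (hf1' : 1 ≤ f') (hf2' : f' ≤ 2 ^ (2 * N))
    (h : |x - a / f| < 1 / 2 ^ (5 * I * N))
    (h' : |2 ^ (5 * N * i) * x - a' / f'| < 1 / 2 ^ (5 * I * N)) :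
    2 ^ (5 * N * i) * a * f' = a' * f := by
  have h0 : (0 : ℝ) < f := by exact_mod_cast hf1
  have h0' : (0 : ℝ) < f' := by exact_mod_cast hf1'
  have hX : (0 : ℝ) < 2 ^ (5 * N * i) := by positivity
  have h1 : 2 ^ (5 * N * i) * |x - a / f| < 1 / 2 ^ (5 * N) := by
    have h2 := mul_lt_mul_of_pos_left h hX
    refine h2.trans_le ?_
    rw [mul_one_div, div_le_div_iff₀ (by positivity) (by positivity), one_mul, ← pow_add]
    apply pow_le_pow_right₀ (by norm_num)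
    have : 5 * N * i + 5 * N = 5 * (i + 1) * N := by ring
    rw [this]
    exact Nat.mul_le_mul_right _ (Nat.mul_le_mul_left _ hi)
  have h2 : (1 : ℝ) / 2 ^ (5 * I * N) ≤ 1 / 2 ^ (5 * N) := by
    apply one_div_le_one_div_of_le (by positivity)
    apply pow_le_pow_right₀ (by norm_num)
    have : 5 * 1 * N ≤ 5 * I * N := Nat.mul_le_mul_right _ (Nat.mul_le_mul_left _ (by omega))
    linarith
  have h3 : |(((2 ^ (5 * N * i) * a : ℤ) : ℝ)) / f - (a' : ℝ) / f'| < 1 / 2 ^ (4 * N) := by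
    have e : (((2 ^ (5 * N * i) * a : ℤ) : ℝ)) / f - (a' : ℝ) / f'
        = (2 ^ (5 * N * i) * x - a' / f') - 2 ^ (5 * N * i) * (x - a / f) := by
      push_cast
      ring
    rw [e]
    refine (abs_sub _ _).trans_lt ?_
    rw [abs_mul, abs_of_pos hX]
    have h4 : (1 : ℝ) / 2 ^ (5 * N) + 1 / 2 ^ (5 * N) ≤ 1 / 2 ^ (4 * N) := by
      rw [← add_div, div_le_div_iff₀ (by positivity) (by positivity), one_mul,
        show 5 * N = N + 4 * N by ring, pow_add]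
      have : (2 : ℝ) ^ 1 ≤ 2 ^ N := pow_le_pow_right₀ (by norm_num) hN
      have h5 : (0 : ℝ) < 2 ^ (4 * N) := by positivity
      nlinarith
    linarith
  apply rat_eq hf1 hf1'
  have h4 : (f : ℝ) * f' ≤ 2 ^ (4 * N) := by
    have h5 : (f : ℝ) ≤ 2 ^ (2 * N) := by exact_mod_cast hf2
    have h6 : (f' : ℝ) ≤ 2 ^ (2 * N) := by exact_mod_cast hf2'
    calc (f : ℝ) * f' ≤ 2 ^ (2 * N) * 2 ^ (2 * N) := mul_le_mul h5 h6 h0'.le (by positivity)
      _ = 2 ^ (4 * N) := by rw [← pow_add]; congr 1; ring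
  calc |(((2 ^ (5 * N * i) * a : ℤ) : ℝ)) / f - (a' : ℝ) / f'| * (f * f')
      < 1 / 2 ^ (4 * N) * (f * f') := mul_lt_mul_of_pos_right h3 (mul_pos h0 h0')
    _ ≤ 1 / 2 ^ (4 * N) * 2 ^ (4 * N) := mul_le_mul_of_nonneg_left h4 (by positivity)
    _ = 1 := by field_simp

lemma sep3 {N I i : ℕ} (hN : 1 ≤ N) (hi1 : 1 ≤ i) (hi : i < I) {x : ℝ} (hx : x ∈ E3 N I) :
    2 ^ (5 * N * i) * x ∉ E3 N I := by
  rintro ⟨f', a', hf1', hf2', hlow', hup'⟩
  obtain ⟨f, a, hf1, hf2, hlow, hup⟩ := hx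
  have h := sep_aux hN hi1 hi hf1 hf2 hf1' hf2' hup hup'
  have h0 : (0 : ℝ) < f := by exact_mod_cast hf1
  have h0' : (0 : ℝ) < f' := by exact_mod_cast hf1'
  have hX : (0 : ℝ) < 2 ^ (5 * N * i) := by positivity
  have h1 : (a' : ℝ) / f' = 2 ^ (5 * N * i) * (a / f) := by
    have h2 : (2 : ℝ) ^ (5 * N * i) * a * f' = a' * f := by exact_mod_cast h
    rw [div_eq_iff h0'.ne']
    field_simp
    linarith
  have h3 : |2 ^ (5 * N * i) * x - a' / f'| = 2 ^ (5 * N * i) * |x - a / f| := by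
    rw [h1, ← mul_sub, abs_mul, abs_of_pos hX]
  rw [h3] at hup'
  have h4 : 2 ^ (5 * N * i) * (1 / 2 ^ (5 * (I + 1) * N)) ≤ 2 ^ (5 * N * i) * |x - (a : ℝ) / f| :=
    mul_le_mul_of_nonneg_left hlow hX.le
  have h5 : (1 : ℝ) / 2 ^ (5 * I * N) ≤ 2 ^ (5 * N * i) * (1 / 2 ^ (5 * (I + 1) * N)) := by
    rw [mul_one_div, div_le_div_iff₀ (by positivity) (by positivity), one_mul, ← pow_add]
    apply pow_le_pow_right₀ (by norm_num)
    have : 5 * (I + 1) * N = 5 * N * 1 + 5 * I * N := by ring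
    rw [this]
    have : 5 * N * 1 ≤ 5 * N * i := Nat.mul_le_mul_left _ hi1
    linarith
  linarith

lemma sep4 {N I i : ℕ} (hN : 1 ≤ N) (hi1 : 1 ≤ i) (hi : i < I) {x : ℝ} (hx : x ∈ E4 N I) :
    2 ^ (5 * N * i) * x ∉ E4 N I := by
  rintro ⟨f', a', hf1', hf2', hcop', hev', hup'⟩
  obtain ⟨f, a, hf1, hf2, hcop, hev, hup⟩ := hx
  have h := sep_aux hN hi1 hi hf1 hf2 hf1' hf2' hup hup'
  have hodd : ¬ (2 : ℤ) ∣ a' := by
    intro h2
    have h3 : (2 : ℤ) ∣ f' := by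
      obtain ⟨r, hr⟩ := hev'
      exact ⟨r, by rw [hr]; push_cast; ring⟩
    obtain ⟨u, v, huv⟩ := hcop'
    have : (2 : ℤ) ∣ 1 := by
      rw [← huv]
      exact dvd_add (Dvd.dvd.mul_left h2 u) (Dvd.dvd.mul_left h3 v)
    omega
  have hcop2 : IsCoprime ((2 : ℤ) ^ (5 * N * i)) a' := by
    apply IsCoprime.pow_left
    rw [Int.isCoprime_iff_gcd_eq_one]
    have hp : Nat.Prime 2 := Nat.prime_two
    have := (Int.prime_two).coprime_iff_not_dvd.2 hodd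
    exact Int.isCoprime_iff_gcd_eq_one.1 this
  have hdvd : (2 : ℤ) ^ (5 * N * i) ∣ a' * f := by
    rw [← h]
    exact ⟨a * f', by ring⟩
  have h3 : (2 : ℤ) ^ (5 * N * i) ∣ f := hcop2.dvd_of_dvd_mul_left hdvd
  have h4 : (2 : ℤ) ^ (5 * N * i) ≤ f := Int.le_of_dvd (by exact_mod_cast hf1) h3
  have h5 : (2 : ℕ) ^ (5 * N * i) ≤ f := by exact_mod_cast h4
  have h6 : (2 : ℕ) ^ (2 * N) < 2 ^ (5 * N * i) := by
    apply Nat.pow_lt_pow_right (by norm_num)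
    have : 5 * N * 1 ≤ 5 * N * i := Nat.mul_le_mul_left _ hi1
    omega
  omega

/-- a set with the separation property is rare -/
lemma rare {N I : ℕ} (E : Set ℝ)
    (hE : ∀ x ∈ E, ∀ i, 1 ≤ i → i < I → 2 ^ (5 * N * i) * x ∉ E) (x : ℝ) :
    (∑ i ∈ range I, if 2 ^ (5 * N * i) * x ∈ E then (1 : ℝ) else 0) ≤ 1 := by
  rw [← sum_filter, sum_const, nsmul_eq_mul, mul_one]
  have : ((range I).filter fun i => 2 ^ (5 * N * i) * x ∈ E).card ≤ 1 := by
    rw [card_le_one]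
    have key : ∀ i j, i < j → j < I → 2 ^ (5 * N * i) * x ∈ E → 2 ^ (5 * N * j) * x ∉ E := by
      intro i j hij hj hi
      have h1 := hE _ hi (j - i) (by omega) (by omega)
      rw [← mul_assoc, ← pow_add] at h1
      have e : 5 * N * (j - i) + 5 * N * i = 5 * N * j := by
        rw [← mul_add]; congr 1; omega
      rw [e] at h1
      exact h1
    intro i hi j hj
    rw [mem_filter, mem_range] at hi hj
    rcases lt_trichotomy i j with h | h | h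
    · exact absurd hj.2 (key i j h hj.1 hi.2)
    · exact h
    · exact absurd hi.2 (key j i h hi.1 hj.2)
  exact_mod_cast this

lemma per_shift {M : Type*} [AddCommGroup M] (F : ℝ → M) (hF : ∀ x, ∀ p : ℤ, F (x + p) = F x)
    {n : ℕ} {x : ℝ} (hx : ∃ p : ℤ, 2 ^ n * x = x + p) (t : ℕ) :
    ∑ j ∈ range n, F (2 ^ (j + t) * x) = ∑ j ∈ range n, F (2 ^ j * x) := by
  induction t with
  | zero => simp
  | succ t ih =>
    rw [← ih]
    have h1 : ∑ j ∈ range n, F (2 ^ (j + (t + 1)) * x) = ∑ j ∈ range n, F (2 ^ ((j + 1) + t) * x) := by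
      refine sum_congr rfl fun j _ => ?_
      congr 2
      ring
    rw [h1]
    have h2 := sum_range_succ (fun j => F (2 ^ (j + t) * x)) n
    have h3 := sum_range_succ' (fun j => F (2 ^ (j + t) * x)) n
    rw [h2] at h3
    have h4 : F (2 ^ (n + t) * x) = F (2 ^ (0 + t) * x) := by
      obtain ⟨p, hp⟩ := hx
      have : (2 : ℝ) ^ (n + t) * x = 2 ^ (0 + t) * x + ((2 ^ t * p : ℤ) : ℝ) := by
        rw [zero_add, add_comm n t, pow_add, mul_assoc, hp]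
        push_cast
        ring
      rw [this, hF]
    rw [h4] at h3
    exact (add_right_cancel h3).symm

/-- a set with the separation property is rare along periodic orbits -/
lemma rare_per {N I : ℕ} (E : Set ℝ) (hEp : ∀ x : ℝ, ∀ p : ℤ, x + p ∈ E ↔ x ∈ E)
    (hE : ∀ x ∈ E, ∀ i, 1 ≤ i → i < I → 2 ^ (5 * N * i) * x ∉ E) {n : ℕ} {x : ℝ}
    (hx : ∃ p : ℤ, 2 ^ n * x = x + p) :
    I * (∑ j ∈ range n, if 2 ^ j * x ∈ E then (1 : ℝ) else 0) ≤ n := by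
  have h1 : ∀ i, ∑ j ∈ range n, (if 2 ^ (j + 5 * N * i) * x ∈ E then (1 : ℝ) else 0)
      = ∑ j ∈ range n, if 2 ^ j * x ∈ E then (1 : ℝ) else 0 := fun i =>
    per_shift (fun y => if y ∈ E then (1 : ℝ) else 0) (fun y p => by simp only [hEp]) hx _
  calc I * (∑ j ∈ range n, if 2 ^ j * x ∈ E then (1 : ℝ) else 0)
      = ∑ i ∈ range I, ∑ j ∈ range n, (if 2 ^ (j + 5 * N * i) * x ∈ E then (1 : ℝ) else 0) := by
        simp_rw [h1]
        rw [sum_const, card_range, nsmul_eq_mul]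
    _ = ∑ j ∈ range n, ∑ i ∈ range I, (if 2 ^ (j + 5 * N * i) * x ∈ E then (1 : ℝ) else 0) :=
        sum_comm
    _ ≤ ∑ j ∈ range n, (1 : ℝ) := by
        refine sum_le_sum fun j _ => ?_
        have := rare E hE (2 ^ j * x)
        refine le_trans (le_of_eq ?_) this
        refine sum_congr rfl fun i _ => ?_
        rw [show (2 : ℝ) ^ (j + 5 * N * i) * x = 2 ^ (5 * N * i) * (2 ^ j * x) by
          rw [pow_add]; ring]
    _ = n := by simp

lemma E3_per {N I : ℕ} (x : ℝ) (p : ℤ) : x + p ∈ E3 N I ↔ x ∈ E3 N I := by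
  have key : ∀ (x : ℝ) (p : ℤ), x ∈ E3 N I → x + p ∈ E3 N I := by
    rintro x p ⟨f, a, h1, h2, h3, h4⟩
    have h0 : (0 : ℝ) < f := by exact_mod_cast h1
    have e : x + p - ((a + p * f : ℤ) : ℝ) / f = x - a / f := by
      push_cast; field_simp; ring
    exact ⟨f, a + p * f, h1, h2, by rw [e]; exact h3, by rw [e]; exact h4⟩
  constructor
  · intro h
    have := key _ (-p) h
    simpa using this
  · exact key x p

lemma E4_per {N I : ℕ} (x : ℝ) (p : ℤ) : x + p ∈ E4 N I ↔ x ∈ E4 N I := by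
  have key : ∀ (x : ℝ) (p : ℤ), x ∈ E4 N I → x + p ∈ E4 N I := by
    rintro x p ⟨f, a, h1, h2, h3, h4, h5⟩
    have h0 : (0 : ℝ) < f := by exact_mod_cast h1
    have e : x + p - ((a + p * f : ℤ) : ℝ) / f = x - a / f := by
      push_cast; field_simp; ring
    exact ⟨f, a + p * f, h1, h2, (IsCoprime.add_mul_right_left h3 p), h4, by rw [e]; exact h5⟩
  constructor
  · intro h
    have := key _ (-p) h
    simpa using this
  · exact key x p

end Pool.Agent.Run7.h792.GM
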