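import Mathlib
import Pool.Agent.Run7.h792.GM.Riesz
import Pool.Agent.Run7.h792.GM.Net
import Pool.Agent.Run7.h792.GM.Types

/-! The exceptional sets of multipliers. -/

set_option autoImplicit false

namespace Pool.Agent.Run7.h792.GM

open Finset Classical
open Pool.Agent.H520R3 (e norm_e e_add e_zero e_neg e_int e_add_int e_sub_int norm_e_sub_e_le
  four_mul_le geom_bound e_mul_nat)

lemma TI_dev {N I k : ℕ} (hk : 1 ≤ k) (hkN : k ≤ 2 ^ N) {x : ℝ} (hx : x ∈ TI N I) {ε : ℝ}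
    (hε : 0 ≤ ε) (hε1 : ε ≤ 1) {C : ℕ} (hC : C = 2 ^ ((5 * I + 2) * N)) :
    (((range C).filter fun c : ℕ => ε * N < ‖∑ j ∈ range N, e (k * 2 ^ j * c * x)‖).card : ℝ)
      ≤ 8 * Real.exp (-(ε ^ 2 * N / 32)) * C := by
  apply large_dev hk hε hε1
  intro g hg hgb
  have hf1 : 1 ≤ g.natAbs := Int.natAbs_pos.2 hg
  have hf2 : g.natAbs ≤ 2 ^ (2 * N) := by
    have h1 : (g.natAbs : ℤ) ≤ k * 2 ^ N := by rw [Int.natCast_natAbs]; exact hgb
    have h2 : g.natAbs ≤ k * 2 ^ N := by exact_mod_cast h1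
    refine h2.trans ?_
    rw [two_mul, pow_add]
    exact Nat.mul_le_mul_right _ hkN
  have h1 : ∀ n : ℤ, 1 / 2 ^ (5 * I * N) ≤ |(g : ℝ) * x - n| := by
    intro n
    rcases le_total 0 g with h | h
    · have := hx g.natAbs hf1 hf2 n
      have e1 : ((g.natAbs : ℕ) : ℝ) = (g : ℝ) := by
        rw [Nat.cast_natAbs, abs_of_nonneg h]
      rwa [e1] at this
    · have := hx g.natAbs hf1 hf2 (-n)
      have e1 : ((g.natAbs : ℕ) : ℝ) = -(g : ℝ) := by
        rw [Nat.cast_natAbs, abs_of_nonpos h]; push_cast; ring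
      rw [e1] at this
      rw [← abs_neg]
      refine this.trans (le_of_eq ?_)
      congr 1
      push_cast
      ring
  refine (geom_dist (by positivity) h1).trans ?_
  rw [hC, one_div_one_div]
  push_cast
  rw [le_div_iff₀ (by positivity), ← pow_add]
  apply pow_le_pow_right₀ (by norm_num)
  nlinarith

lemma frac_dev {k n f C : ℕ} {a : ℤ} (hk : 1 ≤ k) (hcop : IsCoprime a (f : ℤ)) (hf : k * 2 ^ n < f)
    (hC : f * 2 ^ n ≤ C) {ε : ℝ} (hε : 0 ≤ ε) (hε1 : ε ≤ 1) :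
    (((range C).filter fun c : ℕ => ε * n < ‖∑ j ∈ range n, e (k * 2 ^ j * c * ((a : ℝ) / f))‖).card : ℝ)
      ≤ 8 * Real.exp (-(ε ^ 2 * n / 32)) * C := by
  apply large_dev hk hε hε1
  intro g hg hgb
  have hf0 : (0 : ℝ) < f := by
    have : 0 < f := by omega
    exact_mod_cast this
  have h1 : ∀ p : ℤ, 1 / (f : ℝ) ≤ |(g : ℝ) * ((a : ℝ) / f) - p| := by
    intro p
    have h2 : g * a - p * f ≠ 0 := by
      intro h
      have h3 : (f : ℤ) ∣ g * a := ⟨p, by linarith⟩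
      have h4 : (f : ℤ) ∣ g := hcop.symm.dvd_of_dvd_mul_right h3
      have h5 := Int.le_of_dvd (abs_pos.2 hg) ((dvd_abs _ _).2 h4)
      have h6 : (k : ℤ) * 2 ^ n < f := by exact_mod_cast hf
      linarith
    have h3 : (1 : ℝ) ≤ |((g * a - p * f : ℤ) : ℝ)| := by
      rw [← Int.cast_abs]
      have : 1 ≤ |g * a - p * f| := Int.one_le_abs h2
      exact_mod_cast this
    have h4 : (g : ℝ) * ((a : ℝ) / f) - p = ((g * a - p * f : ℤ) : ℝ) / f := by
      push_cast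
      field_simp
    rw [h4, abs_div, abs_of_pos hf0]
    exact div_le_div_of_nonneg_right h3 hf0.le
  refine (geom_dist (by positivity) h1).trans ?_
  rw [one_div_one_div, le_div_iff₀ (by positivity)]
  exact_mod_cast hC

theorem bad1 {m : ℕ} {z : ℝ} {ℓ H ρ K N I C : ℕ} (hK : K ≤ 2 ^ N) (hℓ : ℓ * H = (5 * I + 4) * N)
    (hC : C = 2 ^ ((5 * I + 2) * N)) {ε : ℝ} (hε : 0 ≤ ε) (hε1 : ε ≤ 1) :
    ∃ Bad : Finset ℕ, (Bad.card : ℝ) ≤ K * ((m + 1) ^ H * (2 ^ (ℓ + 2)) ^ ρ) *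
        (8 * Real.exp (-(ε ^ 2 * N / 32)) * C) ∧
      ∀ c < C, c ∉ Bad → ∀ x ∈ TI N I, nb m z ℓ H x ≤ ρ → ∀ k, 1 ≤ k → k ≤ K →
        ‖∑ j ∈ range N, e (k * 2 ^ j * c * x)‖ ≤ ε * N + N * (2 * Real.pi * K / 2 ^ N) := by
  obtain ⟨S, hS1, hS2, hS3⟩ := net (m := m) (z := z) (ℓ := ℓ) (H := H) (ρ := ρ)
    {x | x ∈ TI N I ∧ nb m z ℓ H x ≤ ρ} (fun x hx => hx.2)
  set B : ℕ → ℝ → Finset ℕ := fun k x =>
    (range C).filter fun c : ℕ => ε * N < ‖∑ j ∈ range N, e (k * 2 ^ j * c * x)‖ with hB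
  refine ⟨(Icc 1 K).biUnion fun k => S.biUnion fun x => B k x, ?_, ?_⟩
  · have h1 : (((Icc 1 K).biUnion fun k => S.biUnion fun x => B k x).card : ℝ)
        ≤ ∑ k ∈ Icc 1 K, ∑ x ∈ S, ((B k x).card : ℝ) := by
      have h2 := card_biUnion_le (s := Icc 1 K) (t := fun k => S.biUnion fun x => B k x)
      refine (Nat.cast_le (α := ℝ).2 h2).trans ?_
      push_cast
      refine sum_le_sum fun k _ => ?_
      have h3 := card_biUnion_le (s := S) (t := fun x => B k x)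
      refine (Nat.cast_le (α := ℝ).2 h3).trans ?_
      push_cast
      rfl
    refine h1.trans ?_
    set V : ℝ := 8 * Real.exp (-(ε ^ 2 * N / 32)) * C with hV
    have hV0 : 0 ≤ V := by positivity
    have h4 : ∑ k ∈ Icc 1 K, ∑ x ∈ S, ((B k x).card : ℝ) ≤ ∑ k ∈ Icc 1 K, ∑ x ∈ S, V := by
      refine sum_le_sum fun k hk => sum_le_sum fun x hx => ?_
      rw [mem_Icc] at hk
      exact TI_dev hk.1 (hk.2.trans hK) (hS1 x hx).1 hε hε1 hC
    refine h4.trans ?_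
    simp only [sum_const, nsmul_eq_mul, Nat.card_Icc, Nat.add_sub_cancel]
    rw [mul_assoc (K : ℝ)]
    refine mul_le_mul_of_nonneg_left ?_ (by positivity)
    exact mul_le_mul_of_nonneg_right hS2 hV0
  · intro c hc hcB x hx hnb k hk1 hk2
    obtain ⟨x', hx', p, hp⟩ := hS3 x ⟨hx, hnb⟩
    have h1 : ‖∑ j ∈ range N, e (k * 2 ^ j * c * x')‖ ≤ ε * N := by
      by_contra hcon
      push Not at hcon
      apply hcB
      rw [mem_biUnion]
      refine ⟨k, mem_Icc.2 ⟨hk1, hk2⟩, ?_⟩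
      rw [mem_biUnion]
      exact ⟨x', hx', mem_filter.2 ⟨mem_range.2 hc, hcon⟩⟩
    have h2 : ‖∑ j ∈ range N, e (k * 2 ^ j * c * x) - ∑ j ∈ range N, e (k * 2 ^ j * c * x')‖
        ≤ N * (2 * Real.pi * K / 2 ^ N) := by
      rw [← sum_sub_distrib]
      refine (norm_sum_le _ _).trans ?_
      have h3 : ∀ j ∈ range N, ‖e (k * 2 ^ j * c * x) - e (k * 2 ^ j * c * x')‖
          ≤ 2 * Real.pi * K / 2 ^ N := by
        intro j hj
        rw [mem_range] at hj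
        have e1 : e (k * 2 ^ j * c * x') = e (k * 2 ^ j * c * (x' + p)) := by
          rw [show (k : ℝ) * 2 ^ j * c * (x' + p) = k * 2 ^ j * c * x'
            + ((k * 2 ^ j * c * p : ℤ) : ℝ) by push_cast; ring, e_add_int]
        rw [e1]
        refine (norm_e_sub_e_le _ _).trans ?_
        rw [← mul_sub, show x - (x' + p) = x - x' - p by ring, abs_mul]
        have hkk : (k : ℝ) ≤ K := by exact_mod_cast hk2
        have hjj : (2 : ℝ) ^ j ≤ 2 ^ N := pow_le_pow_right₀ (by norm_num) hj.le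
        have hcc : (c : ℝ) ≤ 2 ^ ((5 * I + 2) * N) := by
          have : c ≤ 2 ^ ((5 * I + 2) * N) := by rw [← hC]; exact hc.le
          exact_mod_cast this
        have hnn : (0 : ℝ) ≤ (k : ℝ) * 2 ^ j * c := by positivity
        rw [abs_of_nonneg hnn]
        have h4 : (k : ℝ) * 2 ^ j * c ≤ K * 2 ^ N * 2 ^ ((5 * I + 2) * N) := by gcongr
        have h5 : (k : ℝ) * 2 ^ j * c * |x - x' - p| ≤ K / 2 ^ N := by
          calc (k : ℝ) * 2 ^ j * c * |x - x' - p|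
              ≤ (K * 2 ^ N * 2 ^ ((5 * I + 2) * N)) * (1 / 2 ^ (ℓ * H + 1)) :=
                mul_le_mul h4 hp (abs_nonneg _) (by positivity)
            _ ≤ K / 2 ^ N := by
                rw [hℓ, mul_one_div, div_le_div_iff₀ (by positivity) (by positivity)]
                have e2 : (K : ℝ) * 2 ^ N * 2 ^ ((5 * I + 2) * N) * 2 ^ N
                    = K * 2 ^ ((5 * I + 4) * N) := by
                  rw [mul_assoc, mul_assoc, ← pow_add, ← pow_add]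
                  congr 2
                  ring
                rw [e2, pow_succ]
                have : (0 : ℝ) ≤ K * 2 ^ ((5 * I + 4) * N) := by positivity
                linarith
        have := mul_le_mul_of_nonneg_left h5 (by positivity : 0 ≤ 2 * Real.pi)
        refine this.trans (le_of_eq ?_)
        ring
      refine (sum_le_sum h3).trans ?_
      rw [sum_const, card_range, nsmul_eq_mul]
    have h6 := norm_le_norm_add_norm_sub' (∑ j ∈ range N, e (k * 2 ^ j * c * x))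
      (∑ j ∈ range N, e (k * 2 ^ j * c * x'))
    linarith

theorem bad2 {m : ℕ} {z : ℝ} {ℓ H ρ K n W C : ℕ} (hK : K * 2 ^ n < 2 ^ (W * n))
    (hℓ : 2 * W * (n + 1) ≤ ℓ * H)
    (hC : 2 ^ (W * (n + 1)) * 2 ^ n ≤ C) {ε : ℝ} (hε : 0 ≤ ε) (hε1 : ε ≤ 1) :
    ∃ Bad : Finset ℕ, (Bad.card : ℝ) ≤ K * ((m + 1) ^ H * (2 ^ (ℓ + 2)) ^ ρ) *
        (8 * Real.exp (-(ε ^ 2 * n / 32)) * C) ∧
      ∀ c < C, c ∉ Bad → ∀ (f : ℕ) (a : ℤ), IsCoprime a (f : ℤ) → 2 ^ (W * n) ≤ f →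
        f < 2 ^ (W * (n + 1)) →
        (∃ x : ℝ, |x - a / f| < 1 / 2 ^ (2 * W * (n + 1) + 2) ∧ nb m z ℓ H x ≤ ρ) →
        ∀ k, 1 ≤ k → k ≤ K → ‖∑ j ∈ range n, e (k * 2 ^ j * c * ((a : ℝ) / f))‖ ≤ ε * n := by
  set 𝒳 : Set ℝ := {x | (∃ fa : ℕ × ℤ, IsCoprime fa.2 (fa.1 : ℤ) ∧ 2 ^ (W * n) ≤ fa.1 ∧
    fa.1 < 2 ^ (W * (n + 1)) ∧ |x - fa.2 / fa.1| < 1 / 2 ^ (2 * W * (n + 1) + 2)) ∧
    nb m z ℓ H x ≤ ρ} with h𝒳
  obtain ⟨S, hS1, hS2, hS3⟩ := net (m := m) (z := z) (ℓ := ℓ) (H := H) (ρ := ρ)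
    𝒳 (fun x hx => hx.2)
  set F : ℝ → ℕ × ℤ := fun x => if h : (∃ fa : ℕ × ℤ, IsCoprime fa.2 (fa.1 : ℤ) ∧
    2 ^ (W * n) ≤ fa.1 ∧
    fa.1 < 2 ^ (W * (n + 1)) ∧ |x - fa.2 / fa.1| < 1 / 2 ^ (2 * W * (n + 1) + 2)) then h.choose
    else 0 with hF
  have hF1 : ∀ x ∈ S, IsCoprime (F x).2 ((F x).1 : ℤ) ∧ 2 ^ (W * n) ≤ (F x).1 ∧
    (F x).1 < 2 ^ (W * (n + 1)) ∧ |x - (F x).2 / (F x).1| < 1 / 2 ^ (2 * W * (n + 1) + 2) := by
    intro x hx
    have h1 := (hS1 x hx).1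
    simp only [hF]
    rw [dif_pos h1]
    exact h1.choose_spec
  set B : ℕ → ℝ → Finset ℕ := fun k x =>
    (range C).filter fun c : ℕ =>
      ε * n < ‖∑ j ∈ range n, e (k * 2 ^ j * c * (((F x).2 : ℝ) / (F x).1))‖ with hB
  refine ⟨(Icc 1 K).biUnion fun k => S.biUnion fun x => B k x, ?_, ?_⟩
  · have h1 : (((Icc 1 K).biUnion fun k => S.biUnion fun x => B k x).card : ℝ)
        ≤ ∑ k ∈ Icc 1 K, ∑ x ∈ S, ((B k x).card : ℝ) := by
      have h2 := card_biUnion_le (s := Icc 1 K) (t := fun k => S.biUnion fun x => B k x)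
      refine (Nat.cast_le (α := ℝ).2 h2).trans ?_
      push_cast
      refine sum_le_sum fun k _ => ?_
      have h3 := card_biUnion_le (s := S) (t := fun x => B k x)
      refine (Nat.cast_le (α := ℝ).2 h3).trans ?_
      push_cast
      rfl
    refine h1.trans ?_
    set V : ℝ := 8 * Real.exp (-(ε ^ 2 * n / 32)) * C with hV
    have hV0 : 0 ≤ V := by positivity
    have h4 : ∑ k ∈ Icc 1 K, ∑ x ∈ S, ((B k x).card : ℝ) ≤ ∑ k ∈ Icc 1 K, ∑ x ∈ S, V := by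
      refine sum_le_sum fun k hk => sum_le_sum fun x hx => ?_
      rw [mem_Icc] at hk
      obtain ⟨g1, g2, g3, g4⟩ := hF1 x hx
      refine frac_dev hk.1 g1 ?_ ?_ hε hε1
      · calc k * 2 ^ n ≤ K * 2 ^ n := Nat.mul_le_mul_right _ hk.2
          _ < 2 ^ (W * n) := hK
          _ ≤ _ := g2
      · exact (Nat.mul_le_mul_right _ g3.le).trans hC
    refine h4.trans ?_
    simp only [sum_const, nsmul_eq_mul, Nat.card_Icc, Nat.add_sub_cancel]
    rw [mul_assoc (K : ℝ)]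
    refine mul_le_mul_of_nonneg_left ?_ (by positivity)
    exact mul_le_mul_of_nonneg_right hS2 hV0
  · rintro c hc hcB f a hcop hf1 hf2 ⟨x, hx1, hx2⟩ k hk1 hk2
    obtain ⟨x', hx', p, hp⟩ := hS3 x ⟨⟨(f, a), hcop, hf1, hf2, hx1⟩, hx2⟩
    obtain ⟨g1, g2, g3, g4⟩ := hF1 x' hx'
    set f' := (F x').1 with hf'
    set a' := (F x').2 with ha'
    have h1 : ‖∑ j ∈ range n, e (k * 2 ^ j * c * ((a' : ℝ) / f'))‖ ≤ ε * n := by
      by_contra hcon
      push Not at hcon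
      apply hcB
      rw [mem_biUnion]
      refine ⟨k, mem_Icc.2 ⟨hk1, hk2⟩, ?_⟩
      rw [mem_biUnion]
      exact ⟨x', hx', mem_filter.2 ⟨mem_range.2 hc, hcon⟩⟩
    have hp0 : 1 ≤ 2 ^ (W * n) := Nat.one_le_two_pow
    have hf0 : 1 ≤ f := hp0.trans hf1
    have hf0' : 1 ≤ f' := hp0.trans g2
    have hfr : (0 : ℝ) < f := by exact_mod_cast hf0
    have hfr' : (0 : ℝ) < f' := by exact_mod_cast hf0'
    have h2 : |(a : ℝ) / f - ((a' + p * f' : ℤ) : ℝ) / f'| ≤ 1 / 2 ^ (2 * W * (n + 1)) := by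
      have e1 : (a : ℝ) / f - ((a' + p * f' : ℤ) : ℝ) / f'
          = (x - x' - p) - (x - a / f) + (x' - a' / f') := by
        push_cast
        field_simp
        ring
      rw [e1]
      have t1 := abs_add_le ((x - x' - p) - (x - a / f)) (x' - a' / f')
      have t2 := abs_sub (x - x' - p) (x - a / f)
      have t3 : (1 : ℝ) / 2 ^ (ℓ * H + 1) ≤ 1 / 2 ^ (2 * W * (n + 1) + 1) := by
        apply one_div_le_one_div_of_le (by positivity)
        apply pow_le_pow_right₀ (by norm_num)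
        omega
      have t4 : (1 : ℝ) / 2 ^ (2 * W * (n + 1) + 1) = 1 / 2 ^ (2 * W * (n + 1)) / 2 := by
        rw [pow_succ]; field_simp
      have t5 : (1 : ℝ) / 2 ^ (2 * W * (n + 1) + 2) = 1 / 2 ^ (2 * W * (n + 1)) / 4 := by
        rw [pow_add]; field_simp; norm_num
      rw [t5] at g4 hx1
      rw [t4] at t3
      linarith
    have h3 : (f : ℝ) * f' < 2 ^ (2 * W * (n + 1)) := by
      have a1 : (f : ℝ) < 2 ^ (W * (n + 1)) := by exact_mod_cast hf2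
      have a2 : (f' : ℝ) < 2 ^ (W * (n + 1)) := by exact_mod_cast g3
      calc (f : ℝ) * f' < 2 ^ (W * (n + 1)) * 2 ^ (W * (n + 1)) :=
            mul_lt_mul'' a1 a2 hfr.le hfr'.le
        _ = _ := by rw [← pow_add]; congr 1; ring
    have h4 := rat_eq (A := a) (A' := a' + p * f') hf0 hf0' (by
      calc |(a : ℝ) / f - ((a' + p * f' : ℤ) : ℝ) / f'| * (f * f')
          ≤ 1 / 2 ^ (2 * W * (n + 1)) * (f * f') :=
            mul_le_mul_of_nonneg_right h2 (mul_pos hfr hfr').le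
        _ < 1 / 2 ^ (2 * W * (n + 1)) * 2 ^ (2 * W * (n + 1)) :=
            mul_lt_mul_of_pos_left h3 (by positivity)
        _ = 1 := by field_simp)
    have h5 : (a : ℝ) / f = (a' : ℝ) / f' + p := by
      have h6 : (a : ℝ) * f' = (a' + p * f') * f := by exact_mod_cast h4
      rw [div_eq_iff hfr.ne']
      field_simp
      linarith
    have h7 : ∑ j ∈ range n, e (k * 2 ^ j * c * ((a : ℝ) / f))
        = ∑ j ∈ range n, e (k * 2 ^ j * c * ((a' : ℝ) / f')) := by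
      refine sum_congr rfl fun j _ => ?_
      rw [h5, show (k : ℝ) * 2 ^ j * c * ((a' : ℝ) / f' + p) = k * 2 ^ j * c * ((a' : ℝ) / f')
        + ((k * 2 ^ j * c * p : ℤ) : ℝ) by push_cast; ring, e_add_int]
    rw [h7]
    exact h1

theorem bad0 {m D K n C : ℕ} {a₀ : ℤ} (hcop : IsCoprime a₀ (D : ℤ)) (hD : Odd D)
    (hK : K * 2 ^ n < D) (hC : D * 2 ^ n ≤ C) {ε : ℝ} (hε : 0 ≤ ε) (hε1 : ε ≤ 1) :
    ∃ Bad : Finset ℕ, (Bad.card : ℝ) ≤ K * m * (8 * Real.exp (-(ε ^ 2 * n / 32)) * C) ∧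
      ∀ c < C, c ∉ Bad → ∀ t < m, ∀ k, 1 ≤ k → k ≤ K →
        ‖∑ j ∈ range n, e (k * 2 ^ j * c * (2 ^ t * ((a₀ : ℝ) / D)))‖ ≤ ε * n := by
  set B : ℕ → ℕ → Finset ℕ := fun k t =>
    (range C).filter fun c : ℕ =>
      ε * n < ‖∑ j ∈ range n, e (k * 2 ^ j * c * (((2 ^ t * a₀ : ℤ) : ℝ) / D))‖ with hB
  have h2D : IsCoprime (2 : ℤ) (D : ℤ) := by
    have := (Nat.coprime_two_left (n := D)).2 hD
    exact Nat.isCoprime_iff_coprime.2 this
  refine ⟨(Icc 1 K).biUnion fun k => (range m).biUnion fun t => B k t, ?_, ?_⟩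
  · have h1 : (((Icc 1 K).biUnion fun k => (range m).biUnion fun t => B k t).card : ℝ)
        ≤ ∑ k ∈ Icc 1 K, ∑ t ∈ range m, ((B k t).card : ℝ) := by
      have h2 := card_biUnion_le (s := Icc 1 K) (t := fun k => (range m).biUnion fun t => B k t)
      refine (Nat.cast_le (α := ℝ).2 h2).trans ?_
      push_cast
      refine sum_le_sum fun k _ => ?_
      have h3 := card_biUnion_le (s := range m) (t := fun t => B k t)
      refine (Nat.cast_le (α := ℝ).2 h3).trans ?_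
      push_cast
      rfl
    refine h1.trans ?_
    set V : ℝ := 8 * Real.exp (-(ε ^ 2 * n / 32)) * C with hV
    have hV0 : 0 ≤ V := by positivity
    have h4 : ∑ k ∈ Icc 1 K, ∑ t ∈ range m, ((B k t).card : ℝ)
        ≤ ∑ k ∈ Icc 1 K, ∑ t ∈ range m, V := by
      refine sum_le_sum fun k hk => sum_le_sum fun t _ => ?_
      rw [mem_Icc] at hk
      refine frac_dev hk.1 (IsCoprime.mul_left h2D.pow_left hcop) ?_ hC hε hε1
      exact (Nat.mul_le_mul_right _ hk.2).trans_lt hK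
    refine h4.trans ?_
    simp only [sum_const, nsmul_eq_mul, Nat.card_Icc, Nat.add_sub_cancel, card_range]
    rw [mul_assoc (K : ℝ)]
  · intro c hc hcB t ht k hk1 hk2
    by_contra hcon
    push Not at hcon
    apply hcB
    rw [mem_biUnion]
    refine ⟨k, mem_Icc.2 ⟨hk1, hk2⟩, ?_⟩
    rw [mem_biUnion]
    refine ⟨t, mem_range.2 ht, mem_filter.2 ⟨mem_range.2 hc, ?_⟩⟩
    have e1 : (((2 ^ t * a₀ : ℤ) : ℝ) / D) = 2 ^ t * ((a₀ : ℝ) / D) := by
      push_cast; ring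
    rw [e1]
    exact hcon

end Pool.Agent.Run7.h792.GM
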