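import Mathlib
import Pool.Agent.Run7.h792.GM.Bad

/-! The pointwise inequality. -/

set_option autoImplicit false

namespace Pool.Agent.Run7.h792.GM

open Finset Classical
open Pool.Agent.H520R3 (e norm_e e_add e_zero e_neg e_int e_add_int e_sub_int norm_e_sub_e_le
  four_mul_le geom_bound e_mul_nat)

/-- indicator of the complement of `G` -/
noncomputable def gc (m : ℕ) (z : ℝ) (ℓ : ℕ) (y : ℝ) : ℝ := if y ∈ G m z ℓ then 0 else 1

lemma gc_nonneg (m : ℕ) (z : ℝ) (ℓ : ℕ) (y : ℝ) : 0 ≤ gc m z ℓ y := by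
  unfold gc; split_ifs <;> norm_num

lemma nb_eq (m : ℕ) (z : ℝ) (ℓ H : ℕ) (x : ℝ) :
    (nb m z ℓ H x : ℝ) = ∑ r ∈ range H, gc m z ℓ (2 ^ (r * ℓ) * x) := by
  unfold nb gc
  rw [card_filter]
  push_cast
  refine sum_congr rfl fun r _ => ?_
  by_cases h : 2 ^ (r * ℓ) * x ∈ G m z ℓ <;> simp [h]

lemma shift_bound {a : ℕ → ℂ} (ha : ∀ t, ‖a t‖ ≤ 1) (N u : ℕ) :
    ‖∑ t ∈ range N, a t - ∑ t ∈ range N, a (t + u)‖ ≤ 2 * u := by
  induction u with
  | zero => simp
  | succ u ih =>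
    have h1 : ∑ t ∈ range N, a (t + (u + 1)) = ∑ t ∈ range N, a (t + u) + a (N + u) - a u := by
      have h2 := sum_range_succ (fun t => a (t + u)) N
      have h3 := sum_range_succ' (fun t => a (t + u)) N
      have h4 : ∑ t ∈ range N, a (t + (u + 1)) = ∑ t ∈ range N, a (t + 1 + u) :=
        sum_congr rfl fun t _ => by congr 1; ring
      rw [h4]
      rw [h2] at h3
      rw [zero_add] at h3
      linear_combination -h3
    rw [h1]
    have h5 : ∑ t ∈ range N, a t - (∑ t ∈ range N, a (t + u) + a (N + u) - a u)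
        = (∑ t ∈ range N, a t - ∑ t ∈ range N, a (t + u)) - a (N + u) + a u := by ring
    rw [h5]
    have h6 := norm_add_le ((∑ t ∈ range N, a t - ∑ t ∈ range N, a (t + u)) - a (N + u)) (a u)
    have h7 := norm_sub_le (∑ t ∈ range N, a t - ∑ t ∈ range N, a (t + u)) (a (N + u))
    have h8 := ha u
    have h9 := ha (N + u)
    push_cast
    linarith

lemma window {a : ℕ → ℂ} (ha : ∀ t, ‖a t‖ ≤ 1) {n N : ℕ} (hn : 1 ≤ n) {irr : ℕ → ℝ} {ε : ℝ}
    (h : ∀ t < N, ‖∑ u ∈ range n, a (t + u)‖ ≤ n * (ε + irr t)) :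
    ‖∑ t ∈ range N, a t‖ ≤ ε * N + ∑ t ∈ range N, irr t + n := by
  have hn0 : (0 : ℝ) < n := by exact_mod_cast hn
  have h1 : (n : ℂ) * ∑ t ∈ range N, a t = ∑ t ∈ range N, ∑ u ∈ range n, a (t + u)
      + ∑ u ∈ range n, (∑ t ∈ range N, a t - ∑ t ∈ range N, a (t + u)) := by
    rw [sum_sub_distrib, sum_const, card_range, nsmul_eq_mul, sum_comm]
    ring
  have h2 : ‖∑ t ∈ range N, ∑ u ∈ range n, a (t + u)‖ ≤ n * (ε * N + ∑ t ∈ range N, irr t) := by
    refine (norm_sum_le _ _).trans ?_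
    refine (sum_le_sum fun t ht => h t (mem_range.1 ht)).trans (le_of_eq ?_)
    rw [← mul_sum, sum_add_distrib, sum_const, card_range, nsmul_eq_mul]
    ring
  have h3 : ‖∑ u ∈ range n, (∑ t ∈ range N, a t - ∑ t ∈ range N, a (t + u))‖ ≤ n * n := by
    refine (norm_sum_le _ _).trans ?_
    refine (sum_le_sum fun u _ => shift_bound ha N u).trans ?_
    rw [← mul_sum]
    have h4 : ∑ u ∈ range n, (u : ℝ) * 2 = n * (n - 1) := by
      rw [← sum_mul]
      have := Finset.sum_range_id_mul_two n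
      have h5 : ((∑ i ∈ range n, i : ℕ) : ℝ) * 2 = n * ((n - 1 : ℕ) : ℝ) := by exact_mod_cast this
      rw [Nat.cast_sub hn] at h5
      push_cast at h5
      exact h5
    rw [mul_comm, sum_mul, h4]
    nlinarith
  have h4 : (n : ℝ) * ‖∑ t ∈ range N, a t‖ ≤ n * (ε * N + ∑ t ∈ range N, irr t + n) := by
    have : (n : ℝ) * ‖∑ t ∈ range N, a t‖ = ‖(n : ℂ) * ∑ t ∈ range N, a t‖ := by
      rw [norm_mul, Complex.norm_natCast]
    rw [this, h1]
    refine (norm_add_le _ _).trans ?_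
    linarith
  exact le_of_mul_le_mul_left h4 hn0

/-- number of blocks used at level `n` -/
def Hn (ℓ W n : ℕ) : ℕ := 2 * W * (n + 1) / ℓ + 1

lemma Hn_pos (ℓ W n : ℕ) : 0 < Hn ℓ W n := Nat.succ_pos _

lemma Hn_lower {ℓ W n : ℕ} (hℓ : 1 ≤ ℓ) : 2 * W * (n + 1) ≤ ℓ * Hn ℓ W n := by
  unfold Hn
  have h1 := Nat.div_add_mod (2 * W * (n + 1)) ℓ
  have h2 := Nat.mod_lt (2 * W * (n + 1)) (show ℓ > 0 by omega)
  generalize 2 * W * (n + 1) = T at *
  rw [mul_add, mul_one]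
  omega

lemma Hn_upper {ℓ W n : ℕ} : ℓ * Hn ℓ W n ≤ 2 * W * (n + 1) + ℓ := by
  unfold Hn
  have h1 := Nat.div_mul_le_self (2 * W * (n + 1)) ℓ
  generalize 2 * W * (n + 1) = T at *
  rw [mul_add, mul_one, mul_comm ℓ]
  omega

noncomputable def ρn (η : ℝ) (H : ℕ) : ℕ := ⌊η * H⌋₊

/-- the hypotheses on the multiplier `c` coming from the exceptional sets -/
structure Good (m : ℕ) (z : ℝ) (ℓ W N K n₀ n₁ c : ℕ) (ε η : ℝ) : Prop where
  h0 : ∀ t < m, ∀ k, 1 ≤ k → k ≤ K → ‖∑ j ∈ range n₀, e (k * 2 ^ j * c * (2 ^ t * z))‖ ≤ ε * n₀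
  h2 : ∀ n, n₁ ≤ n → W * n ≤ 2 * N → ∀ (f : ℕ) (a : ℤ), IsCoprime a (f : ℤ) → 2 ^ (W * n) ≤ f →
        f < 2 ^ (W * (n + 1)) →
        (∃ x : ℝ, |x - a / f| < 1 / 2 ^ (2 * W * (n + 1) + 2) ∧
          nb m z ℓ (Hn ℓ W n) x ≤ ρn η (Hn ℓ W n)) →
        ∀ k, 1 ≤ k → k ≤ K → ‖∑ j ∈ range n, e (k * 2 ^ j * c * ((a : ℝ) / f))‖ ≤ ε * n

/-- approximation of one window -/
lemma win_approx {N I K k c n t : ℕ} (hk : k ≤ K) (hc : c < 2 ^ ((5 * I + 2) * N)) (ht : t < N)
    (hn : n ≤ N) {x y : ℝ} (hxy : |x - y| < 1 / 2 ^ (5 * (I + 1) * N)) :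
    ‖∑ u ∈ range n, e (k * 2 ^ (t + u) * c * x)‖
      ≤ ‖∑ u ∈ range n, e (k * 2 ^ u * c * (2 ^ t * y))‖ + n * (2 * Real.pi * K / 2 ^ N) := by
  have h2 : ‖∑ u ∈ range n, e (k * 2 ^ (t + u) * c * x)
      - ∑ u ∈ range n, e (k * 2 ^ u * c * (2 ^ t * y))‖ ≤ n * (2 * Real.pi * K / 2 ^ N) := by
    rw [← sum_sub_distrib]
    refine (norm_sum_le _ _).trans ?_
    have h3 : ∀ u ∈ range n, ‖e (k * 2 ^ (t + u) * c * x) - e (k * 2 ^ u * c * (2 ^ t * y))‖
        ≤ 2 * Real.pi * K / 2 ^ N := by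
      intro u hu
      rw [mem_range] at hu
      refine (norm_e_sub_e_le _ _).trans ?_
      rw [show (k : ℝ) * 2 ^ (t + u) * c * x - k * 2 ^ u * c * (2 ^ t * y)
        = k * 2 ^ (t + u) * c * (x - y) by rw [pow_add]; ring, abs_mul]
      have hnn : (0 : ℝ) ≤ (k : ℝ) * 2 ^ (t + u) * c := by positivity
      rw [abs_of_nonneg hnn]
      have hkk : (k : ℝ) ≤ K := by exact_mod_cast hk
      have hjj : (2 : ℝ) ^ (t + u) ≤ 2 ^ (2 * N) := pow_le_pow_right₀ (by norm_num) (by omega)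
      have hcc : (c : ℝ) ≤ 2 ^ ((5 * I + 2) * N) := by exact_mod_cast hc.le
      have h4 : (k : ℝ) * 2 ^ (t + u) * c ≤ K * 2 ^ (2 * N) * 2 ^ ((5 * I + 2) * N) := by gcongr
      have h5 : (k : ℝ) * 2 ^ (t + u) * c * |x - y| ≤ K / 2 ^ N := by
        calc (k : ℝ) * 2 ^ (t + u) * c * |x - y|
            ≤ (K * 2 ^ (2 * N) * 2 ^ ((5 * I + 2) * N)) * (1 / 2 ^ (5 * (I + 1) * N)) :=
              mul_le_mul h4 hxy.le (abs_nonneg _) (by positivity)
          _ = K / 2 ^ N := by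
              rw [mul_one_div, div_eq_div_iff (by positivity) (by positivity), mul_assoc,
                mul_assoc, ← pow_add, ← pow_add]
              congr 2
              ring
      have := mul_le_mul_of_nonneg_left h5 (by positivity : 0 ≤ 2 * Real.pi)
      refine this.trans (le_of_eq ?_)
      ring
    refine (sum_le_sum h3).trans ?_
    rw [sum_const, card_range, nsmul_eq_mul]
  have h6 := norm_le_norm_add_norm_sub' (∑ u ∈ range n, e (k * 2 ^ (t + u) * c * x))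
    (∑ u ∈ range n, e (k * 2 ^ u * c * (2 ^ t * y)))
  linarith

theorem T2_point {m D ℓ W N I K c n₀ n₁ : ℕ} {a₀ : ℤ} {ε η : ℝ} (hI : 1 ≤ I) (hℓ : 1 ≤ ℓ)
    (hmℓ : m ≤ ℓ) (hW : 2 ≤ W) (hN : 2 * W + ℓ + 2 ≤ N) (hn₀ : 1 ≤ n₀) (hn₀N : n₀ ≤ N)
    (hD1 : 1 ≤ D) (hDm : D < 2 ^ m) (hη : 0 < η) (hη1 : η ≤ 1) (hε : 0 ≤ ε)
    (hc : c < 2 ^ ((5 * I + 2) * N)) (hn₁ : 1 ≤ n₁) (hn₁ℓ : W * n₁ ≤ ℓ - m)
    (hg : Good m ((a₀ : ℝ) / D) ℓ W N K n₀ n₁ c ε η) {x : ℝ} (hx : x ∈ T2 N I) {k : ℕ}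
    (hk1 : 1 ≤ k) (hk2 : k ≤ K) :
    ‖∑ t ∈ range N, e (k * 2 ^ t * c * x)‖ ≤ (ε + 2 * Real.pi * K / 2 ^ N) * N
      + 1 / η * (∑ t ∈ range (6 * N), gc m ((a₀ : ℝ) / D) ℓ (2 ^ t * x)) + (n₀ + 2 * N / W) := by
  obtain ⟨f, a, hf1, hf2, hcop, hodd, hxa⟩ := hx
  set z : ℝ := (a₀ : ℝ) / D with hz
  set δ : ℝ := 2 * Real.pi * K / 2 ^ N with hδ
  have hδ0 : 0 ≤ δ := by positivity
  have hfr : (0 : ℝ) < f := by exact_mod_cast hf1
  have hDr : (0 : ℝ) < D := by exact_mod_cast hD1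
  have hWr : (0 : ℝ) < W := by
    have : 0 < W := by omega
    exact_mod_cast this
  set Z : ℝ := ∑ t ∈ range (6 * N), gc m z ℓ (2 ^ t * x) with hZ
  have hZ0 : 0 ≤ Z := sum_nonneg fun t _ => gc_nonneg _ _ _ _
  have hη' : 1 ≤ 1 / η := by rw [le_div_iff₀ hη]; linarith
  set A : ℕ → ℂ := fun t => e (k * 2 ^ t * c * x) with hA
  have hA1 : ∀ t, ‖A t‖ ≤ 1 := fun t => by simp only [hA]; rw [norm_e]
  have htriv : ∀ n t, ‖∑ u ∈ range n, A (t + u)‖ ≤ n := by
    intro n t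
    refine (norm_sum_le _ _).trans ?_
    refine (sum_le_sum fun u _ => hA1 (t + u)).trans ?_
    simp
  have h2f : IsCoprime (2 : ℤ) (f : ℤ) := by
    have := (Nat.coprime_two_left (n := f)).2 hodd
    exact Nat.isCoprime_iff_coprime.2 this
  have hxy : ∀ t < N, |2 ^ t * x - 2 ^ t * (a / f)| < 1 / 2 ^ ((5 * I + 4) * N) := by
    intro t ht
    rw [← mul_sub, abs_mul, abs_of_pos (by positivity : (0 : ℝ) < 2 ^ t)]
    calc 2 ^ t * |x - a / f| ≤ 2 ^ N * |x - a / f| :=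
          mul_le_mul_of_nonneg_right (pow_le_pow_right₀ (by norm_num) ht.le) (abs_nonneg _)
      _ < 2 ^ N * (1 / 2 ^ (5 * (I + 1) * N)) := mul_lt_mul_of_pos_left hxa (by positivity)
      _ = 1 / 2 ^ ((5 * I + 4) * N) := by
          rw [mul_one_div, div_eq_div_iff (by positivity) (by positivity), one_mul, ← pow_add]
          congr 1
          ring
  by_cases hf : f < 2 ^ (ℓ - m)
  · -- small denominators: the orbit of `z` itself
    have hwin := window hA1 (n := n₀) (N := N) hn₀ (irr := fun t => gc m z ℓ (2 ^ t * x))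
      (ε := ε + δ) (by
        intro t ht
        by_cases hG : 2 ^ t * x ∈ G m z ℓ
        · have hgc : gc m z ℓ (2 ^ t * x) = 0 := by unfold gc; rw [if_pos hG]
          obtain ⟨t', ht', p, hp⟩ := hG
          have h1 : |((2 ^ t * a : ℤ) : ℝ) / f - ((2 ^ t' * a₀ + p * D : ℤ) : ℝ) / D|
              < 1 / 2 ^ ℓ := by
            have e1 : ((2 ^ t * a : ℤ) : ℝ) / f - ((2 ^ t' * a₀ + p * D : ℤ) : ℝ) / D
                = (2 ^ t * x - 2 ^ t' * z - p) - (2 ^ t * x - 2 ^ t * (a / f)) := by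
              rw [hz]
              push_cast
              field_simp
              ring
            rw [e1]
            refine (abs_sub _ _).trans_lt ?_
            have h2 := hxy t ht
            have h3 : (1 : ℝ) / 2 ^ ((5 * I + 4) * N) ≤ 1 / 2 ^ (ℓ + 2) := by
              apply one_div_le_one_div_of_le (by positivity)
              apply pow_le_pow_right₀ (by norm_num)
              calc ℓ + 2 ≤ 1 * N := by omega
                _ ≤ (5 * I + 4) * N := Nat.mul_le_mul_right _ (by omega)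
            have h4 : (1 : ℝ) / 2 ^ (ℓ + 2) = 1 / 2 ^ ℓ / 4 := by
              rw [pow_add]; field_simp; norm_num
            have h5 : (0 : ℝ) < 1 / 2 ^ ℓ := by positivity
            rw [h4] at h3 hp
            linarith
          have h2 : (f : ℝ) * D ≤ 2 ^ ℓ := by
            have a1 : (f : ℝ) ≤ 2 ^ (ℓ - m) := by exact_mod_cast hf.le
            have a2 : (D : ℝ) ≤ 2 ^ m := by exact_mod_cast hDm.le
            calc (f : ℝ) * D ≤ 2 ^ (ℓ - m) * 2 ^ m := mul_le_mul a1 a2 hDr.le (by positivity)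
              _ = 2 ^ ℓ := by rw [← pow_add]; congr 1; omega
          have h3 := rat_eq hf1 hD1 (by
            calc |((2 ^ t * a : ℤ) : ℝ) / f - ((2 ^ t' * a₀ + p * D : ℤ) : ℝ) / D| * (f * D)
                < 1 / 2 ^ ℓ * (f * D) := mul_lt_mul_of_pos_right h1 (mul_pos hfr hDr)
              _ ≤ 1 / 2 ^ ℓ * 2 ^ ℓ := mul_le_mul_of_nonneg_left h2 (by positivity)
              _ = 1 := by field_simp)
          have h4 : (2 : ℝ) ^ t * (a / f) = 2 ^ t' * z + p := by
            have h5 : (2 : ℝ) ^ t * a * D = (2 ^ t' * a₀ + p * D) * f := by exact_mod_cast h3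
            rw [hz]
            field_simp
            linarith
          have h6 := win_approx (t := t) (n := n₀) hk2 hc ht hn₀N (x := x) (y := a / f) hxa
          have h7 : ∑ u ∈ range n₀, e (k * 2 ^ u * c * (2 ^ t * (a / f)))
              = ∑ u ∈ range n₀, e (k * 2 ^ u * c * (2 ^ t' * z)) := by
            refine sum_congr rfl fun u _ => ?_
            rw [h4, show (k : ℝ) * 2 ^ u * c * (2 ^ t' * z + p) = k * 2 ^ u * c * (2 ^ t' * z)
              + ((k * 2 ^ u * c * p : ℤ) : ℝ) by push_cast; ring, e_add_int]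
          rw [h7] at h6
          have h8 := hg.h0 t' ht' k hk1 hk2
          simp only [hA, hgc]
          linarith
        · have hgc : gc m z ℓ (2 ^ t * x) = 1 := by unfold gc; rw [if_neg hG]
          simp only [hgc]
          refine (htriv _ _).trans ?_
          have : (0 : ℝ) ≤ n₀ * (ε + δ) := by positivity
          linarith)
    have hle : ∑ t ∈ range N, gc m z ℓ (2 ^ t * x) ≤ Z := by
      rw [hZ]
      exact sum_le_sum_of_subset_of_nonneg (range_subset_range.2 (by omega)) fun t _ _ =>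
        gc_nonneg _ _ _ _
    have hZ1 : Z ≤ 1 / η * Z := by nlinarith
    have hNW : (0 : ℝ) ≤ 2 * N / W := by positivity
    linarith
  · -- large denominators
    push Not at hf
    set n := Nat.log 2 f / W with hn
    have hWpos : 0 < W := by omega
    have hlog : 2 ^ Nat.log 2 f ≤ f := Nat.pow_log_le_self 2 (by omega)
    have hlog2 : f < 2 ^ (Nat.log 2 f + 1) := Nat.lt_pow_succ_log_self (by norm_num) f
    have hWn : W * n ≤ Nat.log 2 f := Nat.mul_div_le _ _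
    have hWn1 : Nat.log 2 f < W * (n + 1) := by
      have := Nat.lt_mul_div_succ (Nat.log 2 f) hWpos
      exact this
    have hfl : 2 ^ (W * n) ≤ f := (Nat.pow_le_pow_right (by norm_num) hWn).trans hlog
    have hfu : f < 2 ^ (W * (n + 1)) := hlog2.trans_le (Nat.pow_le_pow_right (by norm_num) hWn1)
    have hlogN : Nat.log 2 f ≤ 2 * N := by
      have h1 := Nat.log_mono_right (b := 2) hf2
      rwa [Nat.log_pow (by norm_num)] at h1
    have hlogℓ : ℓ - m ≤ Nat.log 2 f := by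
      have h1 := Nat.log_mono_right (b := 2) hf
      rwa [Nat.log_pow (by norm_num)] at h1
    have hn₁n : n₁ ≤ n := by
      rw [hn, Nat.le_div_iff_mul_le hWpos]
      calc n₁ * W = W * n₁ := by ring
        _ ≤ _ := hn₁ℓ.trans hlogℓ
    have hnN : n ≤ N := by
      have h1 : W * n ≤ 2 * N := hWn.trans hlogN
      have h2 : 2 * n ≤ W * n := Nat.mul_le_mul_right _ hW
      omega
    have hn1 : 1 ≤ n := hn₁.trans hn₁n
    set H := Hn ℓ W n with hH
    have hHpos : 0 < H := Hn_pos _ _ _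
    have hHr : (0 : ℝ) < H := by exact_mod_cast hHpos
    have hHup : ℓ * H ≤ 5 * N := by
      have h1 := Hn_upper (ℓ := ℓ) (W := W) (n := n)
      have h2 : 2 * W * (n + 1) = 2 * (W * n) + 2 * W := by ring
      have h3 : W * n ≤ 2 * N := hWn.trans hlogN
      rw [← hH] at h1
      omega
    have hwin := window hA1 (n := n) (N := N) hn1
      (irr := fun t => (nb m z ℓ H (2 ^ t * x) : ℝ) / (η * H))
      (ε := ε + δ) (by
        intro t ht
        have hpos : (0 : ℝ) ≤ (nb m z ℓ H (2 ^ t * x) : ℝ) / (η * H) := by positivity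
        have hnr : (0 : ℝ) ≤ n := by positivity
        by_cases hG : nb m z ℓ H (2 ^ t * x) ≤ ρn η H
        · have h6 := win_approx (t := t) (n := n) hk2 hc ht hnN (x := x) (y := a / f) hxa
          have h8 := hg.h2 n hn₁n (hWn.trans hlogN) f (2 ^ t * a)
            (IsCoprime.mul_left h2f.pow_left hcop) hfl hfu
            ⟨2 ^ t * x, by
              have e1 : (((2 ^ t * a : ℤ) : ℝ)) / f = 2 ^ t * (a / f) := by push_cast; ring
              rw [e1]
              refine (hxy t ht).trans_le ?_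
              apply one_div_le_one_div_of_le (by positivity)
              apply pow_le_pow_right₀ (by norm_num)
              have h2 : 2 * W * (n + 1) = 2 * (W * n) + 2 * W := by ring
              have h3 : W * n ≤ 2 * N := hWn.trans hlogN
              have h4 : 9 * N ≤ (5 * I + 4) * N := Nat.mul_le_mul_right _ (by omega)
              omega, hG⟩ k hk1 hk2
          have e2 : ∑ j ∈ range n, e (k * 2 ^ j * c * (((2 ^ t * a : ℤ) : ℝ) / f))
              = ∑ u ∈ range n, e (k * 2 ^ u * c * (2 ^ t * (a / f))) := by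
            refine sum_congr rfl fun u _ => ?_
            congr 1
            push_cast
            ring
          rw [e2] at h8
          have h9 : (0 : ℝ) ≤ n * ((nb m z ℓ H (2 ^ t * x) : ℝ) / (η * H)) := by positivity
          simp only [hA]
          linarith
        · push Not at hG
          have h1 : η * H < nb m z ℓ H (2 ^ t * x) := by
            unfold ρn at hG
            exact (Nat.floor_lt (by positivity)).1 hG
          have h2 : 1 ≤ (nb m z ℓ H (2 ^ t * x) : ℝ) / (η * H) := by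
            rw [le_div_iff₀ (by positivity)]
            linarith
          refine (htriv _ _).trans ?_
          have h3 : (1 : ℝ) ≤ ε + δ + (nb m z ℓ H (2 ^ t * x) : ℝ) / (η * H) := by linarith
          nlinarith)
    have hirr : ∑ t ∈ range N, (nb m z ℓ H (2 ^ t * x) : ℝ) / (η * H) ≤ 1 / η * Z := by
      rw [← sum_div]
      simp_rw [nb_eq]
      rw [sum_comm]
      have h1 : ∀ r ∈ range H, ∑ t ∈ range N, gc m z ℓ (2 ^ (r * ℓ) * (2 ^ t * x)) ≤ Z := by
        intro r hr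
        rw [mem_range] at hr
        have h2 : r * ℓ + N ≤ 6 * N := by
          have : r * ℓ ≤ H * ℓ := Nat.mul_le_mul_right _ hr.le
          have : H * ℓ = ℓ * H := by ring
          omega
        have h3 : ∑ t ∈ range N, gc m z ℓ (2 ^ (r * ℓ) * (2 ^ t * x))
            = ∑ t ∈ Ico (r * ℓ) (r * ℓ + N), gc m z ℓ (2 ^ t * x) := by
          rw [sum_Ico_eq_sum_range]
          rw [Nat.add_sub_cancel_left]
          refine sum_congr rfl fun t _ => ?_
          congr 1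
          rw [pow_add]
          ring
        rw [h3, hZ]
        refine sum_le_sum_of_subset_of_nonneg ?_ fun t _ _ => gc_nonneg _ _ _ _
        intro t ht
        rw [mem_Ico] at ht
        rw [mem_range]
        omega
      have h2 := sum_le_sum h1
      rw [sum_const, card_range, nsmul_eq_mul] at h2
      rw [div_le_iff₀ (by positivity)]
      refine h2.trans (le_of_eq ?_)
      field_simp
    have hnW : (n : ℝ) ≤ 2 * N / W := by
      rw [le_div_iff₀ hWr]
      have h1 : W * n ≤ 2 * N := hWn.trans hlogN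
      have : (W : ℝ) * n ≤ 2 * N := by exact_mod_cast h1
      linarith
    have hn0r : (0 : ℝ) ≤ n₀ := by positivity
    linarith

/-- the pointwise inequality -/
theorem point {m D ℓ W N I K c n₀ n₁ H : ℕ} {a₀ : ℤ} {ε η : ℝ} (hI : 1 ≤ I) (hℓ : 1 ≤ ℓ)
    (hmℓ : m ≤ ℓ) (hW : 2 ≤ W) (hN : 2 * W + ℓ + 2 ≤ N) (hn₀ : 1 ≤ n₀) (hn₀N : n₀ ≤ N)
    (hD1 : 1 ≤ D) (hDm : D < 2 ^ m) (hη : 0 < η) (hη1 : η ≤ 1) (hε : 0 ≤ ε)
    (hc : c < 2 ^ ((5 * I + 2) * N)) (hn₁ : 1 ≤ n₁) (hn₁ℓ : W * n₁ ≤ ℓ - m) (hH : 0 < H)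
    (hg : Good m ((a₀ : ℝ) / D) ℓ W N K n₀ n₁ c ε η)
    (hg1 : ∀ x ∈ TI N I, nb m ((a₀ : ℝ) / D) ℓ H x ≤ ρn η H → ∀ k, 1 ≤ k → k ≤ K →
        ‖∑ j ∈ range N, e (k * 2 ^ j * c * x)‖ ≤ ε * N + N * (2 * Real.pi * K / 2 ^ N))
    (x : ℝ) {k : ℕ} (hk1 : 1 ≤ k) (hk2 : k ≤ K) :
    ‖∑ t ∈ range N, e (k * 2 ^ t * c * x)‖ ≤ (ε + 2 * Real.pi * K / 2 ^ N) * N
      + 1 / η * (∑ t ∈ range (6 * N), gc m ((a₀ : ℝ) / D) ℓ (2 ^ t * x)) + (n₀ + 2 * N / W)
      + N * (if x ∈ E3 N I then 1 else 0) + N * (if x ∈ E4 N I then 1 else 0)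
      + N * (1 / (η * H) * ∑ r ∈ range H, gc m ((a₀ : ℝ) / D) ℓ (2 ^ (r * ℓ) * x)) := by
  set z : ℝ := (a₀ : ℝ) / D with hz
  have hWr : (0 : ℝ) < W := by
    have : 0 < W := by omega
    exact_mod_cast this
  have hHr : (0 : ℝ) < H := by exact_mod_cast hH
  have htriv : ‖∑ t ∈ range N, e (k * 2 ^ t * c * x)‖ ≤ N := by
    refine (norm_sum_le _ _).trans ?_
    simp_rw [norm_e]
    simp
  have t1 : (0 : ℝ) ≤ (ε + 2 * Real.pi * K / 2 ^ N) * N := by positivity
  have hZ0 : 0 ≤ ∑ t ∈ range (6 * N), gc m z ℓ (2 ^ t * x) := sum_nonneg fun t _ => gc_nonneg _ _ _ _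
  have t2 : 0 ≤ 1 / η * (∑ t ∈ range (6 * N), gc m z ℓ (2 ^ t * x)) := by positivity
  have t3 : (0 : ℝ) ≤ (n₀ + 2 * N / W) := by positivity
  have t4 : (0 : ℝ) ≤ N * (if x ∈ E3 N I then 1 else 0) := by split_ifs <;> simp
  have t5 : (0 : ℝ) ≤ N * (if x ∈ E4 N I then 1 else 0) := by split_ifs <;> simp
  have hY0 : 0 ≤ ∑ r ∈ range H, gc m z ℓ (2 ^ (r * ℓ) * x) := sum_nonneg fun t _ => gc_nonneg _ _ _ _
  have t6 : 0 ≤ N * (1 / (η * H) * ∑ r ∈ range H, gc m z ℓ (2 ^ (r * ℓ) * x)) := by positivity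
  rcases types (N := N) (I := I) x with h | h | h | h
  · by_cases hnb : nb m z ℓ H x ≤ ρn η H
    · have := hg1 x h hnb k hk1 hk2
      linarith
    · push Not at hnb
      have h1 : η * H < nb m z ℓ H x := by
        unfold ρn at hnb
        exact (Nat.floor_lt (by positivity)).1 hnb
      rw [nb_eq] at h1
      have h2 : 1 ≤ 1 / (η * H) * ∑ r ∈ range H, gc m z ℓ (2 ^ (r * ℓ) * x) := by
        rw [one_div, ← div_eq_inv_mul, le_div_iff₀ (by positivity)]
        linarith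
      have h3 : (N : ℝ) ≤ N * (1 / (η * H) * ∑ r ∈ range H, gc m z ℓ (2 ^ (r * ℓ) * x)) := by
        have : (0 : ℝ) ≤ N := by positivity
        nlinarith
      linarith
  · have h1 : (N : ℝ) * (if x ∈ E3 N I then 1 else 0) = N := by rw [if_pos h, mul_one]
    linarith
  · have h1 : (N : ℝ) * (if x ∈ E4 N I then 1 else 0) = N := by rw [if_pos h, mul_one]
    linarith
  · have h1 := T2_point hI hℓ hmℓ hW hN hn₀ hn₀N hD1 hDm hη hη1 hε hc hn₁ hn₁ℓ hg h hk1 hk2
    linarith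

end Pool.Agent.Run7.h792.GM
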