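import Mathlib
import Pool.Agent.Run7.h792.GM.Point

/-! Sums along periodic orbits, and the choice of constants. -/

set_option autoImplicit false

namespace Pool.Agent.Run7.h792.GM

open Finset Classical Filter Topology
open Pool.Agent.H520R3 (e norm_e e_add e_zero e_neg e_int e_add_int e_sub_int norm_e_sub_e_le
  four_mul_le geom_bound e_mul_nat)

lemma gc_int (m : ℕ) (z : ℝ) (ℓ : ℕ) (y : ℝ) (p : ℤ) : gc m z ℓ (y + p) = gc m z ℓ y := by
  unfold gc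
  simp only [G_int_iff]

theorem per_bound {m D ℓ W N I K c n₀ n₁ H : ℕ} {a₀ : ℤ} {ε η η' : ℝ} (hI : 1 ≤ I) (hℓ : 1 ≤ ℓ)
    (hmℓ : m ≤ ℓ) (hW : 2 ≤ W) (hN : 2 * W + ℓ + 2 ≤ N) (hn₀ : 1 ≤ n₀) (hn₀N : n₀ ≤ N)
    (hD1 : 1 ≤ D) (hDm : D < 2 ^ m) (hη : 0 < η) (hη1 : η ≤ 1) (hε : 0 ≤ ε)
    (hc : c < 2 ^ ((5 * I + 2) * N)) (hn₁ : 1 ≤ n₁) (hn₁ℓ : W * n₁ ≤ ℓ - m) (hH : 0 < H)
    (hg : Good m ((a₀ : ℝ) / D) ℓ W N K n₀ n₁ c ε η)
    (hg1 : ∀ x ∈ TI N I, nb m ((a₀ : ℝ) / D) ℓ H x ≤ ρn η H → ∀ k, 1 ≤ k → k ≤ K →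
        ‖∑ j ∈ range N, e (k * 2 ^ j * c * x)‖ ≤ ε * N + N * (2 * Real.pi * K / 2 ^ N))
    {x : ℝ} {n : ℕ} (hx : ∃ p : ℤ, 2 ^ n * x = x + p)
    (hη' : ∑ j ∈ range n, gc m ((a₀ : ℝ) / D) ℓ (2 ^ j * x) ≤ η' * n) {k : ℕ}
    (hk1 : 1 ≤ k) (hk2 : k ≤ K) :
    ‖∑ j ∈ range n, e (k * c * (2 ^ j * x))‖ ≤
      n * ((ε + 2 * Real.pi * K / 2 ^ N) + 7 * (η' / η) + n₀ / N + 2 / W + 2 / I) := by
  set z : ℝ := (a₀ : ℝ) / D with hz
  have hNpos : 0 < N := by omega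
  have hNr : (0 : ℝ) < N := by exact_mod_cast hNpos
  have hHr : (0 : ℝ) < H := by exact_mod_cast hH
  have hIr : (0 : ℝ) < I := by exact_mod_cast hI
  have hWr : (0 : ℝ) < W := by
    have : 0 < W := by omega
    exact_mod_cast this
  -- averaging
  have h1 : (N : ℂ) * ∑ j ∈ range n, e (k * c * (2 ^ j * x))
      = ∑ j ∈ range n, ∑ t ∈ range N, e (k * 2 ^ t * c * (2 ^ j * x)) := by
    rw [sum_comm]
    have h2 : ∀ t ∈ range N, ∑ j ∈ range n, e (k * 2 ^ t * c * (2 ^ j * x))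
        = ∑ j ∈ range n, e (k * c * (2 ^ j * x)) := by
      intro t _
      have h3 := per_shift (fun y => e (k * c * y)) (fun y p => by
        rw [show (k : ℝ) * c * (y + p) = k * c * y + ((k * c * p : ℤ) : ℝ) by push_cast; ring,
          e_add_int]) hx t
      rw [← h3]
      refine sum_congr rfl fun j _ => ?_
      congr 1
      rw [pow_add]
      ring
    rw [sum_congr rfl h2, sum_const, card_range, nsmul_eq_mul]
  have h2 : (N : ℝ) * ‖∑ j ∈ range n, e (k * c * (2 ^ j * x))‖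
      ≤ ∑ j ∈ range n, ‖∑ t ∈ range N, e (k * 2 ^ t * c * (2 ^ j * x))‖ := by
    have : (N : ℝ) * ‖∑ j ∈ range n, e (k * c * (2 ^ j * x))‖
        = ‖(N : ℂ) * ∑ j ∈ range n, e (k * c * (2 ^ j * x))‖ := by
      rw [norm_mul, Complex.norm_natCast]
    rw [this, h1]
    exact norm_sum_le _ _
  have h3 := h2.trans (sum_le_sum fun j _ => point hI hℓ hmℓ hW hN hn₀ hn₀N hD1 hDm hη hη1 hε hc
    hn₁ hn₁ℓ hH hg hg1 (2 ^ j * x) hk1 hk2)
  simp only [sum_add_distrib, ← mul_sum, sum_const, card_range, nsmul_eq_mul] at h3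
  -- the three kinds of sums
  have s1 : ∑ j ∈ range n, ∑ t ∈ range (6 * N), gc m z ℓ (2 ^ t * (2 ^ j * x)) ≤ 6 * N * (η' * n) := by
    rw [sum_comm]
    have h4 : ∀ t ∈ range (6 * N), ∑ j ∈ range n, gc m z ℓ (2 ^ t * (2 ^ j * x)) ≤ η' * n := by
      intro t _
      have h5 := per_shift (gc m z ℓ) (gc_int m z ℓ) hx t
      refine le_trans (le_of_eq ?_) (h5.le.trans hη')
      refine sum_congr rfl fun j _ => ?_
      rw [pow_add]
      congr 1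
      ring
    refine (sum_le_sum h4).trans (le_of_eq ?_)
    rw [sum_const, card_range, nsmul_eq_mul]
    push_cast
    ring
  have s2 : ∑ j ∈ range n, ∑ r ∈ range H, gc m z ℓ (2 ^ (r * ℓ) * (2 ^ j * x)) ≤ H * (η' * n) := by
    rw [sum_comm]
    have h4 : ∀ r ∈ range H, ∑ j ∈ range n, gc m z ℓ (2 ^ (r * ℓ) * (2 ^ j * x)) ≤ η' * n := by
      intro r _
      have h5 := per_shift (gc m z ℓ) (gc_int m z ℓ) hx (r * ℓ)
      refine le_trans (le_of_eq ?_) (h5.le.trans hη')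
      refine sum_congr rfl fun j _ => ?_
      rw [pow_add]
      congr 1
      ring
    refine (sum_le_sum h4).trans (le_of_eq ?_)
    rw [sum_const, card_range, nsmul_eq_mul]
  have s3 := rare_per (N := N) (I := I) (E3 N I) E3_per
    (fun y hy i hi1 hi2 => sep3 (by omega) hi1 hi2 hy) hx
  have s4 := rare_per (N := N) (I := I) (E4 N I) E4_per
    (fun y hy i hi1 hi2 => sep4 (by omega) hi1 hi2 hy) hx
  have s3' : (∑ j ∈ range n, if 2 ^ j * x ∈ E3 N I then (1 : ℝ) else 0) ≤ n / I := by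
    rw [le_div_iff₀ hIr]; linarith
  have s4' : (∑ j ∈ range n, if 2 ^ j * x ∈ E4 N I then (1 : ℝ) else 0) ≤ n / I := by
    rw [le_div_iff₀ hIr]; linarith
  have b1 := mul_le_mul_of_nonneg_left s1 (by positivity : (0 : ℝ) ≤ 1 / η)
  have b2 := mul_le_mul_of_nonneg_left s2 (by positivity : (0 : ℝ) ≤ N * (1 / (η * H)))
  have b3 := mul_le_mul_of_nonneg_left s3' hNr.le
  have b4 := mul_le_mul_of_nonneg_left s4' hNr.le
  have b5 : (N : ℝ) * ‖∑ j ∈ range n, e (k * c * (2 ^ j * x))‖ ≤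
      N * (n * ((ε + 2 * Real.pi * K / 2 ^ N) + 7 * (η' / η) + n₀ / N + 2 / W + 2 / I)) := by
    have e1 : (N : ℝ) * (n * ((ε + 2 * Real.pi * K / 2 ^ N) + 7 * (η' / η) + n₀ / N + 2 / W + 2 / I))
        = n * ((ε + 2 * Real.pi * K / 2 ^ N) * N) + 1 / η * (6 * N * (η' * n))
          + n * (n₀ + 2 * N / W) + N * (n / I) + N * (n / I)
          + N * (1 / (η * H)) * (H * (η' * n)) := by
      field_simp
      ring
    rw [e1]
    linarith
  exact le_of_mul_le_mul_left b5 hNr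

end Pool.Agent.Run7.h792.GM
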