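import Mathlib
import Pool.Agent.Run7.h792.GM.Core

/-! The choice of constants. -/

set_option autoImplicit false

namespace Pool.Agent.Run7.h792.GM

open Finset Classical Filter Topology
open Pool.Agent.H520R3 (e norm_e e_add e_zero e_neg e_int e_add_int e_sub_int norm_e_sub_e_le
  four_mul_le geom_bound e_mul_nat)

lemma exp_pow (κ : ℝ) (n : ℕ) : Real.exp (-(κ * n)) = Real.exp (-κ) ^ n := by
  rw [← Real.exp_nat_mul]
  congr 1
  ring

lemma tend1 {κ : ℝ} (hκ : 0 < κ) (A B : ℝ) {θ : ℝ} (hθ : 0 < θ) :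
    ∀ᶠ n : ℕ in atTop, (A * n + B) * Real.exp (-(κ * n)) ≤ θ := by
  have hr : Real.exp (-κ) < 1 := by rw [Real.exp_lt_one_iff]; linarith
  have hr0 : 0 ≤ Real.exp (-κ) := (Real.exp_pos _).le
  have h1 := (tendsto_self_mul_const_pow_of_lt_one hr0 hr).const_mul A
  have h2 := (tendsto_pow_atTop_nhds_zero_of_lt_one hr0 hr).const_mul B
  have h3 := h1.add h2
  rw [mul_zero, mul_zero, add_zero] at h3
  have h4 := h3.eventually (eventually_le_nhds hθ)
  filter_upwards [h4] with n hn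
  rw [exp_pow]
  refine le_trans (le_of_eq ?_) hn
  ring

/-- the size of the net -/
lemma net_size {m ℓ H : ℕ} {η T : ℝ} (hℓ : 1 ≤ ℓ) (hη : 0 ≤ η)
    (hT : (H : ℝ) * m + 3 * ℓ * η * H ≤ T) :
    ((m : ℝ) + 1) ^ H * (2 ^ (ℓ + 2)) ^ ρn η H ≤ Real.exp T := by
  have h1 : ((m : ℝ) + 1) ^ H ≤ Real.exp (H * m) := by
    rw [Real.exp_nat_mul]
    exact pow_le_pow_left₀ (by positivity) (Real.add_one_le_exp _) H
  have h2 : ((2 : ℝ) ^ (ℓ + 2)) ^ ρn η H ≤ Real.exp (3 * ℓ * η * H) := by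
    have h3 : (2 : ℝ) ≤ Real.exp 1 := by
      have := Real.add_one_le_exp 1
      linarith
    have h4 : ((2 : ℝ) ^ (ℓ + 2)) ^ ρn η H ≤ (Real.exp 1) ^ ((ℓ + 2) * ρn η H) := by
      rw [← pow_mul]
      exact pow_le_pow_left₀ (by norm_num) h3 _
    refine h4.trans ?_
    rw [← Real.exp_nat_mul, mul_one]
    apply Real.exp_le_exp.2
    push_cast
    have h5 : (ρn η H : ℝ) ≤ η * H := Nat.floor_le (by positivity)
    have h6 : (1 : ℝ) ≤ ℓ := by exact_mod_cast hℓ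
    have h7 : ((ℓ : ℝ) + 2) * ρn η H ≤ (3 * ℓ) * (η * H) :=
      mul_le_mul (by linarith) h5 (by positivity) (by positivity)
    refine h7.trans (le_of_eq (by ring))
  calc ((m : ℝ) + 1) ^ H * (2 ^ (ℓ + 2)) ^ ρn η H
      ≤ Real.exp (H * m) * Real.exp (3 * ℓ * η * H) :=
        mul_le_mul h1 h2 (by positivity) (Real.exp_pos _).le
    _ = Real.exp (H * m + 3 * ℓ * η * H) := by rw [Real.exp_add]
    _ ≤ Real.exp T := Real.exp_le_exp.2 hT

theorem core {K : ℕ} (hK : 1 ≤ K) {ε : ℝ} (hε : 0 < ε) (hε1 : ε ≤ 1) {θ : ℝ} (hθ : 0 < θ) :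
    ∃ m₀ : ℕ, ∀ m ≥ m₀, ∀ (D : ℕ) (a₀ : ℤ), IsCoprime a₀ (D : ℤ) → Odd D → 1 ≤ D → D < 2 ^ m →
      2 ^ m ≤ 2 * D ^ 2 → ∃ ℓ : ℕ, ∃ η' > (0 : ℝ), ∃ Mod : ℕ, 1 ≤ Mod ∧ ∃ q₀ : ℕ, ∀ q ≥ q₀,
        ∃ Bad : Finset ℕ, (Bad.card : ℝ) ≤ θ * 2 ^ (Mod * q) ∧
          ∀ c < 2 ^ (Mod * q), c ∉ Bad → ∀ (x : ℝ) (n : ℕ), (∃ p : ℤ, 2 ^ n * x = x + p) →
            ∑ j ∈ range n, gc m ((a₀ : ℝ) / D) ℓ (2 ^ j * x) ≤ η' * n →
              ∀ k, 1 ≤ k → k ≤ K → ‖∑ j ∈ range n, e (k * c * (2 ^ j * x))‖ ≤ ε * n := by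
  -- the constants depending on `ε`
  obtain ⟨W₀, hW₀⟩ := exists_nat_ge (16 / ε)
  set W := W₀ + 2 with hWd
  set I := W₀ + 1 with hId
  have hW2 : 2 ≤ W := by omega
  have hI1 : 1 ≤ I := by omega
  have hWr : 16 / ε ≤ W := by rw [hWd]; push_cast; linarith
  have hIr : 16 / ε ≤ I := by rw [hId]; push_cast; linarith
  have hWpos : (0 : ℝ) < W := by positivity
  have hIpos : (0 : ℝ) < I := by positivity
  set ε₁ := ε / 8 with hε₁
  have hε₁0 : 0 < ε₁ := by positivity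
  have hε₁1 : ε₁ ≤ 1 := by rw [hε₁]; linarith
  set κ := ε₁ ^ 2 / 32 with hκ
  have hκ0 : 0 < κ := by positivity
  have hκ1 : κ ≤ 1 := by rw [hκ]; nlinarith
  have hκn : ∀ n : ℕ, -(ε₁ ^ 2 * n / 32) = -(κ * n) := by intro n; rw [hκ]; ring
  set M : ℝ := (W : ℝ) + (5 * I + 4) with hM
  have hM1 : 1 ≤ M := by rw [hM]; linarith
  set η := κ / (48 * M) with hη
  have hη0 : 0 < η := by positivity
  have hη1 : η ≤ 1 := by rw [hη, div_le_one (by positivity)]; linarith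
  have hηM : η * M = κ / 48 := by rw [hη]; field_simp
  have hηW : η * W ≤ κ / 48 := by
    rw [← hηM]; exact mul_le_mul_of_nonneg_left (by rw [hM]; linarith) hη0.le
  have hηI : η * (5 * I + 4) ≤ κ / 48 := by
    rw [← hηM]; exact mul_le_mul_of_nonneg_left (by rw [hM]; linarith) hη0.le
  have hθ3 : 0 < θ / 3 := by positivity
  -- m₀
  obtain ⟨n', hn'⟩ := eventually_atTop.1 (tend1 hκ0 (8 * K * 4) (8 * K * 3) hθ3)
  refine ⟨4 * n' + 4 * K + 8, fun m hm D a₀ hcop hodd hD1 hDm hDD => ?_⟩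
  set n₀ := m / 4 with hn₀
  have hn₀1 : 1 ≤ n₀ := by omega
  have hn₀n' : n' ≤ n₀ := by omega
  have hmn₀ : m ≤ 4 * n₀ + 3 := by omega
  have hB0size : K * m * (8 * Real.exp (-(κ * n₀))) ≤ θ / 3 := by
    refine le_trans ?_ (hn' n₀ hn₀n')
    have h1 : (m : ℝ) ≤ 4 * n₀ + 3 := by exact_mod_cast hmn₀
    have h2 : (0 : ℝ) ≤ 8 * K * Real.exp (-(κ * n₀)) := by positivity
    calc K * m * (8 * Real.exp (-(κ * n₀))) = 8 * K * Real.exp (-(κ * n₀)) * m := by ring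
      _ ≤ 8 * K * Real.exp (-(κ * n₀)) * (4 * n₀ + 3) := mul_le_mul_of_nonneg_left h1 h2
      _ = _ := by ring
  have hKD : K * 2 ^ n₀ < D := by
    by_contra hcon
    push Not at hcon
    have h1 : 2 ^ m ≤ 2 * (K * 2 ^ n₀) ^ 2 := hDD.trans (by gcongr)
    have h2 : K < 2 ^ K := Nat.lt_two_pow_self
    have h3 : 2 * (K * 2 ^ n₀) ^ 2 < 2 * (2 ^ K * 2 ^ n₀) ^ 2 := by gcongr
    have h4 : 2 * (2 ^ K * 2 ^ n₀) ^ 2 = 2 ^ (1 + 2 * K + 2 * n₀) := by
      rw [pow_add, pow_add, pow_one, mul_pow, ← pow_mul, ← pow_mul, mul_assoc]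
      congr 3 <;> ring
    rw [h4] at h3
    have h5 := (Nat.pow_lt_pow_iff_right (a := 2) (by norm_num)).1 (h1.trans_lt h3)
    omega
  -- n₁
  set r := Real.exp (-(κ / 2)) with hr
  have hr0 : 0 < r := Real.exp_pos _
  have hr1 : r < 1 := by rw [hr, Real.exp_lt_one_iff]; linarith
  have hrn : ∀ n : ℕ, Real.exp (-(κ / 2 * n)) = r ^ n := fun n => exp_pow _ _
  obtain ⟨n₁, hn₁K, hn₁m, hn₁κ, hn₁θ⟩ : ∃ n₁ : ℕ, K + 1 ≤ n₁ ∧ m + 1 ≤ n₁ ∧
      (64 + 8 * (5 * I + 4)) * (m : ℝ) ≤ κ * n₁ ∧ 8 * K * (r ^ n₁ / (1 - r)) ≤ θ / 3 := by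
    have t1 : ∀ᶠ n : ℕ in atTop, K + 1 ≤ n := eventually_ge_atTop _
    have t2 : ∀ᶠ n : ℕ in atTop, m + 1 ≤ n := eventually_ge_atTop _
    have t3 : ∀ᶠ n : ℕ in atTop, (64 + 8 * (5 * I + 4)) * (m : ℝ) ≤ κ * n :=
      (tendsto_natCast_atTop_atTop.const_mul_atTop hκ0).eventually_ge_atTop _
    have t4 : ∀ᶠ n : ℕ in atTop, 8 * K * (r ^ n / (1 - r)) ≤ θ / 3 := by
      have h1 := ((tendsto_pow_atTop_nhds_zero_of_lt_one hr0.le hr1).div_const (1 - r)).const_mul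
        (8 * K : ℝ)
      rw [zero_div, mul_zero] at h1
      exact h1.eventually (eventually_le_nhds hθ3)
    exact (t1.and (t2.and (t3.and t4))).exists
  set ℓ := W * n₁ + m with hℓ
  have hℓ1 : 1 ≤ ℓ := by
    have : 1 * 1 ≤ W * n₁ := Nat.mul_le_mul (by omega) (by omega)
    omega
  have hmℓ : m ≤ ℓ := by omega
  have hℓm : W * n₁ ≤ ℓ - m := by omega
  have hn₁ℓ : n₁ ≤ ℓ := by
    have : 1 * n₁ ≤ W * n₁ := Nat.mul_le_mul_right _ (by omega)
    omega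
  have hℓ2 : ℓ ≤ 2 * W * n₁ := by
    have : 1 * n₁ ≤ W * n₁ := Nat.mul_le_mul_right _ (by omega)
    have h2 : 2 * W * n₁ = W * n₁ + W * n₁ := by ring
    omega
  have hn₁pos : (0 : ℝ) < n₁ := by
    have : 0 < n₁ := by omega
    exact_mod_cast this
  have hℓpos : (0 : ℝ) < ℓ := by exact_mod_cast hℓ1
  have hmr : (0 : ℝ) ≤ m := by positivity
  -- sizes of the nets at the levels `n ≥ n₁`
  have hlev : ∀ n : ℕ, n₁ ≤ n → ((m : ℝ) + 1) ^ (Hn ℓ W n) * (2 ^ (ℓ + 2)) ^ ρn η (Hn ℓ W n)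
      ≤ Real.exp (κ / 2 * n) := by
    intro n hn
    apply net_size hℓ1 hη0.le
    have hnr : (n₁ : ℝ) ≤ n := by exact_mod_cast hn
    have hn1r : (1 : ℝ) ≤ n₁ := by
      have : 1 ≤ n₁ := by omega
      exact_mod_cast this
    have hup := Hn_upper (ℓ := ℓ) (W := W) (n := n)
    have hupr : (ℓ : ℝ) * Hn ℓ W n ≤ 2 * W * (n + 1) + ℓ := by exact_mod_cast hup
    set H : ℝ := (Hn ℓ W n : ℝ) with hH
    have hℓr2 : (ℓ : ℝ) ≤ 2 * W * n₁ := by exact_mod_cast hℓ2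
    have hℓr1 : (W : ℝ) * n₁ ≤ ℓ := by
      have : W * n₁ ≤ ℓ := by omega
      exact_mod_cast this
    have a1 : (ℓ : ℝ) * H ≤ 6 * (W * n) := by nlinarith
    have a2 : H * n₁ ≤ 6 * n := by
      have h1 : (W : ℝ) * (H * n₁) ≤ W * (6 * n) := by
        have hHpos : 0 ≤ H := by positivity
        nlinarith
      exact le_of_mul_le_mul_left h1 hWpos
    have a3 : H * m ≤ κ / 8 * n := by
      -- H m ≤ (6 n / n₁) m ≤ 6 n κ / 64
      have h1 : H * (64 * m) ≤ H * (κ * n₁) := by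
        apply mul_le_mul_of_nonneg_left _ (by positivity)
        have h2 : (64 : ℝ) * m ≤ (64 + 8 * (5 * I + 4)) * m := by
          apply mul_le_mul_of_nonneg_right _ hmr
          linarith
        linarith
      have h2 : H * (κ * n₁) = κ * (H * n₁) := by ring
      have h3 : κ * (H * n₁) ≤ κ * (6 * n) := mul_le_mul_of_nonneg_left a2 hκ0.le
      have h4 : (0 : ℝ) ≤ κ * n := by positivity
      nlinarith
    have a4 : 3 * (ℓ : ℝ) * η * H ≤ 3 / 8 * κ * n := by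
      have h1 : 3 * (ℓ : ℝ) * η * H = 3 * η * (ℓ * H) := by ring
      rw [h1]
      have h2 : 3 * η * (ℓ * H) ≤ 3 * η * (6 * (W * n)) :=
        mul_le_mul_of_nonneg_left a1 (by positivity)
      have h3 : 3 * η * (6 * (W * n)) = 18 * (η * W) * n := by ring
      have h4 : 18 * (η * W) * (n : ℝ) ≤ 18 * (κ / 48) * n := by
        apply mul_le_mul_of_nonneg_right _ (by positivity)
        linarith
      linarith
    linarith
  -- N
  have hNev : ∀ᶠ N : ℕ in atTop, K ≤ 2 ^ N ∧ 2 * W + ℓ + 2 ≤ N ∧ n₀ ≤ N ∧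
      2 * Real.pi * K / 2 ^ N ≤ ε / 8 ∧ (n₀ : ℝ) / N ≤ ε / 8 ∧
      8 * K * Real.exp (-(κ / 2 * N)) ≤ θ / 3 := by
    have t1 : ∀ᶠ N : ℕ in atTop, K ≤ 2 ^ N := by
      filter_upwards [eventually_ge_atTop K] with N hN
      exact (hN.trans Nat.lt_two_pow_self.le)
    have t2 : ∀ᶠ N : ℕ in atTop, 2 * W + ℓ + 2 ≤ N := eventually_ge_atTop _
    have t3 : ∀ᶠ N : ℕ in atTop, n₀ ≤ N := eventually_ge_atTop _
    have t4 : ∀ᶠ N : ℕ in atTop, 2 * Real.pi * K / 2 ^ N ≤ ε / 8 := by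
      have h1 : Tendsto (fun N : ℕ => 2 * Real.pi * K / (2 : ℝ) ^ N) atTop (𝓝 0) :=
        tendsto_const_nhds.div_atTop (tendsto_pow_atTop_atTop_of_one_lt (by norm_num))
      exact h1.eventually (eventually_le_nhds (by positivity))
    have t5 : ∀ᶠ N : ℕ in atTop, (n₀ : ℝ) / N ≤ ε / 8 := by
      have h1 : Tendsto (fun N : ℕ => (n₀ : ℝ) / N) atTop (𝓝 0) :=
        tendsto_const_nhds.div_atTop tendsto_natCast_atTop_atTop
      exact h1.eventually (eventually_le_nhds (by positivity))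
    have t6 : ∀ᶠ N : ℕ in atTop, 8 * K * Real.exp (-(κ / 2 * N)) ≤ θ / 3 := by
      have := tend1 (κ := κ / 2) (by positivity) 0 (8 * K) hθ3
      filter_upwards [this] with N hN
      simpa using hN
    exact t1.and (t2.and (t3.and (t4.and (t5.and t6))))
  obtain ⟨q₀, hq₀⟩ := eventually_atTop.1 hNev
  refine ⟨ℓ, η * ε / 56, by positivity, (5 * I + 2) * ℓ,
    Nat.mul_pos (by omega) (by omega), q₀ + 1, fun q hq => ?_⟩
  set N := ℓ * q with hN
  have hqN : q ≤ N := by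
    calc q = 1 * q := by ring
      _ ≤ _ := Nat.mul_le_mul_right _ hℓ1
  obtain ⟨hKN, hNbig, hn₀N, hδN, hn₀N', hBIsize⟩ := hq₀ N (by omega)
  have hCeq : (5 * I + 2) * ℓ * q = (5 * I + 2) * N := by rw [hN]; ring
  rw [hCeq]
  set C : ℕ := 2 ^ ((5 * I + 2) * N) with hC
  have hCr : ((C : ℕ) : ℝ) = 2 ^ ((5 * I + 2) * N) := by rw [hC]; push_cast; rfl
  have hC0 : (0 : ℝ) ≤ C := by positivity
  set z : ℝ := (a₀ : ℝ) / D with hz
  set H := (5 * I + 4) * q with hH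
  have hHpos : 0 < H := Nat.mul_pos (by omega) (by omega)
  have hℓH : ℓ * H = (5 * I + 4) * N := by rw [hH, hN]; ring
  -- exceptional sets
  obtain ⟨B0, hB0c, hB0⟩ := bad0 (m := m) (K := K) (n := n₀) (C := C) hcop hodd hKD (by
    rw [hC]
    calc D * 2 ^ n₀ ≤ 2 ^ m * 2 ^ n₀ := Nat.mul_le_mul_right _ hDm.le
      _ = 2 ^ (m + n₀) := by rw [pow_add]
      _ ≤ 2 ^ ((5 * I + 2) * N) := by
          apply Nat.pow_le_pow_right (by norm_num)
          have : 2 * N ≤ (5 * I + 2) * N := Nat.mul_le_mul_right _ (by omega)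
          omega) hε₁0.le hε₁1
  obtain ⟨B1, hB1c, hB1⟩ := bad1 (m := m) (z := z) (ρ := ρn η H) (K := K) hKN hℓH hC hε₁0.le hε₁1
  have hex2 : ∀ n : ℕ, ∃ B : Finset ℕ, n₁ ≤ n → W * n ≤ 2 * N →
      ((B.card : ℝ) ≤ K * ((m + 1) ^ (Hn ℓ W n) * (2 ^ (ℓ + 2)) ^ (ρn η (Hn ℓ W n))) *
        (8 * Real.exp (-(ε₁ ^ 2 * n / 32)) * C) ∧
      ∀ c < C, c ∉ B → ∀ (f : ℕ) (a : ℤ), IsCoprime a (f : ℤ) → 2 ^ (W * n) ≤ f →
        f < 2 ^ (W * (n + 1)) →
        (∃ x : ℝ, |x - a / f| < 1 / 2 ^ (2 * W * (n + 1) + 2) ∧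
          nb m z ℓ (Hn ℓ W n) x ≤ ρn η (Hn ℓ W n)) →
        ∀ k, 1 ≤ k → k ≤ K → ‖∑ j ∈ range n, e (k * 2 ^ j * c * ((a : ℝ) / f))‖ ≤ ε₁ * n) := by
    intro n
    by_cases hn : n₁ ≤ n ∧ W * n ≤ 2 * N
    · have hKn : K * 2 ^ n < 2 ^ (W * n) := by
        have h1 : K < 2 ^ n := lt_of_lt_of_le Nat.lt_two_pow_self
          (Nat.pow_le_pow_right (by norm_num) (by omega))
        calc K * 2 ^ n < 2 ^ n * 2 ^ n := Nat.mul_lt_mul_of_pos_right h1 (by positivity)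
          _ = 2 ^ (2 * n) := by rw [← pow_add]; congr 1; ring
          _ ≤ 2 ^ (W * n) := Nat.pow_le_pow_right (by norm_num) (Nat.mul_le_mul_right _ hW2)
      obtain ⟨B, hB⟩ := bad2 (m := m) (z := z) (ℓ := ℓ) (H := Hn ℓ W n) (ρ := ρn η (Hn ℓ W n))
        (K := K) (n := n) (W := W) (C := C) hKn (Hn_lower hℓ1) (by
          rw [hC, ← pow_add]
          apply Nat.pow_le_pow_right (by norm_num)
          have h1 : W * (n + 1) = W * n + W := by ring
          have h2 : 2 * n ≤ W * n := Nat.mul_le_mul_right _ hW2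
          have h3 : 7 * N ≤ (5 * I + 2) * N := Nat.mul_le_mul_right _ (by omega)
          omega) hε₁0.le hε₁1
      exact ⟨B, fun _ _ => hB⟩
    · exact ⟨∅, fun h1 h2 => absurd ⟨h1, h2⟩ hn⟩
  choose B2 hB2 using hex2
  set J := (Icc n₁ (2 * N)).filter fun n => W * n ≤ 2 * N with hJ
  refine ⟨(B0 ∪ B1) ∪ J.biUnion B2, ?_, ?_⟩
  · have c0 : (B0.card : ℝ) ≤ θ / 3 * C := by
      refine hB0c.trans ?_
      rw [hκn]
      have := mul_le_mul_of_nonneg_right hB0size hC0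
      linarith
    have c1 : (B1.card : ℝ) ≤ θ / 3 * C := by
      refine hB1c.trans ?_
      rw [hκn]
      have h1 : ((m : ℝ) + 1) ^ H * (2 ^ (ℓ + 2)) ^ ρn η H ≤ Real.exp (κ / 2 * N) := by
        apply net_size hℓ1 hη0.le
        have hHr : ((ℓ : ℕ) : ℝ) * H = (5 * I + 4) * N := by exact_mod_cast hℓH
        have a1 : 3 * (ℓ : ℝ) * η * H = 3 * (η * (5 * I + 4)) * N := by
          calc 3 * (ℓ : ℝ) * η * H = 3 * η * (ℓ * H) := by ring
            _ = _ := by rw [hHr]; ring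
        have a2 : 3 * (η * (5 * I + 4)) * (N : ℝ) ≤ 3 * (κ / 48) * N := by
          apply mul_le_mul_of_nonneg_right _ (by positivity)
          linarith
        have a3 : (H : ℝ) * m ≤ κ / 8 * N := by
          have h2 : (ℓ : ℝ) * (H * m) ≤ ℓ * (κ / 8 * N) := by
            calc (ℓ : ℝ) * (H * m) = (5 * I + 4) * N * m := by rw [← hHr]; ring
              _ ≤ (κ * n₁ / 8) * N := by
                  have h3 : 8 * (5 * (I : ℝ) + 4) * m ≤ κ * n₁ := by
                    have h4 : 8 * (5 * (I : ℝ) + 4) * m ≤ (64 + 8 * (5 * I + 4)) * m := by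
                      apply mul_le_mul_of_nonneg_right _ hmr
                      linarith
                    linarith
                  have h5 : (0 : ℝ) ≤ N := by positivity
                  nlinarith
              _ ≤ ℓ * (κ / 8 * N) := by
                  have h3 : (n₁ : ℝ) ≤ ℓ := by exact_mod_cast hn₁ℓ
                  have h5 : (0 : ℝ) ≤ κ / 8 * N := by positivity
                  nlinarith
          exact le_of_mul_le_mul_left h2 hℓpos
        rw [a1]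
        have h6 : (0 : ℝ) ≤ κ * N := by positivity
        linarith
      have h2 : Real.exp (κ / 2 * N) * Real.exp (-(κ * N)) = Real.exp (-(κ / 2 * N)) := by
        rw [← Real.exp_add]; congr 1; ring
      calc K * (((m : ℝ) + 1) ^ H * (2 ^ (ℓ + 2)) ^ ρn η H) * (8 * Real.exp (-(κ * N)) * C)
          ≤ K * Real.exp (κ / 2 * N) * (8 * Real.exp (-(κ * N)) * C) := by gcongr
        _ = 8 * K * (Real.exp (κ / 2 * N) * Real.exp (-(κ * N))) * C := by ring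
        _ = 8 * K * Real.exp (-(κ / 2 * N)) * C := by rw [h2]
        _ ≤ θ / 3 * C := mul_le_mul_of_nonneg_right hBIsize hC0
    have c2 : ((J.biUnion B2).card : ℝ) ≤ θ / 3 * C := by
      have h1 := card_biUnion_le (s := J) (t := B2)
      refine (Nat.cast_le (α := ℝ).2 h1).trans ?_
      push_cast
      have h2 : ∀ n ∈ J, ((B2 n).card : ℝ) ≤ 8 * K * C * r ^ n := by
        intro n hn
        rw [hJ, mem_filter, mem_Icc] at hn
        refine (hB2 n hn.1.1 hn.2).1.trans ?_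
        rw [hκn]
        have h3 := hlev n hn.1.1
        have h4 : Real.exp (κ / 2 * n) * Real.exp (-(κ * n)) = r ^ n := by
          rw [← Real.exp_add, ← hrn]; congr 1; ring
        calc K * (((m : ℝ) + 1) ^ (Hn ℓ W n) * (2 ^ (ℓ + 2)) ^ ρn η (Hn ℓ W n)) *
              (8 * Real.exp (-(κ * n)) * C)
            ≤ K * Real.exp (κ / 2 * n) * (8 * Real.exp (-(κ * n)) * C) := by gcongr
          _ = 8 * K * C * (Real.exp (κ / 2 * n) * Real.exp (-(κ * n))) := by ring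
          _ = 8 * K * C * r ^ n := by rw [h4]
      refine (sum_le_sum h2).trans ?_
      rw [← mul_sum]
      have h3 : ∑ n ∈ J, r ^ n ≤ ∑ n ∈ Ico n₁ (2 * N + 1), r ^ n := by
        apply sum_le_sum_of_subset_of_nonneg
        · intro n hn
          rw [hJ, mem_filter, mem_Icc] at hn
          rw [mem_Ico]
          omega
        · intro n _ _
          positivity
      have h4 := geom_sum_Ico_le_of_lt_one (m := n₁) (n := 2 * N + 1) hr0.le hr1
      have h5 := h3.trans h4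
      calc 8 * K * C * ∑ n ∈ J, r ^ n ≤ 8 * K * C * (r ^ n₁ / (1 - r)) :=
            mul_le_mul_of_nonneg_left h5 (by positivity)
        _ = 8 * K * (r ^ n₁ / (1 - r)) * C := by ring
        _ ≤ θ / 3 * C := mul_le_mul_of_nonneg_right hn₁θ hC0
    have h1 : ((B0 ∪ B1) ∪ J.biUnion B2).card ≤ B0.card + B1.card + (J.biUnion B2).card :=
      (card_union_le _ _).trans (Nat.add_le_add_right (card_union_le _ _) _)
    have h2 : ((((B0 ∪ B1) ∪ J.biUnion B2).card : ℕ) : ℝ)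
        ≤ B0.card + B1.card + (J.biUnion B2).card := by exact_mod_cast h1
    rw [← hCr]
    linarith
  · intro c hc hcB x n hx hη' k hk1 hk2
    rw [mem_union, mem_union] at hcB
    push Not at hcB
    obtain ⟨⟨hc0, hc1⟩, hc2⟩ := hcB
    have hgood : Good m z ℓ W N K n₀ n₁ c ε₁ η := by
      refine ⟨fun t ht k hk1 hk2 => hB0 c hc hc0 t ht k hk1 hk2, ?_⟩
      intro n hn1 hn2 f a h1 h2 h3 h4 k hk1 hk2
      refine (hB2 n hn1 hn2).2 c hc ?_ f a h1 h2 h3 h4 k hk1 hk2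
      intro hcon
      apply hc2
      rw [mem_biUnion]
      refine ⟨n, ?_, hcon⟩
      rw [hJ, mem_filter, mem_Icc]
      have h5 : 2 * n ≤ W * n := Nat.mul_le_mul_right _ hW2
      exact ⟨⟨hn1, by omega⟩, hn2⟩
    have hmain := per_bound (H := H) hI1 hℓ1 hmℓ hW2 hNbig hn₀1 hn₀N hD1 hDm hη0 hη1 hε₁0.le hc
      (by omega) hℓm hHpos hgood (fun x hx hnb k hk1 hk2 => hB1 c hc hc1 x hx hnb k hk1 hk2) hx hη'
      hk1 hk2
    refine hmain.trans ?_
    rw [mul_comm ε]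
    apply mul_le_mul_of_nonneg_left _ (by positivity)
    have e1 : 7 * (η * ε / 56 / η) = ε / 8 := by field_simp; norm_num
    have e2 : (2 : ℝ) / W ≤ ε / 8 := by
      rw [div_le_iff₀ hWpos]
      have := mul_le_mul_of_nonneg_left hWr (by positivity : 0 ≤ ε / 8)
      have h3 : ε / 8 * (16 / ε) = 2 := by field_simp; norm_num
      linarith
    have e3 : (2 : ℝ) / I ≤ ε / 8 := by
      rw [div_le_iff₀ hIpos]
      have := mul_le_mul_of_nonneg_left hIr (by positivity : 0 ≤ ε / 8)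
      have h3 : ε / 8 * (16 / ε) = 2 := by field_simp; norm_num
      linarith
    rw [e1]
    linarith

end Pool.Agent.Run7.h792.GM
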