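import Mathlib
import Pool.Agent.H520R3.Weyl

/-! Periodic orbit measures with large denominators are dense among the invariant measures. -/

set_option autoImplicit false

namespace Pool.Agent.Run7.h792.GM

open Finset MeasureTheory
open Pool.Agent.H520R3 (e norm_e e_add e_zero e_neg e_int e_add_int e_sub_int norm_e_sub_e_le
  four_mul_le geom_bound e_mul_nat)

lemma blocks (L : ℕ) : ∀ (R : ℕ) (y : ℕ → ℝ), ∃ b : ℕ, b < 2 ^ (L * R) ∧
    ∀ r < R, ∃ p : ℤ, |2 ^ (L * r) * ((b : ℝ) / 2 ^ (L * R)) - y r - p| ≤ 2 / 2 ^ L := by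
  intro R
  induction R with
  | zero =>
    intro y
    exact ⟨0, by simp, fun r hr => absurd hr (Nat.not_lt_zero r)⟩
  | succ R ih =>
    intro y
    obtain ⟨b, hb, hbr⟩ := ih (fun r => y (r + 1))
    set u := ⌊Int.fract (y 0) * 2 ^ L⌋₊ with hu
    have hp : (0 : ℝ) < 2 ^ L := by positivity
    have hpR : (0 : ℝ) < 2 ^ (L * R) := by positivity
    have u1 : (u : ℝ) ≤ Int.fract (y 0) * 2 ^ L :=
      Nat.floor_le (mul_nonneg (Int.fract_nonneg _) hp.le)
    have u2 : Int.fract (y 0) * 2 ^ L < u + 1 := Nat.lt_floor_add_one _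
    have u3 : u < 2 ^ L := by
      have h1 : (u : ℝ) < 2 ^ L := by
        have := Int.fract_lt_one (y 0)
        nlinarith
      exact_mod_cast h1
    have hbr' : (b : ℝ) < 2 ^ (L * R) := by exact_mod_cast hb
    refine ⟨u * 2 ^ (L * R) + b, ?_, ?_⟩
    · calc u * 2 ^ (L * R) + b < u * 2 ^ (L * R) + 2 ^ (L * R) := by omega
        _ = (u + 1) * 2 ^ (L * R) := by ring
        _ ≤ 2 ^ L * 2 ^ (L * R) := Nat.mul_le_mul_right _ u3
        _ = 2 ^ (L * (R + 1)) := by rw [← pow_add]; congr 1; ring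
    · intro r hr
      have epow : (2 : ℝ) ^ (L * (R + 1)) = 2 ^ L * 2 ^ (L * R) := by
        rw [← pow_add]; congr 1; ring
      rcases Nat.eq_zero_or_pos r with h0 | hpos
      · subst h0
        refine ⟨-⌊y 0⌋, ?_⟩
        have e1 : 2 ^ (L * 0) * (((u * 2 ^ (L * R) + b : ℕ) : ℝ) / 2 ^ (L * (R + 1))) - y 0
            - ((-⌊y 0⌋ : ℤ) : ℝ)
            = ((u : ℝ) / 2 ^ L - Int.fract (y 0)) + (b : ℝ) / (2 ^ L * 2 ^ (L * R)) := by
          rw [epow, Int.fract]
          push_cast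
          field_simp
          ring
        rw [e1]
        have a1 : |(u : ℝ) / 2 ^ L - Int.fract (y 0)| ≤ 1 / 2 ^ L := by
          have : (u : ℝ) / 2 ^ L - Int.fract (y 0) = (u - Int.fract (y 0) * 2 ^ L) / 2 ^ L := by
            field_simp
          rw [this, abs_div, abs_of_pos hp]
          apply div_le_div_of_nonneg_right _ hp.le
          rw [abs_le]
          constructor <;> linarith
        have a2 : |(b : ℝ) / (2 ^ L * 2 ^ (L * R))| ≤ 1 / 2 ^ L := by
          rw [abs_of_nonneg (by positivity), div_le_div_iff₀ (by positivity) hp]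
          nlinarith
        refine (abs_add_le _ _).trans ?_
        have : (2 : ℝ) / 2 ^ L = 1 / 2 ^ L + 1 / 2 ^ L := by ring
        linarith
      · obtain ⟨r', rfl⟩ : ∃ r', r = r' + 1 := ⟨r - 1, by omega⟩
        obtain ⟨p, hp'⟩ := hbr r' (by omega)
        refine ⟨p + 2 ^ (L * r') * u, ?_⟩
        have e1 : 2 ^ (L * (r' + 1)) * (((u * 2 ^ (L * R) + b : ℕ) : ℝ) / 2 ^ (L * (R + 1)))
            - y (r' + 1) - ((p + 2 ^ (L * r') * u : ℤ) : ℝ)
            = 2 ^ (L * r') * ((b : ℝ) / 2 ^ (L * R)) - y (r' + 1) - p := by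
          have e2 : (2 : ℝ) ^ (L * (r' + 1)) = 2 ^ L * 2 ^ (L * r') := by
            rw [← pow_add]; congr 1; ring
          rw [epow, e2]
          push_cast
          field_simp
          ring
        rw [e1]
        exact hp'

lemma gcd_choice (M b : ℕ) (hM : 1 ≤ M) : ∃ b', (b' = b ∨ b' = b + 1) ∧ (Nat.gcd b' M) ^ 2 ≤ M := by
  by_contra hcon
  push Not at hcon
  have h1 := hcon b (Or.inl rfl)
  have h2 := hcon (b + 1) (Or.inr rfl)
  have hcop : Nat.Coprime (Nat.gcd b M) (Nat.gcd (b + 1) M) := by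
    have h3 : Nat.Coprime b (b + 1) := by simp
    exact (h3.coprime_dvd_left (Nat.gcd_dvd_left _ _)).coprime_dvd_right (Nat.gcd_dvd_left _ _)
  have h3 : Nat.gcd b M * Nat.gcd (b + 1) M ∣ M :=
    hcop.mul_dvd_of_dvd_of_dvd (Nat.gcd_dvd_right _ _) (Nat.gcd_dvd_right _ _)
  have h4 := Nat.le_of_dvd (by omega) h3
  set g := Nat.gcd b M
  set g' := Nat.gcd (b + 1) M
  have h5 : (g * g') ^ 2 ≤ M ^ 2 := Nat.pow_le_pow_left h4 2
  have h6 : M * M < g ^ 2 * g' ^ 2 := Nat.mul_lt_mul'' h1 h2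
  have h7 : (g * g') ^ 2 = g ^ 2 * g' ^ 2 := by ring
  rw [h7] at h5
  have h8 : M ^ 2 = M * M := by ring
  omega

/-- sum over blocks -/
lemma sum_blocks {E : Type*} [AddCommMonoid E] (f : ℕ → E) (L R : ℕ) :
    ∑ j ∈ range (L * R), f j = ∑ r ∈ range R, ∑ t ∈ range L, f (L * r + t) := by
  induction R with
  | zero => simp
  | succ R ih =>
    rw [sum_range_succ, ← ih, mul_add, mul_one, sum_range_add]

lemma geo2 (n : ℕ) : ∑ j ∈ range n, (2 : ℝ) ^ j ≤ 2 ^ n := by
  have h := geom_sum_eq (x := (2 : ℝ)) (by norm_num) n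
  rw [h]
  norm_num

/-- the orbit of the chosen periodic point follows the blocks -/
lemma follow {L R b b' : ℕ} (hm : 1 ≤ L * R) {y : ℕ → ℝ} (hb : b < 2 ^ (L * R))
    (hbr : ∀ r < R, ∃ p : ℤ, |2 ^ (L * r) * ((b : ℝ) / 2 ^ (L * R)) - y r - p| ≤ 2 / 2 ^ L)
    (hb' : b' = b ∨ b' = b + 1) (k : ℤ) :
    ‖∑ j ∈ range (L * R), e (k * (2 ^ j * ((b' : ℝ) / (2 ^ (L * R) - 1))))
      - ∑ r ∈ range R, ∑ t ∈ range L, e (k * (2 ^ t * y r))‖
      ≤ 2 * Real.pi * |(k : ℝ)| * (4 + 2 * R) := by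
  set m := L * R with hmd
  set z : ℝ := (b' : ℝ) / (2 ^ m - 1) with hz
  set w : ℝ := (b : ℝ) / 2 ^ m with hw
  have h2m : (2 : ℝ) ≤ 2 ^ m := by
    have : (2 : ℝ) ^ 1 ≤ 2 ^ m := pow_le_pow_right₀ (by norm_num) hm
    linarith
  have hM : (2 : ℝ) ^ m / 2 ≤ 2 ^ m - 1 := by linarith
  have hMpos : (0 : ℝ) < 2 ^ m - 1 := by linarith
  have hbr0 : (b : ℝ) < 2 ^ m := by exact_mod_cast hb
  have hzw : |z - w| ≤ 4 / 2 ^ m := by
    have e1 : z - w = ((b' : ℝ) - b) / (2 ^ m - 1) + (b : ℝ) / ((2 ^ m - 1) * 2 ^ m) := by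
      rw [hz, hw]
      field_simp
      ring
    rw [e1]
    refine (abs_add_le _ _).trans ?_
    have a1 : |((b' : ℝ) - b) / (2 ^ m - 1)| ≤ 2 / 2 ^ m := by
      rw [abs_div, abs_of_pos hMpos]
      have : |(b' : ℝ) - b| ≤ 1 := by
        rcases hb' with h | h
        · rw [h]; simp
        · rw [h]; push_cast; simp
      rw [div_le_div_iff₀ hMpos (by positivity)]
      nlinarith
    have a2 : |(b : ℝ) / ((2 ^ m - 1) * 2 ^ m)| ≤ 2 / 2 ^ m := by
      rw [abs_of_nonneg (by positivity), div_le_div_iff₀ (by positivity) (by positivity)]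
      have : (b : ℝ) * 2 ^ m ≤ 2 * (2 ^ m - 1) * 2 ^ m := by
        apply mul_le_mul_of_nonneg_right _ (by positivity)
        linarith
      linarith
    have : (4 : ℝ) / 2 ^ m = 2 / 2 ^ m + 2 / 2 ^ m := by ring
    linarith
  have hpt : ∀ r < R, ∀ t < L, ‖e (k * (2 ^ (L * r + t) * z)) - e (k * (2 ^ t * y r))‖
      ≤ 2 * Real.pi * |(k : ℝ)| * (2 ^ (L * r + t) * (4 / 2 ^ m) + 2 ^ t * (2 / 2 ^ L)) := by
    intro r hr t ht
    obtain ⟨p, hp⟩ := hbr r hr
    have e1 : e (k * (2 ^ t * y r)) = e (k * (2 ^ t * (y r + p))) := by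
      rw [show (k : ℝ) * (2 ^ t * (y r + p)) = k * (2 ^ t * y r) + ((k * 2 ^ t * p : ℤ) : ℝ) by
        push_cast; ring, e_add_int]
    rw [e1]
    refine (norm_e_sub_e_le _ _).trans ?_
    rw [← mul_sub, abs_mul, ← mul_assoc]
    apply mul_le_mul_of_nonneg_left _ (by positivity)
    have e2 : (2 : ℝ) ^ (L * r + t) * z - 2 ^ t * (y r + p)
        = 2 ^ (L * r + t) * (z - w) + 2 ^ t * (2 ^ (L * r) * w - y r - p) := by
      rw [pow_add]; ring
    rw [e2]
    refine (abs_add_le _ _).trans ?_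
    rw [abs_mul, abs_mul, abs_of_pos (by positivity : (0 : ℝ) < 2 ^ (L * r + t)),
      abs_of_pos (by positivity : (0 : ℝ) < 2 ^ t)]
    exact add_le_add (mul_le_mul_of_nonneg_left hzw (by positivity))
      (mul_le_mul_of_nonneg_left hp (by positivity))
  rw [sum_blocks, ← sum_sub_distrib]
  refine (norm_sum_le _ _).trans ?_
  have h1 : ∀ r ∈ range R, ‖∑ t ∈ range L, e (k * (2 ^ (L * r + t) * z))
      - ∑ t ∈ range L, e (k * (2 ^ t * y r))‖
      ≤ ∑ t ∈ range L, 2 * Real.pi * |(k : ℝ)| *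
        (2 ^ (L * r + t) * (4 / 2 ^ m) + 2 ^ t * (2 / 2 ^ L)) := by
    intro r hr
    rw [← sum_sub_distrib]
    exact (norm_sum_le _ _).trans (sum_le_sum fun t ht => hpt r (mem_range.1 hr) t (mem_range.1 ht))
  refine (sum_le_sum h1).trans ?_
  simp_rw [← mul_sum, sum_add_distrib, ← sum_mul]
  apply mul_le_mul_of_nonneg_left _ (by positivity)
  apply add_le_add
  · rw [← sum_blocks (fun j => (2 : ℝ) ^ j), ← hmd]
    have := mul_le_mul_of_nonneg_right (geo2 m) (by positivity : (0 : ℝ) ≤ 4 / 2 ^ m)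
    refine this.trans (le_of_eq ?_)
    field_simp
  · rw [sum_const, card_range, nsmul_eq_mul]
    have := mul_le_mul_of_nonneg_right (geo2 L) (by positivity : (0 : ℝ) ≤ 2 / 2 ^ L)
    have h3 : (2 : ℝ) ^ L * (2 / 2 ^ L) = 2 := by field_simp
    rw [h3] at this
    calc (R : ℝ) * (∑ i ∈ range L, 2 ^ i) * (2 / 2 ^ L)
        = R * ((∑ i ∈ range L, 2 ^ i) * (2 / 2 ^ L)) := by ring
      _ ≤ R * 2 := mul_le_mul_of_nonneg_left this (by positivity)
      _ = 2 * R := by ring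

/-- greedy selection of points -/
lemma greedy (μ : Measure UnitAddCircle) [IsProbabilityMeasure μ] (S : Finset ℤ)
    (v : ℤ → C(UnitAddCircle, ℂ)) (hv : ∀ k x, ‖v k x‖ ≤ 1) (R : ℕ) :
    ∃ x : ℕ → UnitAddCircle, ∑ k ∈ S, ‖∑ r ∈ range R, (v k (x r) - ∫ y, v k y ∂μ)‖ ^ 2
      ≤ 4 * S.card * R := by
  have hint : ∀ f : C(UnitAddCircle, ℂ), Integrable f μ := fun f =>
    f.continuous.integrable_of_hasCompactSupport (HasCompactSupport.of_compactSpace f)
  have hmean : ∀ k, ‖∫ y, v k y ∂μ‖ ≤ 1 := by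
    intro k
    have := norm_integral_le_of_norm_le_const (μ := μ) (f := fun y => v k y) (C := 1)
      (Filter.Eventually.of_forall (hv k))
    simpa using this
  induction R with
  | zero => exact ⟨fun _ => 0, by simp⟩
  | succ R ih =>
    obtain ⟨x, hx⟩ := ih
    set s : ℤ → ℂ := fun k => ∑ r ∈ range R, (v k (x r) - ∫ y, v k y ∂μ) with hs
    set g : UnitAddCircle → ℝ := fun y =>
      (∑ k ∈ S, (starRingEnd ℂ) (s k) * (v k y - ∫ y, v k y ∂μ)).re with hg
    have hgi : Integrable (fun y => ∑ k ∈ S, (starRingEnd ℂ) (s k) * (v k y - ∫ y, v k y ∂μ)) μ :=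
      integrable_finsetSum _ fun k _ => ((hint (v k)).sub (integrable_const _)).const_mul _
    have hg0 : ∫ y, g y ∂μ = 0 := by
      have h1 : ∫ y, g y ∂μ = (∫ y, ∑ k ∈ S, (starRingEnd ℂ) (s k) *
          (v k y - ∫ y, v k y ∂μ) ∂μ).re := by
        exact integral_re hgi
      rw [h1, integral_finsetSum (f := fun k y => (starRingEnd ℂ) (s k) *
        (v k y - ∫ y, v k y ∂μ)) _ (fun k _ =>
        ((hint (v k)).sub (integrable_const _)).const_mul _)]
      have h2 : ∀ k ∈ S, ∫ y, (starRingEnd ℂ) (s k) * (v k y - ∫ y, v k y ∂μ) ∂μ = 0 := by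
        intro k _
        rw [integral_const_mul, integral_sub (hint (v k)) (integrable_const _)]
        simp
      rw [sum_eq_zero h2]
      simp
    obtain ⟨y, hy⟩ := exists_le_integral (μ := μ) (f := g) hgi.re
    rw [hg0] at hy
    refine ⟨Function.update x R y, ?_⟩
    have h1 : ∀ k, ∑ r ∈ range (R + 1), (v k (Function.update x R y r) - ∫ y, v k y ∂μ)
        = s k + (v k y - ∫ y, v k y ∂μ) := by
      intro k
      rw [sum_range_succ, Function.update_self]
      congr 1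
      refine sum_congr rfl fun r hr => ?_
      rw [Function.update_of_ne (by rw [mem_range] at hr; omega)]
    simp_rw [h1]
    have h2 : ∀ k, ‖s k + (v k y - ∫ y, v k y ∂μ)‖ ^ 2
        = ‖s k‖ ^ 2 + 2 * ((starRingEnd ℂ) (s k) * (v k y - ∫ y, v k y ∂μ)).re
          + ‖v k y - ∫ y, v k y ∂μ‖ ^ 2 := by
      intro k
      set d := v k y - ∫ y, v k y ∂μ
      rw [← Complex.normSq_eq_norm_sq, ← Complex.normSq_eq_norm_sq, ← Complex.normSq_eq_norm_sq,
        Complex.normSq_apply, Complex.normSq_apply, Complex.normSq_apply]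
      simp
      ring
    simp_rw [h2]
    rw [sum_add_distrib, sum_add_distrib, ← mul_sum, ← Complex.re_sum]
    have h3 : ∑ k ∈ S, ‖v k y - ∫ y, v k y ∂μ‖ ^ 2 ≤ 4 * S.card := by
      have h4 : ∀ k ∈ S, ‖v k y - ∫ y, v k y ∂μ‖ ^ 2 ≤ 4 := by
        intro k _
        have a1 := norm_sub_le (v k y) (∫ y, v k y ∂μ)
        have a2 := hv k y
        have a3 := hmean k
        have a4 := norm_nonneg (v k y - ∫ y, v k y ∂μ)
        nlinarith
      refine (sum_le_sum h4).trans ?_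
      rw [sum_const, nsmul_eq_mul, mul_comm]
    have hy' : (∑ k ∈ S, (starRingEnd ℂ) (s k) * (v k y - ∫ y, v k y ∂μ)).re ≤ 0 := hy
    push_cast
    linarith

end Pool.Agent.Run7.h792.GM
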