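import Mathlib
import Pool.Agent.Run7.h792.GM.Dense

/-! Periodic orbit measures with large denominators are dense among the invariant measures. -/

set_option autoImplicit false

namespace Pool.Agent.Run7.h792.GM

open Finset MeasureTheory
open Pool.Agent.H520R3 (e norm_e e_add e_zero e_neg e_int e_add_int e_sub_int norm_e_sub_e_le
  four_mul_le geom_bound e_mul_nat)

lemma fourier_e (k : ℤ) (y : ℝ) : (fourier k ((y : ℝ) : UnitAddCircle) : ℂ) = e (k * y) := by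
  rw [fourier_coe_apply]
  unfold e
  congr 1
  push_cast
  ring

lemma two_pow_smul_coe (t : ℕ) (y : ℝ) :
    (2 ^ t : ℕ) • ((y : ℝ) : UnitAddCircle) = ((2 ^ t * y : ℝ) : UnitAddCircle) := by
  rw [← AddCircle.coe_nsmul]
  congr 1
  rw [nsmul_eq_mul]
  push_cast
  rfl

lemma integrable_c (μ : Measure UnitAddCircle) [IsFiniteMeasure μ] (f : C(UnitAddCircle, ℂ)) :
    Integrable f μ :=
  f.continuous.integrable_of_hasCompactSupport (HasCompactSupport.of_compactSpace f)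

lemma int_inv {μ : Measure UnitAddCircle} [IsProbabilityMeasure μ]
    (hμ : μ.map (fun x : UnitAddCircle => (2 : ℕ) • x) = μ) (f : C(UnitAddCircle, ℂ)) (t : ℕ) :
    ∫ x, f ((2 ^ t : ℕ) • x) ∂μ = ∫ x, f x ∂μ := by
  induction t with
  | zero => simp
  | succ t ih =>
    rw [← ih]
    conv_rhs => rw [← hμ]
    rw [integral_map (by fun_prop) (by
      have h1 : Continuous fun x : UnitAddCircle => f ((2 ^ t : ℕ) • x) := by fun_prop
      exact h1.aestronglyMeasurable)]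
    refine integral_congr_ae (Filter.Eventually.of_forall fun x => ?_)
    simp only
    rw [smul_smul, pow_succ]

/-- block average -/
noncomputable def bav (L : ℕ) (k : ℤ) : C(UnitAddCircle, ℂ) :=
  ⟨fun x => (∑ t ∈ range L, fourier k ((2 ^ t : ℕ) • x)) / L, by fun_prop⟩

lemma bav_apply (L : ℕ) (k : ℤ) (x : UnitAddCircle) :
    bav L k x = (∑ t ∈ range L, fourier k ((2 ^ t : ℕ) • x)) / L := rfl

lemma norm_fourier_le (k : ℤ) (x : UnitAddCircle) : ‖(fourier k x : ℂ)‖ ≤ 1 := by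
  rw [fourier_apply]
  exact (Circle.norm_coe _).le

lemma bav_norm (L : ℕ) (k : ℤ) (x : UnitAddCircle) : ‖bav L k x‖ ≤ 1 := by
  rw [bav_apply, norm_div, Complex.norm_natCast]
  apply div_le_one_of_le₀ _ (by positivity)
  refine (norm_sum_le _ _).trans ?_
  refine (sum_le_sum fun t _ => norm_fourier_le k _).trans ?_
  simp

lemma bav_int {μ : Measure UnitAddCircle} [IsProbabilityMeasure μ]
    (hμ : μ.map (fun x : UnitAddCircle => (2 : ℕ) • x) = μ) {L : ℕ} (hL : 1 ≤ L) (k : ℤ) :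
    ∫ x, bav L k x ∂μ = ∫ x, fourier k x ∂μ := by
  have hL0 : (L : ℂ) ≠ 0 := by
    have : L ≠ 0 := by omega
    exact_mod_cast this
  simp_rw [bav_apply]
  rw [integral_div, integral_finsetSum]
  · rw [sum_congr rfl fun t _ => int_inv hμ (fourier k) t, sum_const, card_range, nsmul_eq_mul]
    field_simp
  · intro t _
    have h1 : Continuous fun x : UnitAddCircle => (fourier k ((2 ^ t : ℕ) • x) : ℂ) := by fun_prop
    exact integrable_c μ ⟨_, h1⟩

theorem dense_per (μ : Measure UnitAddCircle) [IsProbabilityMeasure μ]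
    (hμ : μ.map (fun x : UnitAddCircle => (2 : ℕ) • x) = μ) (S : Finset ℤ) {ε : ℝ} (hε : 0 < ε)
    (m₀ : ℕ) :
    ∃ m, m₀ ≤ m ∧ 1 ≤ m ∧ ∃ (D : ℕ) (a₀ : ℤ), IsCoprime a₀ (D : ℤ) ∧ Odd D ∧ 1 ≤ D ∧ D < 2 ^ m ∧
      2 ^ m ≤ 2 * D ^ 2 ∧ (∃ p : ℤ, 2 ^ m * ((a₀ : ℝ) / D) = (a₀ : ℝ) / D + p) ∧
      ∀ k ∈ S, ‖(∑ j ∈ range m, e (k * (2 ^ j * ((a₀ : ℝ) / D)))) / m
        - ∫ x, (fourier k x : ℂ) ∂μ‖ ≤ ε := by
  obtain ⟨B, hB⟩ : ∃ B : ℝ, 0 ≤ B ∧ ∀ k ∈ S, |(k : ℝ)| ≤ B := by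
    refine ⟨∑ k ∈ S, |(k : ℝ)|, sum_nonneg fun _ _ => abs_nonneg _, fun k hk => ?_⟩
    exact single_le_sum (f := fun k : ℤ => |(k : ℝ)|) (fun _ _ => abs_nonneg _) hk
  obtain ⟨hB0, hB⟩ := hB
  obtain ⟨L₀, hL₀⟩ := exists_nat_ge (24 * Real.pi * B / ε)
  set L := L₀ + m₀ + 1 with hL
  have hL1 : 1 ≤ L := by omega
  have hLr : (0 : ℝ) < L := by exact_mod_cast hL1
  have hLε : 12 * Real.pi * B / L ≤ ε / 2 := by
    rw [div_le_iff₀ hLr]
    have h1 : 24 * Real.pi * B ≤ L₀ * ε := by rwa [div_le_iff₀ hε] at hL₀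
    have h2 : (L₀ : ℝ) ≤ L := by rw [hL]; push_cast; linarith
    nlinarith
  obtain ⟨R₀, hR₀⟩ := exists_nat_ge (16 * S.card / ε ^ 2)
  set R := R₀ + 1 with hR
  have hR1 : 1 ≤ R := by omega
  have hRr : (0 : ℝ) < R := by exact_mod_cast hR1
  have hRε : 4 * S.card * R ≤ (ε / 2 * R) ^ 2 := by
    have h1 : 16 * (S.card : ℝ) ≤ R₀ * ε ^ 2 := by rwa [div_le_iff₀ (by positivity)] at hR₀
    have h2 : (R₀ : ℝ) ≤ R := by rw [hR]; push_cast; linarith
    have h3 : 16 * (S.card : ℝ) ≤ R * ε ^ 2 := by nlinarith [sq_nonneg ε]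
    have h4 : (16 * (S.card : ℝ)) * R ≤ (R * ε ^ 2) * R := mul_le_mul_of_nonneg_right h3 hRr.le
    nlinarith
  obtain ⟨x, hx⟩ := greedy μ S (bav L) (bav_norm L) R
  have hrep : ∀ r, ∃ y : ℝ, ((y : ℝ) : UnitAddCircle) = x r := fun r =>
    QuotientAddGroup.mk_surjective (x r)
  choose y hy using hrep
  set m := L * R with hm
  have hm1 : 1 ≤ m := Nat.mul_pos hL1 hR1
  have hm0 : m₀ ≤ m := by
    calc m₀ ≤ L * 1 := by omega
      _ ≤ L * R := Nat.mul_le_mul_left _ hR1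
  obtain ⟨b, hb, hbr⟩ := blocks L R y
  have hpow : 2 ≤ 2 ^ m := by
    calc 2 = 2 ^ 1 := by norm_num
      _ ≤ 2 ^ m := Nat.pow_le_pow_right (by norm_num) hm1
  set M := 2 ^ m - 1 with hM
  have hM1 : 1 ≤ M := by omega
  obtain ⟨b', hb', hg⟩ := gcd_choice M b hM1
  set g := Nat.gcd b' M with hgd
  have hgpos : 0 < g := Nat.gcd_pos_of_pos_right _ hM1
  obtain ⟨D, hD⟩ : g ∣ M := Nat.gcd_dvd_right _ _
  obtain ⟨a, ha⟩ : g ∣ b' := Nat.gcd_dvd_left _ _
  have hcop : Nat.Coprime a D := by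
    have h1 : Nat.gcd (g * a) (g * D) = g := by rw [← ha, ← hD]
    rw [Nat.gcd_mul_left] at h1
    exact Nat.eq_of_mul_eq_mul_left hgpos (by rw [h1, mul_one])
  have hD1 : 1 ≤ D := by
    rcases Nat.eq_zero_or_pos D with h | h
    · rw [h] at hD; omega
    · exact h
  have hMr : ((M : ℕ) : ℝ) = 2 ^ m - 1 := by
    rw [hM, Nat.cast_sub (by omega)]
    push_cast
    rfl
  have hgr : (g : ℝ) ≠ 0 := by
    have : g ≠ 0 := by omega
    exact_mod_cast this
  have hDr : (D : ℝ) ≠ 0 := by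
    have : D ≠ 0 := by omega
    exact_mod_cast this
  have hz : ((a : ℤ) : ℝ) / D = (b' : ℝ) / (2 ^ m - 1) := by
    rw [← hMr, hD, ha]
    push_cast
    field_simp
  have hzp : (2 : ℝ) ^ m * (((a : ℤ) : ℝ) / D) = ((a : ℤ) : ℝ) / D + ((b' : ℤ) : ℝ) := by
    rw [hz]
    have h1 : (2 : ℝ) ^ m - 1 ≠ 0 := by
      rw [← hMr]
      have : M ≠ 0 := by omega
      exact_mod_cast this
    field_simp
    push_cast
    ring
  refine ⟨m, hm0, hm1, D, a, Nat.isCoprime_iff_coprime.2 hcop, ?_, hD1, ?_, ?_, ⟨b', hzp⟩, ?_⟩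
  · -- odd
    rw [← Nat.not_even_iff_odd]
    intro h
    have h1 : 2 ∣ M := by
      rw [hD]
      exact Dvd.dvd.mul_left (even_iff_two_dvd.1 h) g
    have h2 : 2 ∣ 2 ^ m := dvd_pow_self 2 (by omega)
    omega
  · have h1 : D ≤ M := by
      rw [hD]
      exact Nat.le_mul_of_pos_left _ hgpos
    omega
  · -- `M ≤ D²`
    have h1 : M * g ^ 2 ≤ D ^ 2 * g ^ 2 := by
      calc M * g ^ 2 ≤ M * M := Nat.mul_le_mul_left _ hg
        _ = (g * D) * (g * D) := by rw [← hD]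
        _ = D ^ 2 * g ^ 2 := by ring
    have h2 : M ≤ D ^ 2 := Nat.le_of_mul_le_mul_right h1 (by positivity)
    omega
  · intro k hk
    have h1 := follow (k := k) hm1 hb hbr hb'
    rw [hz]
    set A1 : ℂ := ∑ j ∈ range (L * R), e (k * (2 ^ j * ((b' : ℝ) / (2 ^ (L * R) - 1)))) with hA1
    set A2 : ℂ := ∑ r ∈ range R, ∑ t ∈ range L, e (k * (2 ^ t * y r)) with hA2
    have h2 : ∑ r ∈ range R, (bav L k (x r) - ∫ y, bav L k y ∂μ)
        = A2 / L - R * ∫ x, fourier k x ∂μ := by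
      rw [sum_sub_distrib, sum_const, card_range, nsmul_eq_mul, bav_int hμ hL1, hA2, sum_div]
      congr 1
      refine sum_congr rfl fun r _ => ?_
      rw [bav_apply, ← hy]
      congr 1
      refine sum_congr rfl fun t _ => ?_
      rw [two_pow_smul_coe, fourier_e]
    have h3 : ‖A2 / L - R * ∫ x, fourier k x ∂μ‖ ≤ ε / 2 * R := by
      have h4 : ‖∑ r ∈ range R, (bav L k (x r) - ∫ y, bav L k y ∂μ)‖ ^ 2 ≤ (ε / 2 * R) ^ 2 := by
        refine le_trans ?_ (hx.trans hRε)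
        exact single_le_sum (f := fun k => ‖∑ r ∈ range R, (bav L k (x r) - ∫ y, bav L k y ∂μ)‖ ^ 2)
          (fun _ _ => sq_nonneg _) hk
      rw [h2] at h4
      exact abs_le_of_sq_le_sq' h4 (by positivity) |>.2
    have e1 : A1 / ((m : ℕ) : ℂ) - ∫ x, fourier k x ∂μ
        = (A1 - A2) / (L * R) + (A2 / L - R * ∫ x, fourier k x ∂μ) / R := by
      have hLc : (L : ℂ) ≠ 0 := by
        have : L ≠ 0 := by omega
        exact_mod_cast this
      have hRc : (R : ℂ) ≠ 0 := by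
        have : R ≠ 0 := by omega
        exact_mod_cast this
      rw [hm]
      push_cast
      field_simp
      ring
    rw [e1]
    refine (norm_add_le _ _).trans ?_
    have b1 : ‖(A1 - A2) / ((L : ℂ) * R)‖ ≤ ε / 2 := by
      rw [norm_div, norm_mul, Complex.norm_natCast, Complex.norm_natCast,
        div_le_iff₀ (by positivity)]
      refine h1.trans ?_
      have hk' := hB k hk
      have hR1r : (1 : ℝ) ≤ R := by exact_mod_cast hR1
      have h5 : 12 * Real.pi * B ≤ ε / 2 * L := by rwa [div_le_iff₀ hLr] at hLε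
      calc 2 * Real.pi * |(k : ℝ)| * (4 + 2 * R) ≤ 2 * Real.pi * B * (6 * R) := by
            apply mul_le_mul _ (by linarith) (by positivity) (by positivity)
            exact mul_le_mul_of_nonneg_left hk' (by positivity)
        _ = (12 * Real.pi * B) * R := by ring
        _ ≤ (ε / 2 * L) * R := mul_le_mul_of_nonneg_right h5 hRr.le
        _ = ε / 2 * (L * R) := by ring
    have b2 : ‖(A2 / L - R * ∫ x, fourier k x ∂μ) / (R : ℂ)‖ ≤ ε / 2 := by
      rw [norm_div, Complex.norm_natCast, div_le_iff₀ hRr]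
      exact h3
    linarith

end Pool.Agent.Run7.h792.GM
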