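import Mathlib
import Pool.Agent.R202.Rot
import Pool.Agent.Run7.h792.GM.Dense2
import Pool.Agent.Run7.h792.GM.Const

/-! The space of invariant measures. -/

set_option autoImplicit false

namespace Pool.Agent.Run7.h792.GM

open Finset MeasureTheory Filter Topology
open Pool.Agent.H520R3 (e norm_e e_add e_zero e_neg e_int e_add_int e_sub_int norm_e_sub_e_le
  four_mul_le geom_bound e_mul_nat)

/-- the invariant probability measures -/
abbrev PX : Type := {ν : ProbabilityMeasure UnitAddCircle //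
  (ν : Measure UnitAddCircle).map (fun x : UnitAddCircle => (2 : ℕ) • x)
    = (ν : Measure UnitAddCircle)}

lemma cont_int (g : C(UnitAddCircle, ℂ)) :
    Continuous fun μ : ProbabilityMeasure UnitAddCircle => ∫ x, g x ∂(μ : Measure UnitAddCircle) := by
  rw [continuous_iff_continuousAt]
  intro μ
  have h := (ProbabilityMeasure.tendsto_iff_forall_integral_rclike_tendsto ℂ
    (μs := (id : ProbabilityMeasure UnitAddCircle → _)) (F := 𝓝 μ) (μ := μ)).1 tendsto_id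
  exact h (BoundedContinuousFunction.mkOfCompact g)

lemma cont_intR (g : C(UnitAddCircle, ℝ)) :
    Continuous fun μ : ProbabilityMeasure UnitAddCircle => ∫ x, g x ∂(μ : Measure UnitAddCircle) :=
  ProbabilityMeasure.continuous_integral_continuousMap g

lemma closedPX : IsClosed {ν : ProbabilityMeasure UnitAddCircle |
    (ν : Measure UnitAddCircle).map (fun x : UnitAddCircle => (2 : ℕ) • x)
    = (ν : Measure UnitAddCircle)} := by
  have hmeas : Measurable (fun x : UnitAddCircle => (2 : ℕ) • x) := by fun_prop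
  have hcont : Continuous (fun x : UnitAddCircle => (2 : ℕ) • x) := by fun_prop
  have e1 : {ν : ProbabilityMeasure UnitAddCircle |
    (ν : Measure UnitAddCircle).map (fun x : UnitAddCircle => (2 : ℕ) • x)
    = (ν : Measure UnitAddCircle)} = ⋂ f : C(UnitAddCircle, ℝ),
      {ν : ProbabilityMeasure UnitAddCircle |
        ∫ x, (f.comp ⟨_, hcont⟩) x ∂(ν : Measure UnitAddCircle)
          = ∫ x, f x ∂(ν : Measure UnitAddCircle)} := by
    ext ν
    simp only [Set.mem_ofPred_eq, Set.mem_iInter]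
    constructor
    · intro h f
      conv_rhs => rw [← h]
      rw [integral_map hmeas.aemeasurable f.continuous.aestronglyMeasurable]
      rfl
    · intro h
      have : IsProbabilityMeasure ((ν : Measure UnitAddCircle).map
        (fun x : UnitAddCircle => (2 : ℕ) • x)) := Measure.isProbabilityMeasure_map hmeas.aemeasurable
      refine ext_of_forall_integral_eq_of_IsFiniteMeasure fun f => ?_
      rw [integral_map hmeas.aemeasurable f.continuous.aestronglyMeasurable]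
      exact h ⟨f, f.continuous⟩
  rw [e1]
  exact isClosed_iInter fun f => isClosed_eq (cont_intR _) (cont_intR _)

instance : CompactSpace PX := isCompact_iff_compactSpace.1 closedPX.isCompact

/-- the Fourier coefficients -/
noncomputable def Phi (μ : PX) (k : ℤ) : ℂ := ∫ x, (fourier k x : ℂ) ∂(μ.1 : Measure UnitAddCircle)

lemma cont_Phi_k (k : ℤ) : Continuous fun μ : PX => Phi μ k :=
  (cont_int (fourier k)).comp continuous_subtype_val

lemma emb_Phi : IsClosedEmbedding Phi := by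
  apply Continuous.isClosedEmbedding
  · exact continuous_pi cont_Phi_k
  · intro μ ν h
    apply Subtype.ext
    apply Subtype.ext
    exact Pool.Agent.R202.ext_fourier (μ := (μ.1 : Measure UnitAddCircle))
      (ν := (ν.1 : Measure UnitAddCircle)) fun k => congrFun h k

instance : SecondCountableTopology PX := emb_Phi.isEmbedding.secondCountableTopology

lemma nhds_fourier {W : Set PX} (hW : IsOpen W) {μ : PX} (hμ : μ ∈ W) :
    ∃ S : Finset ℤ, ∃ ε > (0 : ℝ), ∀ ρ : PX, (∀ k ∈ S, ‖Phi ρ k - Phi μ k‖ ≤ ε) → ρ ∈ W := by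
  obtain ⟨V, hV, rfl⟩ := emb_Phi.isInducing.isOpen_iff.1 hW
  obtain ⟨I, u, hu, huV⟩ := isOpen_pi_iff.1 hV _ hμ
  have h1 : ∀ k, ∃ ε > (0 : ℝ), k ∈ I → Metric.ball (Phi μ k) ε ⊆ u k := by
    intro k
    by_cases hk : k ∈ I
    · obtain ⟨ε, hε, h⟩ := Metric.isOpen_iff.1 (hu k hk).1 _ (hu k hk).2
      exact ⟨ε, hε, fun _ => h⟩
    · exact ⟨1, one_pos, fun h => absurd h hk⟩
  choose ε hε hball using h1
  have h2 : ∀ᶠ δ : ℝ in 𝓝[>] 0, 0 < δ ∧ ∀ k ∈ I, δ < ε k := by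
    refine (eventually_mem_nhdsWithin).and ?_
    rw [Filter.eventually_all_finset]
    intro k _
    exact eventually_nhdsWithin_of_eventually_nhds (eventually_lt_nhds (hε k))
  obtain ⟨δ, hδ, hδε⟩ := h2.exists
  refine ⟨I, δ, hδ, fun ρ hρ => ?_⟩
  apply huV
  intro k hk
  apply hball k hk
  rw [Metric.mem_ball, dist_eq_norm]
  exact (hρ k hk).trans_lt (hδε k hk)

/-- the periodic orbit measure -/
noncomputable def perM (n : ℕ) (x : ℝ) : Measure UnitAddCircle :=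
  (n : ENNReal)⁻¹ • ∑ j ∈ range n, Measure.dirac (((2 ^ j * x : ℝ)) : UnitAddCircle)

lemma perM_prob {n : ℕ} (hn : 1 ≤ n) (x : ℝ) : IsProbabilityMeasure (perM n x) := by
  constructor
  unfold perM
  rw [Measure.smul_apply, Measure.finsetSum_apply]
  simp only [measure_univ, sum_const, card_range, nsmul_eq_mul, mul_one, smul_eq_mul]
  exact ENNReal.inv_mul_cancel (by
    have : n ≠ 0 := by omega
    exact_mod_cast this) (ENNReal.natCast_ne_top n)

lemma perM_int {E : Type*} [NormedAddCommGroup E] [NormedSpace ℝ E] [CompleteSpace E] {n : ℕ}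
    (x : ℝ) (f : C(UnitAddCircle, E)) :
    ∫ y, f y ∂(perM n x) = (n : ℝ)⁻¹ • ∑ j ∈ range n, f ((2 ^ j * x : ℝ) : UnitAddCircle) := by
  unfold perM
  rw [integral_smul_measure, integral_finsetSum_measure]
  · rw [ENNReal.toReal_inv, ENNReal.toReal_natCast]
    congr 1
    refine sum_congr rfl fun j _ => ?_
    rw [integral_dirac]
  · intro j _
    exact f.continuous.integrable_of_hasCompactSupport (HasCompactSupport.of_compactSpace f)

lemma perM_inv {n : ℕ} (hn : 1 ≤ n) {x : ℝ} (hx : ∃ p : ℤ, 2 ^ n * x = x + p) :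
    (perM n x).map (fun y : UnitAddCircle => (2 : ℕ) • y) = perM n x := by
  have hmeas : Measurable (fun x : UnitAddCircle => (2 : ℕ) • x) := by fun_prop
  unfold perM
  rw [Measure.map_smul, Measure.map_finset_sum hmeas.aemeasurable]
  congr 1
  have h1 : ∀ j, Measure.map (fun y : UnitAddCircle => (2 : ℕ) • y)
      (Measure.dirac (((2 ^ j * x : ℝ)) : UnitAddCircle))
      = Measure.dirac (((2 ^ (j + 1) * x : ℝ)) : UnitAddCircle) := by
    intro j
    rw [Measure.map_dirac' hmeas]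
    congr 1
    rw [← AddCircle.coe_nsmul]
    congr 1
    rw [nsmul_eq_mul, pow_succ]
    push_cast
    ring
  simp_rw [h1]
  obtain ⟨n', rfl⟩ : ∃ n', n = n' + 1 := ⟨n - 1, by omega⟩
  have h2 : (((2 ^ (n' + 1) * x : ℝ)) : UnitAddCircle) = ((2 ^ 0 * x : ℝ) : UnitAddCircle) := by
    obtain ⟨p, hp⟩ := hx
    rw [hp, pow_zero, one_mul]
    have : ((p : ℝ) : UnitAddCircle) = 0 := by
      rw [AddCircle.coe_eq_zero_iff]
      exact ⟨p, by simp⟩
    rw [AddCircle.coe_add, this, add_zero]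
  rw [sum_range_succ, h2, ← sum_range_succ' (fun j =>
    Measure.dirac (((2 ^ j * x : ℝ)) : UnitAddCircle))]

/-- the periodic orbit measure as a point of `PX` -/
noncomputable def perX {n : ℕ} (hn : 1 ≤ n) {x : ℝ} (hx : ∃ p : ℤ, 2 ^ n * x = x + p) : PX :=
  ⟨⟨perM n x, perM_prob hn x⟩, perM_inv hn hx⟩

lemma perX_Phi {n : ℕ} (hn : 1 ≤ n) {x : ℝ} (hx : ∃ p : ℤ, 2 ^ n * x = x + p) (k : ℤ) :
    Phi (perX hn hx) k = (∑ j ∈ range n, e (k * (2 ^ j * x))) / n := by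
  unfold Phi
  have h := perM_int (n := n) x (fourier k)
  have e0 : ∫ y, (fourier k y : ℂ) ∂((perX hn hx).1 : Measure UnitAddCircle)
      = ∫ y, (fourier k y : ℂ) ∂(perM n x) := rfl
  rw [e0, h, div_eq_inv_mul]
  rw [Complex.real_smul]
  push_cast
  congr 1
  exact sum_congr rfl fun j _ => fourier_e k _

/-- density of the good periodic measures -/
lemma exists_per {W : Set PX} (hW : IsOpen W) (hne : W.Nonempty) (m₀ : ℕ) :
    ∃ m, m₀ ≤ m ∧ ∃ hm : 1 ≤ m, ∃ (D : ℕ) (a₀ : ℤ), IsCoprime a₀ (D : ℤ) ∧ Odd D ∧ 1 ≤ D ∧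
      D < 2 ^ m ∧ 2 ^ m ≤ 2 * D ^ 2 ∧
      ∃ hz : (∃ p : ℤ, 2 ^ m * ((a₀ : ℝ) / D) = (a₀ : ℝ) / D + p), perX hm hz ∈ W := by
  obtain ⟨μ, hμ⟩ := hne
  obtain ⟨S, ε, hε, h⟩ := nhds_fourier hW hμ
  obtain ⟨m, hm0, hm1, D, a₀, h1, h2, h3, h4, h5, h6, h7⟩ :=
    dense_per (μ.1 : Measure UnitAddCircle) μ.2 S hε m₀
  refine ⟨m, hm0, hm1, D, a₀, h1, h2, h3, h4, h5, h6, h _ fun k hk => ?_⟩
  rw [perX_Phi]
  exact h7 k hk

/-- test function of the neighbourhood of a periodic orbit -/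
noncomputable def tf (m : ℕ) (z : ℝ) (ℓ : ℕ) : C(UnitAddCircle, ℝ) :=
  ⟨fun ξ => max 0 (1 - 2 ^ (ℓ + 2) * Metric.infDist ξ
    ((fun t : ℕ => ((2 ^ t * z : ℝ) : UnitAddCircle)) '' (range m : Set ℕ))), by
    have := Metric.continuous_infDist_pt
      ((fun t : ℕ => ((2 ^ t * z : ℝ) : UnitAddCircle)) '' (range m : Set ℕ))
    fun_prop⟩

lemma tf_one {m : ℕ} {z : ℝ} {ℓ t : ℕ} (ht : t < m) :
    tf m z ℓ ((2 ^ t * z : ℝ) : UnitAddCircle) = 1 := by
  have h1 : Metric.infDist (((2 ^ t * z : ℝ)) : UnitAddCircle)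
    ((fun t : ℕ => ((2 ^ t * z : ℝ) : UnitAddCircle)) '' (range m : Set ℕ)) = 0 :=
    Metric.infDist_zero_of_mem ⟨t, by simpa using ht, rfl⟩
  change max 0 (1 - 2 ^ (ℓ + 2) * Metric.infDist (((2 ^ t * z : ℝ)) : UnitAddCircle)
    ((fun t : ℕ => ((2 ^ t * z : ℝ) : UnitAddCircle)) '' (range m : Set ℕ))) = 1
  rw [h1]
  simp

lemma tf_le {m : ℕ} (hm : 1 ≤ m) (z : ℝ) (ℓ : ℕ) (y : ℝ) :
    tf m z ℓ (y : UnitAddCircle) ≤ 1 - gc m z ℓ y := by
  change max 0 (1 - 2 ^ (ℓ + 2) * Metric.infDist ((y : ℝ) : UnitAddCircle)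
    ((fun t : ℕ => ((2 ^ t * z : ℝ) : UnitAddCircle)) '' (range m : Set ℕ))) ≤ 1 - gc m z ℓ y
  by_cases hy : y ∈ G m z ℓ
  · have : gc m z ℓ y = 0 := by unfold gc; rw [if_pos hy]
    rw [this]
    have h2 : 0 ≤ Metric.infDist ((y : ℝ) : UnitAddCircle)
      ((fun t : ℕ => ((2 ^ t * z : ℝ) : UnitAddCircle)) '' (range m : Set ℕ)) :=
      Metric.infDist_nonneg
    have h3 : (0 : ℝ) ≤ 2 ^ (ℓ + 2) * Metric.infDist ((y : ℝ) : UnitAddCircle)
      ((fun t : ℕ => ((2 ^ t * z : ℝ) : UnitAddCircle)) '' (range m : Set ℕ)) := by positivity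
    apply max_le <;> linarith
  · have : gc m z ℓ y = 1 := by unfold gc; rw [if_neg hy]
    rw [this, sub_self]
    apply max_le le_rfl
    have hne : ((fun t : ℕ => ((2 ^ t * z : ℝ) : UnitAddCircle)) '' (range m : Set ℕ)).Nonempty :=
      ⟨_, 0, by simp; omega, rfl⟩
    have h1 : 1 / 2 ^ (ℓ + 2) ≤ Metric.infDist ((y : ℝ) : UnitAddCircle)
      ((fun t : ℕ => ((2 ^ t * z : ℝ) : UnitAddCircle)) '' (range m : Set ℕ)) := by
      rw [Metric.le_infDist hne]
      rintro _ ⟨t, ht, rfl⟩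
      rw [dist_eq_norm, ← AddCircle.coe_sub, UnitAddCircle.norm_eq]
      by_contra hcon
      push Not at hcon
      exact hy ⟨t, by simpa using ht, round (y - 2 ^ t * z), hcon⟩
    have h2 : (0 : ℝ) < 2 ^ (ℓ + 2) := by positivity
    have h3 := mul_le_mul_of_nonneg_left h1 h2.le
    have h4 : (2 : ℝ) ^ (ℓ + 2) * (1 / 2 ^ (ℓ + 2)) = 1 := by field_simp
    linarith

/-- `c` is good for `U` -/
def GoodU (U : Set PX) (K c : ℕ) : Prop :=
  ∀ μ ∈ U, ∀ k : ℕ, 1 ≤ k → k ≤ K → ‖Phi μ ((k : ℤ) * c)‖ ≤ 1 / K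

theorem stage {W : Set PX} (hW : IsOpen W) (hne : W.Nonempty) {K : ℕ} (hK : 1 ≤ K) {θ : ℝ}
    (hθ : 0 < θ) :
    ∃ U : Set PX, IsOpen U ∧ (U ∩ W).Nonempty ∧ ∃ Mod : ℕ, 1 ≤ Mod ∧ ∃ q₀ : ℕ, ∀ q ≥ q₀,
        ∃ Bad : Finset ℕ, (Bad.card : ℝ) ≤ θ * 2 ^ (Mod * q) ∧
          ∀ c < 2 ^ (Mod * q), c ∉ Bad → GoodU U K c := by
  have hKr : (1 : ℝ) ≤ K := by exact_mod_cast hK
  obtain ⟨m₀, hm₀⟩ := core hK (ε := 1 / K) (by positivity) (by
    rw [div_le_one (by positivity)]; exact hKr) hθ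
  obtain ⟨m, hmm₀, hm1, D, a₀, h1, h2, h3, h4, h5, hz, hper⟩ := exists_per hW hne m₀
  obtain ⟨ℓ, η', hη', Mod, hMod, q₀, hq₀⟩ := hm₀ m hmm₀ D a₀ h1 h2 h3 h4 h5
  set z : ℝ := (a₀ : ℝ) / D with hzd
  set F : PX → ℝ := fun μ => ∫ x, tf m z ℓ x ∂(μ.1 : Measure UnitAddCircle) with hF
  have hFc : Continuous F := (cont_intR (tf m z ℓ)).comp continuous_subtype_val
  have hFper : ∀ {n : ℕ} (hn : 1 ≤ n) {x : ℝ} (hx : ∃ p : ℤ, 2 ^ n * x = x + p),
      F (perX hn hx) = (n : ℝ)⁻¹ * ∑ j ∈ range n, tf m z ℓ ((2 ^ j * x : ℝ) : UnitAddCircle) := by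
    intro n hn x hx
    have h := perM_int (n := n) x (tf m z ℓ)
    exact h
  refine ⟨{μ | 1 - η' < F μ}, isOpen_lt continuous_const hFc, ⟨perX hm1 hz, ?_, hper⟩,
    Mod, hMod, q₀, fun q hq => ?_⟩
  · change 1 - η' < F (perX hm1 hz)
    rw [hFper hm1 hz]
    have : ∑ j ∈ range m, tf m z ℓ ((2 ^ j * z : ℝ) : UnitAddCircle) = m := by
      rw [sum_congr rfl fun j hj => tf_one (mem_range.1 hj)]
      simp
    rw [this]
    have hm0 : (m : ℝ) ≠ 0 := by
      have : m ≠ 0 := by omega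
      exact_mod_cast this
    rw [inv_mul_cancel₀ hm0]
    linarith
  · obtain ⟨Bad, hB1, hB2⟩ := hq₀ q hq
    refine ⟨Bad, hB1, fun c hc hcB => ?_⟩
    intro μ hμ k hk1 hk2
    by_contra hcon
    push Not at hcon
    set W' : Set PX := {ν | 1 - η' < F ν} ∩ {ν | 1 / (K : ℝ) < ‖Phi ν ((k : ℤ) * c)‖} with hW'
    have hW'o : IsOpen W' := (isOpen_lt continuous_const hFc).inter
      (isOpen_lt continuous_const (cont_Phi_k _).norm)
    obtain ⟨n, -, hn1, D', a', -, -, -, -, -, hx, hper'⟩ := exists_per hW'o ⟨μ, hμ, hcon⟩ 0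
    obtain ⟨hA, hB⟩ := hper'
    set x : ℝ := (a' : ℝ) / D' with hxd
    have hnr : (0 : ℝ) < n := by exact_mod_cast hn1
    have h6 : ∑ j ∈ range n, gc m z ℓ (2 ^ j * x) ≤ η' * n := by
      have hA' : 1 - η' < F (perX hn1 hx) := hA
      rw [hFper hn1 hx] at hA'
      have h7 : ∑ j ∈ range n, tf m z ℓ ((2 ^ j * x : ℝ) : UnitAddCircle)
          ≤ ∑ j ∈ range n, (1 - gc m z ℓ (2 ^ j * x)) :=
        sum_le_sum fun j _ => tf_le hm1 z ℓ _
      rw [sum_sub_distrib, sum_const, card_range, nsmul_eq_mul, mul_one] at h7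
      rw [← div_eq_inv_mul, lt_div_iff₀ hnr] at hA'
      linarith
    have h8 := hB2 c hc hcB x n hx h6 k hk1 hk2
    have hB' : 1 / (K : ℝ) < ‖Phi (perX hn1 hx) ((k : ℤ) * c)‖ := hB
    rw [perX_Phi, norm_div, Complex.norm_natCast, lt_div_iff₀ hnr] at hB'
    have e1 : ∑ j ∈ range n, e (((((k : ℤ) * c : ℤ)) : ℝ) * (2 ^ j * x))
        = ∑ j ∈ range n, e (k * c * (2 ^ j * x)) := by
      refine sum_congr rfl fun j _ => ?_
      push_cast
      rfl
    rw [e1] at hB'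
    linarith

end Pool.Agent.Run7.h792.GM
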