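import Mathlib
import Pool.Agent.Run7.h792.GM.Top

/-! A sequence of multipliers whose dilates of the generic invariant measure equidistribute. -/

set_option autoImplicit false

namespace Pool.Agent.Run7.h792.GM

open Finset MeasureTheory Filter Topology
open Pool.Agent.H520R3 (e norm_e e_add e_zero e_neg e_int e_add_int e_sub_int norm_e_sub_e_le
  four_mul_le geom_bound e_mul_nat)

lemma sum_theta (n : ℕ) : ∑ i ∈ range n, (1 : ℝ) / 2 ^ (i + 3) ≤ 1 / 4 := by
  have h : ∀ n : ℕ, ∑ i ∈ range n, (1 : ℝ) / 2 ^ (i + 3) = 1 / 4 - 1 / (4 * 2 ^ n) := by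
    intro n
    induction n with
    | zero => norm_num
    | succ n ih =>
      rw [sum_range_succ, ih, pow_add, pow_succ]
      field_simp
      ring
  rw [h]
  have : (0 : ℝ) < 1 / (4 * 2 ^ n) := by positivity
  linarith

/-- a multiplier which is good at all stages `≤ n` -/
lemma pick (P : ℕ → ℕ → Prop) (Mod q₀ : ℕ → ℕ) (hMod : ∀ i, 1 ≤ Mod i)
    (h : ∀ i, ∀ q ≥ q₀ i, ∃ Bad : Finset ℕ, (Bad.card : ℝ) ≤ 1 / 2 ^ (i + 3) * 2 ^ (Mod i * q) ∧
      ∀ c < 2 ^ (Mod i * q), c ∉ Bad → P i c) (n B : ℕ) :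
    ∃ c, B < c ∧ ∀ i < n, P i c := by
  classical
  set M := ∏ i ∈ range n, Mod i with hM
  set q := (∑ i ∈ range n, q₀ i) + B + 2 with hq
  have hMi : ∀ i ∈ range n, M = Mod i * ∏ j ∈ (range n).erase i, Mod j := fun i hi =>
    (mul_prod_erase _ _ hi).symm
  have hpos : ∀ i, 1 ≤ ∏ j ∈ (range n).erase i, Mod j := fun i =>
    Nat.one_le_iff_ne_zero.2 (prod_ne_zero_iff.2 fun j _ => by have := hMod j; omega)
  have hM1 : 1 ≤ M := Nat.one_le_iff_ne_zero.2 (prod_ne_zero_iff.2 fun j _ => by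
    have := hMod j; omega)
  set E := M * q with hE
  have hEi : ∀ i ∈ range n, E = Mod i * ((∏ j ∈ (range n).erase i, Mod j) * q) := by
    intro i hi
    rw [hE, ← mul_assoc, ← hMi i hi]
  have hqi : ∀ i ∈ range n, q₀ i ≤ (∏ j ∈ (range n).erase i, Mod j) * q := by
    intro i hi
    have h1 : q₀ i ≤ ∑ i ∈ range n, q₀ i := single_le_sum (fun _ _ => Nat.zero_le _) hi
    have h2 : 1 * q ≤ (∏ j ∈ (range n).erase i, Mod j) * q := Nat.mul_le_mul_right _ (hpos i)
    omega
  have hex : ∀ i, ∃ Bad : Finset ℕ, i ∈ range n → ((Bad.card : ℝ) ≤ 1 / 2 ^ (i + 3) * 2 ^ E ∧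
      ∀ c < 2 ^ E, c ∉ Bad → P i c) := by
    intro i
    by_cases hi : i ∈ range n
    · obtain ⟨Bad, h1, h2⟩ := h i _ (hqi i hi)
      rw [← hEi i hi] at h1 h2
      exact ⟨Bad, fun _ => ⟨h1, h2⟩⟩
    · exact ⟨∅, fun h => absurd h hi⟩
  choose Bad hBad using hex
  have hcard : (((range n).biUnion Bad ∪ range (B + 1)).card : ℝ) < 2 ^ E := by
    have h1 : (((range n).biUnion Bad).card : ℝ) ≤ 1 / 4 * 2 ^ E := by
      have h2 := card_biUnion_le (s := range n) (t := Bad)
      refine (Nat.cast_le (α := ℝ).2 h2).trans ?_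
      push_cast
      refine (sum_le_sum fun i hi => (hBad i hi).1).trans ?_
      rw [← sum_mul]
      exact mul_le_mul_of_nonneg_right (sum_theta n) (by positivity)
    have h2 : (((range n).biUnion Bad ∪ range (B + 1)).card : ℝ)
        ≤ ((range n).biUnion Bad).card + (B + 1) := by
      have := card_union_le ((range n).biUnion Bad) (range (B + 1))
      rw [card_range] at this
      exact_mod_cast this
    have h3 : (B : ℝ) + 1 < 3 / 4 * 2 ^ E := by
      have h4 : B + 2 ≤ E := by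
        have : 1 * q ≤ M * q := Nat.mul_le_mul_right _ hM1
        omega
      have h5 : (2 : ℝ) ^ (B + 2) ≤ 2 ^ E := pow_le_pow_right₀ (by norm_num) h4
      have h6 : (B : ℝ) + 1 ≤ 2 ^ B := by
        have : B < 2 ^ B := Nat.lt_two_pow_self
        exact_mod_cast this
      have h7 : (2 : ℝ) ^ (B + 2) = 4 * 2 ^ B := by rw [pow_add]; ring
      have h8 : (0 : ℝ) < 2 ^ B := by positivity
      linarith
    linarith
  have hex2 : ∃ c ∈ range (2 ^ E), c ∉ (range n).biUnion Bad ∪ range (B + 1) := by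
    by_contra hcon
    push Not at hcon
    have h1 : range (2 ^ E) ⊆ (range n).biUnion Bad ∪ range (B + 1) := hcon
    have h2 := card_le_card h1
    rw [card_range] at h2
    have h3 : (2 : ℝ) ^ E ≤ (((range n).biUnion Bad ∪ range (B + 1)).card : ℝ) := by
      exact_mod_cast h2
    linarith
  obtain ⟨c, hc1, hc2⟩ := hex2
  rw [mem_union, mem_biUnion, mem_range] at hc2
  push Not at hc2
  refine ⟨c, by have := hc2.2; omega, fun i hi => ?_⟩
  exact (hBad i (mem_range.2 hi)).2 c (mem_range.1 hc1) (hc2.1 i (mem_range.2 hi))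

lemma exists_strictMono (P : ℕ → ℕ → Prop) (h : ∀ n B, ∃ c, B < c ∧ P n c) :
    ∃ c : ℕ → ℕ, StrictMono c ∧ ∀ n, P n (c n) := by
  choose f hf using h
  let c : ℕ → ℕ := fun n => Nat.rec (f 0 0) (fun n cn => f (n + 1) cn) n
  have hc : ∀ n, c (n + 1) = f (n + 1) (c n) := fun n => rfl
  refine ⟨c, strictMono_nat_of_lt_succ fun n => ?_, fun n => ?_⟩
  · rw [hc]; exact (hf _ _).1
  · cases n with
    | zero => exact (hf 0 0).2
    | succ n => rw [hc]; exact (hf _ _).2

instance : Nonempty PX := by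
  have : (∃ p : ℤ, (2 : ℝ) ^ 1 * 0 = 0 + p) := ⟨0, by simp⟩
  exact ⟨perX le_rfl this⟩

theorem main : ∃ c : ℕ → ℕ, StrictMono c ∧ ∃ R ∈ residual PX, ∀ μ ∈ R, ∀ k : ℕ, 1 ≤ k →
    Tendsto (fun n => Phi μ ((k : ℤ) * c n)) atTop (𝓝 0) := by
  obtain ⟨b, hbc, hbe, hb⟩ := TopologicalSpace.exists_countable_basis PX
  have hbne : b.Nonempty := by
    by_contra hcon
    rw [Set.not_nonempty_iff_eq_empty] at hcon
    obtain ⟨x⟩ := (inferInstance : Nonempty PX)
    obtain ⟨u, hu, -, -⟩ := hb.exists_subset_of_mem_open (Set.mem_univ x) isOpen_univ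
    rw [hcon] at hu
    exact hu
  obtain ⟨W, hW⟩ := hbc.exists_eq_range hbne
  have hWo : ∀ s, IsOpen (W s) := fun s => hb.isOpen (by rw [hW]; exact ⟨s, rfl⟩)
  have hWne : ∀ s, (W s).Nonempty := by
    intro s
    rw [Set.nonempty_iff_ne_empty]
    intro h
    apply hbe
    rw [hW]
    exact ⟨s, h⟩
  have hst := fun i : ℕ => stage (hWo i.unpair.1) (hWne i.unpair.1) (K := i.unpair.2 + 1)
    (by omega) (θ := 1 / 2 ^ (i + 3)) (by positivity)
  choose U hUo hUW Mod hMod q₀ hq₀ using hst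
  obtain ⟨c, hc, hcg⟩ := exists_strictMono
    (fun n c => ∀ i < n + 1, GoodU (U i) (i.unpair.2 + 1) c) (fun n B =>
      pick (fun i c => GoodU (U i) (i.unpair.2 + 1) c) Mod q₀ hMod hq₀ (n + 1) B)
  refine ⟨c, hc, ⋂ K : ℕ, ⋃ s : ℕ, U (Nat.pair s K), ?_, ?_⟩
  · rw [countable_iInter_mem]
    intro K
    apply residual_of_dense_open
    · exact isOpen_iUnion fun s => hUo _
    · rw [hb.dense_iff]
      rintro o ho -
      rw [hW] at ho
      obtain ⟨s, rfl⟩ := ho
      have h1 := hUW (Nat.pair s K)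
      rw [Nat.unpair_pair] at h1
      obtain ⟨μ, hμ1, hμ2⟩ := h1
      exact ⟨μ, hμ2, Set.mem_iUnion.2 ⟨s, hμ1⟩⟩
  · intro μ hμ k hk
    rw [Metric.tendsto_atTop]
    intro ε hε
    obtain ⟨K, hK⟩ := exists_nat_gt (max (k : ℝ) (1 / ε))
    rw [Set.mem_iInter] at hμ
    obtain ⟨s, hs⟩ := Set.mem_iUnion.1 (hμ K)
    refine ⟨Nat.pair s K, fun n hn => ?_⟩
    have h1 := hcg n (Nat.pair s K) (by omega) μ hs k hk (by
      rw [Nat.unpair_pair]
      have : (k : ℝ) < K := (le_max_left _ _).trans_lt hK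
      have : k < K := by exact_mod_cast this
      simp only
      omega)
    rw [Nat.unpair_pair] at h1
    rw [dist_zero_right]
    refine h1.trans_lt ?_
    push_cast
    have h2 : 1 / ε < K := (le_max_right _ _).trans_lt hK
    rw [div_lt_iff₀ hε] at h2
    rw [div_lt_iff₀ (by positivity)]
    linarith

lemma fourier_mul_smul (m : ℤ) (c : ℤ) (x : UnitAddCircle) :
    (fourier m (c • x) : ℂ) = fourier (m * c) x := by
  rw [fourier_apply, fourier_apply, smul_smul]

lemma Phi_neg (μ : PX) (k : ℤ) : Phi μ (-k) = (starRingEnd ℂ) (Phi μ k) := by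
  unfold Phi
  rw [← integral_conj]
  refine integral_congr_ae (Eventually.of_forall fun x => ?_)
  simp only
  rw [fourier_neg]

lemma equi {μ : PX} {c : ℕ → ℕ}
    (h : ∀ k : ℕ, 1 ≤ k → Tendsto (fun n => Phi μ ((k : ℤ) * c n)) atTop (𝓝 0))
    (f : C(UnitAddCircle, ℝ)) :
    Tendsto (fun n : ℕ => ∫ x, f ((c n : ℤ) • x) ∂(μ.1 : Measure UnitAddCircle))
      atTop (𝓝 (∫ x, f x)) := by
  -- nonzero frequencies
  have h1 : ∀ m : ℤ, m ≠ 0 → Tendsto (fun n => Phi μ (m * c n)) atTop (𝓝 0) := by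
    intro m hm
    rcases lt_or_gt_of_ne hm with hneg | hpos
    · have h2 := h m.natAbs (Int.natAbs_pos.2 hm)
      have e1 : ((m.natAbs : ℕ) : ℤ) = -m := by
        rw [Int.natCast_natAbs, abs_of_neg hneg]
      rw [e1] at h2
      rw [tendsto_zero_iff_norm_tendsto_zero] at h2 ⊢
      refine h2.congr fun n => ?_
      rw [neg_mul, Phi_neg, RCLike.norm_conj]
    · have h2 := h m.natAbs (Int.natAbs_pos.2 hm)
      have e1 : ((m.natAbs : ℕ) : ℤ) = m := by
        rw [Int.natCast_natAbs, abs_of_pos hpos]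
      rwa [e1] at h2
  have hv : (volume : Measure UnitAddCircle).real Set.univ = 1 := by
    rw [measureReal_def, UnitAddCircle.measure_univ, ENNReal.toReal_one]
  -- Lebesgue
  have hleb : ∀ m : ℤ, m ≠ 0 → ∫ x : UnitAddCircle, (fourier m x : ℂ) = 0 := by
    intro m hm
    refine Pool.Agent.R202.coeff_zero (θ := Real.sqrt 2) irrational_sqrt_two ?_ hm
    exact (measurePreserving_add_right volume _).map_eq
  rw [Metric.tendsto_atTop]
  intro ε hε
  set fc : C(UnitAddCircle, ℂ) := ⟨fun x => ((f x : ℝ) : ℂ), by fun_prop⟩ with hfc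
  obtain ⟨M, a, ha⟩ := Pool.Agent.R202.trig_approx fc (ε := ε / 4) (by positivity)
  set μm : Measure UnitAddCircle := (μ.1 : Measure UnitAddCircle) with hμm
  -- the trigonometric polynomial
  have hP : ∀ n, ∫ x, ∑ m ∈ M, a m * fourier m ((c n : ℤ) • x) ∂μm
      = ∑ m ∈ M, a m * Phi μ (m * c n) := by
    intro n
    rw [integral_finsetSum]
    · refine sum_congr rfl fun m _ => ?_
      rw [integral_const_mul]
      congr 1
      unfold Phi
      exact integral_congr_ae (Eventually.of_forall fun x => fourier_mul_smul m (c n) x)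
    · intro m _
      have h2 : Continuous fun x : UnitAddCircle => (fourier m ((c n : ℤ) • x) : ℂ) := by fun_prop
      exact (integrable_c μm ⟨_, h2⟩).const_mul _
  have hQ : ∫ x : UnitAddCircle, ∑ m ∈ M, a m * fourier m x = ∑ m ∈ M, if m = 0 then a m else 0 := by
    rw [integral_finsetSum]
    · refine sum_congr rfl fun m _ => ?_
      rw [integral_const_mul]
      by_cases hm : m = 0
      · subst hm
        simp [hv]
      · rw [hleb m hm, if_neg hm, mul_zero]
    · intro m _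
      exact (integrable_c volume (fourier m)).const_mul _
  have hlim : Tendsto (fun n => ∑ m ∈ M, a m * Phi μ (m * c n)) atTop
      (𝓝 (∑ m ∈ M, if m = 0 then a m else 0)) := by
    apply tendsto_finsetSum
    intro m _
    by_cases hm : m = 0
    · subst hm
      have : ∀ n, a 0 * Phi μ (0 * (c n : ℤ)) = a 0 := by
        intro n
        unfold Phi
        simp
      simp only [this, if_true]
      exact tendsto_const_nhds
    · rw [if_neg hm]
      have := (h1 m hm).const_mul (a m)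
      rwa [mul_zero] at this
  obtain ⟨n₀, hn₀⟩ := Metric.tendsto_atTop.1 hlim (ε / 4) (by positivity)
  refine ⟨n₀, fun n hn => ?_⟩
  have h3 := hn₀ n hn
  rw [dist_eq_norm] at h3
  -- comparisons
  have hcn : Continuous fun x : UnitAddCircle => (c n : ℤ) • x := by fun_prop
  have i1 : Integrable (fun x => fc ((c n : ℤ) • x)) μm := integrable_c μm (fc.comp ⟨_, hcn⟩)
  have i2 : Integrable (fun x => ∑ m ∈ M, a m * fourier m ((c n : ℤ) • x)) μm := by
    refine integrable_finsetSum _ fun m _ => ?_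
    have h2 : Continuous fun x : UnitAddCircle => (fourier m ((c n : ℤ) • x) : ℂ) := by fun_prop
    exact (integrable_c μm ⟨_, h2⟩).const_mul _
  have d1 : ‖(∫ x, fc ((c n : ℤ) • x) ∂μm) - ∫ x, ∑ m ∈ M, a m * fourier m ((c n : ℤ) • x) ∂μm‖
      ≤ ε / 4 := by
    rw [← integral_sub i1 i2]
    have := norm_integral_le_of_norm_le_const (μ := μm) (C := ε / 4)
      (f := fun x => fc ((c n : ℤ) • x) - ∑ m ∈ M, a m * fourier m ((c n : ℤ) • x))
      (Eventually.of_forall fun x => ha ((c n : ℤ) • x))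
    simpa using this
  have i3 : Integrable (fun x : UnitAddCircle => ∑ m ∈ M, a m * fourier m x) volume :=
    integrable_finsetSum _ fun m _ => (integrable_c volume (fourier m)).const_mul _
  have d2 : ‖(∫ x : UnitAddCircle, fc x) - ∫ x : UnitAddCircle, ∑ m ∈ M, a m * fourier m x‖
      ≤ ε / 4 := by
    rw [← integral_sub (integrable_c volume fc) i3]
    have := norm_integral_le_of_norm_le_const (μ := (volume : Measure UnitAddCircle)) (C := ε / 4)
      (f := fun x => fc x - ∑ m ∈ M, a m * fourier m x)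
      (Eventually.of_forall fun x => ha x)
    rw [hv, mul_one] at this
    exact this
  rw [hP n] at d1
  rw [hQ] at d2
  have e1 : ∫ x, fc ((c n : ℤ) • x) ∂μm = ((∫ x, f ((c n : ℤ) • x) ∂μm : ℝ) : ℂ) := by
    rw [← integral_complex_ofReal]
    rfl
  have e2 : ∫ x : UnitAddCircle, fc x = ((∫ x : UnitAddCircle, f x : ℝ) : ℂ) := by
    rw [← integral_complex_ofReal]
    rfl
  rw [e1] at d1
  rw [e2] at d2
  rw [Real.dist_eq, ← Real.norm_eq_abs, ← Complex.norm_real]
  push_cast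
  have e3 : ((∫ x, f ((c n : ℤ) • x) ∂μm : ℝ) : ℂ) - ((∫ x : UnitAddCircle, f x : ℝ) : ℂ)
      = (((∫ x, f ((c n : ℤ) • x) ∂μm : ℝ) : ℂ) - ∑ m ∈ M, a m * Phi μ (m * c n))
        + (∑ m ∈ M, a m * Phi μ (m * c n) - ∑ m ∈ M, if m = 0 then a m else 0)
        - (((∫ x : UnitAddCircle, f x : ℝ) : ℂ) - ∑ m ∈ M, if m = 0 then a m else 0) := by ring
  rw [e3]
  refine (norm_sub_le _ _).trans_lt ?_
  have := norm_add_le (((∫ x, f ((c n : ℤ) • x) ∂μm : ℝ) : ℂ) - ∑ m ∈ M, a m * Phi μ (m * c n))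
    (∑ m ∈ M, a m * Phi μ (m * c n) - ∑ m ∈ M, if m = 0 then a m else 0)
  linarith

end Pool.Agent.Run7.h792.GM
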